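import Pool.Agent.Lib.H74P.A3

set_option autoImplicit false

/-!
Chunk C1. Integrals from `0` to `s` of a
function which is continuous on `[0,S] × S2` are continuous on `[0,S] × S2` (`cont_int`: extend the function from `Icc 0 S` to `ℝ` by projection on the interval,
`continuous_parametric_intervalIntegral_of_continuous`). `fub`: `intervalIntegral_integral_swap` or `integral_integral_swap` on `[0,S] × S2`. `cont_sph`: on every `[0,S]`, dominated by a constant.
-/

open MeasureTheory Filter Topology Set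
open scoped ContDiff

namespace NullPen

theorem c1_fin : IsFiniteMeasure sm := by
  change IsFiniteMeasure ((volume : Measure E3).toSphere)
  infer_instance

theorem c1_ext {F : ℝ → S2 → ℝ} (hF : ContinuousOn (fun p : ℝ × S2 => F p.1 p.2) (Ici 0 ×ˢ univ)) :
    Continuous (fun p : ℝ × S2 => F (max p.1 0) p.2) := by
  have h1 : Continuous (fun p : ℝ × S2 => ((max p.1 0, p.2) : ℝ × S2)) :=
    (continuous_fst.max continuous_const).prodMk continuous_snd
  exact hF.comp_continuous h1 fun p => ⟨mem_Ici.mpr (le_max_right p.1 0), mem_univ _⟩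

theorem cont_int {F : ℝ → S2 → ℝ} (hF : ContinuousOn (fun p : ℝ × S2 => F p.1 p.2) (Ici 0 ×ˢ univ)) :
    ContinuousOn (fun p : ℝ × S2 => ∫ t in (0 : ℝ)..p.1, F t p.2) (Ici 0 ×ˢ univ) := by
  have h1 := c1_ext hF
  have h2 : Continuous (fun p : ℝ × S2 => ∫ t in (0 : ℝ)..p.1, F (max t 0) p.2) := by
    have h3 : Continuous (Function.uncurry (fun (p : ℝ × S2) (t : ℝ) => F (max t 0) p.2)) :=
      h1.comp (continuous_snd.prodMk (continuous_snd.comp continuous_fst))
    exact intervalIntegral.continuous_parametric_intervalIntegral_of_continuous h3 continuous_fst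
  refine h2.continuousOn.congr fun p hp => ?_
  refine intervalIntegral.integral_congr fun t ht => ?_
  rw [uIcc_of_le (mem_Ici.mp hp.1)] at ht
  rw [max_eq_left ht.1]

/-- Fubini. -/
theorem fub {F : ℝ → S2 → ℝ} (hF : ContinuousOn (fun p : ℝ × S2 => F p.1 p.2) (Ici 0 ×ˢ univ)) {S : ℝ} (hS : 0 ≤ S) :
    ∫ t in (0 : ℝ)..S, (∫ n : S2, F t n ∂sm) = ∫ n : S2, (∫ t in (0 : ℝ)..S, F t n) ∂sm := by
  have := c1_fin
  have hf : Continuous (Function.uncurry (fun (s : ℝ) (n : S2) => F (max s 0) n)) := c1_ext hF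
  have h1 : IntegrableOn (Function.uncurry (fun (s : ℝ) (n : S2) => F (max s 0) n))
      (Icc 0 S ×ˢ (univ : Set S2)) ((volume : Measure ℝ).prod sm) :=
    hf.continuousOn.integrableOn_compact (isCompact_Icc.prod isCompact_univ)
  have h2 := h1.mono_set (prod_mono Ioc_subset_Icc_self (Subset.refl (univ : Set S2)))
  rw [IntegrableOn, ← Measure.prod_restrict, Measure.restrict_univ] at h2
  have e1 : ∫ t in (0 : ℝ)..S, (∫ n : S2, F t n ∂sm) =
      ∫ t in Ioc (0 : ℝ) S, (∫ n : S2, F (max t 0) n ∂sm) := by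
    rw [intervalIntegral.integral_of_le hS]
    refine setIntegral_congr_fun measurableSet_Ioc fun s hs => ?_
    rw [max_eq_left hs.1.le]
  have e2 : ∫ n : S2, (∫ t in (0 : ℝ)..S, F t n) ∂sm =
      ∫ n : S2, (∫ t in Ioc (0 : ℝ) S, F (max t 0) n) ∂sm := by
    refine integral_congr_ae (Eventually.of_forall fun n => ?_)
    simp only
    rw [intervalIntegral.integral_of_le hS]
    refine setIntegral_congr_fun measurableSet_Ioc fun s hs => ?_
    rw [max_eq_left hs.1.le]
  rw [e1, e2]
  exact integral_integral_swap h2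

/-- Continuous functions on the sphere are integrable. -/
theorem integrable_sm {F : S2 → ℝ} (hF : Continuous F) : Integrable F sm := by
  have := c1_fin
  exact hF.integrable_of_hasCompactSupport (HasCompactSupport.of_compactSpace _)

theorem cont_at {F : ℝ → S2 → ℝ} (hF : ContinuousOn (fun p : ℝ × S2 => F p.1 p.2) (Ici 0 ×ˢ univ)) {s : ℝ} (hs : 0 ≤ s) :
    Continuous (F s) := by
  have h1 : Continuous (fun n : S2 => ((s, n) : ℝ × S2)) := continuous_const.prodMk continuous_id
  exact hF.comp_continuous h1 fun n => ⟨mem_Ici.mpr hs, mem_univ _⟩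

theorem cont_sph {F : ℝ → S2 → ℝ} (hF : ContinuousOn (fun p : ℝ × S2 => F p.1 p.2) (Ici 0 ×ˢ univ)) :
    ContinuousOn (fun s => ∫ n : S2, F s n ∂sm) (Ici 0) := by
  have := c1_fin
  have h2 := continuous_parametric_integral_of_continuous (μ := sm)
    (f := fun (t : ℝ) (n : S2) => F (max t 0) n) (c1_ext hF) (s := Set.univ) isCompact_univ
  rw [Measure.restrict_univ] at h2
  refine h2.continuousOn.congr fun s hs => ?_
  simp only
  rw [max_eq_left (mem_Ici.mp hs)]

end NullPen
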