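import Mathlib

set_option autoImplicit false

/-!
One generator of a shear-free null hypersurface: `w s` is the conformal factor of the metric (`g s = w^2` round metric), `dw` its
derivative. Definitions for the proof.
-/

open MeasureTheory Filter Topology Set

namespace NullPen

/-- A positive function on `[0,∞)` with derivative `dw >= 1`. -/
structure Ray (w dw : ℝ → ℝ) : Prop where
  cont : ContinuousOn w (Ici 0)
  dcont : ContinuousOn dw (Ici 0)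
  der : ∀ s, 0 < s → HasDerivAt w (dw s) s
  pos : ∀ s, 0 ≤ s → 0 < w s
  one : ∀ s, 0 ≤ s → 1 ≤ dw s

/-- `q = 1 - s / w`. -/
noncomputable def qq (w : ℝ → ℝ) (s : ℝ) : ℝ := 1 - s / w s

/-- `Y = ∫_0^s q^2`. -/
noncomputable def YY (w : ℝ → ℝ) (s : ℝ) : ℝ := ∫ t in (0 : ℝ)..s, qq w t ^ 2

/-- `H = w 0 + ∫_0^s q^2 (w' - 1)`. -/
noncomputable def HH (w dw : ℝ → ℝ) (s : ℝ) : ℝ := w 0 + ∫ t in (0 : ℝ)..s, qq w t ^ 2 * (dw t - 1)

/-- `Q = ∫_0^s (q^4 + 4 (w'/w) Y q^2)`. -/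
noncomputable def QQ (w dw : ℝ → ℝ) (s : ℝ) : ℝ :=
  ∫ t in (0 : ℝ)..s, (qq w t ^ 4 + 4 * (dw t / w t) * YY w t * qq w t ^ 2)

/-- `w - 2 s log w - s^2 / w`. -/
noncomputable def ph (w : ℝ → ℝ) (s : ℝ) : ℝ := w s - 2 * s * Real.log (w s) - s ^ 2 / w s

/-- `log w + 2 s / w - s^2 / (2 w^2)`. -/
noncomputable def ka (w : ℝ → ℝ) (s : ℝ) : ℝ := Real.log (w s) + 2 * s / w s - s ^ 2 / (2 * w s ^ 2)

/-- `((sqrt (3 X) - 1)_+)^2`. -/
noncomputable def ee (X : ℝ) : ℝ := (max (Real.sqrt (3 * X) - 1) 0) ^ 2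

end NullPen
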