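import Pool.Agent.Lib.H74P.Stmt
import Pool.Agent.Lib.H74P.Ray
import Pool.Agent.Lib.NullShell.STD
import Pool.Agent.Lib.H17P.PER

set_option autoImplicit false

/-!
The conformal factor of a shear-free null hypersurface and its derivatives: definitions.
-/

open MeasureTheory Filter Topology Set
open scoped ContDiff

namespace NullPen
namespace MatterData
variable (D : MatterData)

/-- `g s = lam s` times the round metric. -/
noncomputable def lam (s : ℝ) (y : E3) : ℝ := (∑ i, D.g s y i i) / 2

/-- Derivative of `lam` along the generators. -/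
noncomputable def lam' (s : ℝ) (y : E3) : ℝ := deriv (fun t => D.lam t y) s

/-- `om^2 = lam`. -/
noncomputable def om (y : E3) (s : ℝ) : ℝ := Real.sqrt (D.lam s y)

/-- Derivative of `om` along the generators. -/
noncomputable def dom (y : E3) (s : ℝ) : ℝ := D.lam' s y / (2 * D.om y s)

/-- Derivative of `om` in the direction `v`. -/
noncomputable def Dv (y : E3) (v : Fin 3 → ℝ) (s : ℝ) : ℝ := (∑ k, v k * pd k (D.lam s) y) / (2 * D.om y s)

/-- Derivative of `Dv` along the generators. -/
noncomputable def dDv (y : E3) (v : Fin 3 → ℝ) (s : ℝ) : ℝ :=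
  (∑ k, v k * pd k (D.lam' s) y) / (2 * D.om y s) - D.dom y s * D.Dv y v s / D.om y s

end MatterData

/-- Gradient of a function on the sphere. -/
noncomputable def gr (f : NShell.SFun) (n : S2) (k : Fin 3) : ℝ :=
  ∑ i, (NShell.stdSA.L i f).1 n * NShell.rotv i (n : E3) k

/-- `1 - lap f - |grad f|^2` at a point. -/
noncomputable def rr (f : NShell.SFun) (n : S2) : ℝ := (NShell.stdSA.rf f).1 n

/-- `|grad f|^2` at a point. -/
noncomputable def XX (f : NShell.SFun) (n : S2) : ℝ := (NShell.stdSA.gam f f).1 n

/-- `lap f` at a point. -/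
noncomputable def la (f : NShell.SFun) (n : S2) : ℝ := (NShell.stdSA.lap f).1 n

/-- `E = int theta dA`. -/
noncomputable def Th (D : MatterData) (s : ℝ) : ℝ := ∫ n : S2, D.θ s n * D.dA s n ∂sm

end NullPen
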