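import Pool.Agent.Lib.H74P.C2

set_option autoImplicit false

/-!
Chunk EN. Energy. `area_eq`: `dA_eq`. `energy`: `Th` is continuous on `[0,∞)` (`cont_sph`, `dA = lam`), by `expansion`, `tor_eq`, `dA_eq` it has for `s > 0` the derivative
`8 pi - ∫ (2 Σ ζ_i^2 + ρ lam)`, and `Th 0 <= 0` (trapped, `lam > 0`); so `- Th S >= - 8 pi S + ∫_0^S ∫ (2 Σ ζ_i^2 + ρ lam)`. Cauchy-Schwarz:
`(∫ om)^2 <= 4 pi ∫ om^2 = 4 pi area` (`sm univ = 4 pi`: `PenroseSph.sm_univ`), so `sqrt (16 pi area) >= 2 ∫ om = 2 ∫ (om - S) + 8 pi S`.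
-/

open MeasureTheory Filter Topology Set
open scoped ContDiff

namespace NullPen
namespace MatterData
variable {D : MatterData}

theorem area_eq (hD : D.Admissible) {s : ℝ} (hs : 0 ≤ s) : D.area s = ∫ n : S2, D.om n s ^ 2 ∂sm := by
  show ∫ n : S2, D.dA s n ∂sm = _
  refine integral_congr_ae (Eventually.of_forall fun n => ?_)
  show D.dA s n = D.om n s ^ 2
  rw [dA_eq hD n hs, om_sq hD.null n hs]

/-- the integrand of the energy inequality -/
theorem EN_cont (hD : D.Admissible) : ContinuousOn (fun p : ℝ × S2 =>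
    2 * (∑ i, D.ζ p.1 p.2 i ^ 2) + D.ρ p.1 p.2 * D.om p.2 p.1 ^ 2) (Ici 0 ×ˢ univ) := by
  have hc : Continuous (fun p : ℝ × S2 => (p.1, (p.2 : E3))) :=
    continuous_fst.prodMk (continuous_subtype_val.comp continuous_snd)
  have h1 : ∀ i, Continuous (fun p : ℝ × S2 => D.ζ p.1 p.2 i) := fun i =>
    (hD.null.smooth_ζ i).continuous.comp hc
  have h2 : Continuous (fun p : ℝ × S2 => D.ρ p.1 p.2) := hD.null.cont_ρ.comp hc
  have h3 : Continuous (fun p : ℝ × S2 => 2 * (∑ i, D.ζ p.1 p.2 i ^ 2)) :=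
    continuous_const.mul (continuous_finsetSum _ fun i _ => (h1 i).pow 2)
  exact h3.continuousOn.add (h2.continuousOn.mul ((c_om hD.null).pow 2))

theorem EN_Th_cont (hD : D.Admissible) : ContinuousOn (Th D) (Ici 0) := by
  have hc : Continuous (fun p : ℝ × S2 => (p.1, (p.2 : E3))) :=
    continuous_fst.prodMk (continuous_subtype_val.comp continuous_snd)
  have h1 : ContinuousOn (fun p : ℝ × S2 => D.θ p.1 p.2 * D.lam p.1 p.2) (Ici 0 ×ˢ univ) :=
    ((hD.null.cont_θ.comp hc).mul ((lam_smooth hD.null).continuous.comp hc)).continuousOn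
  refine (cont_sph (F := fun s n => D.θ s n * D.lam s n) h1).congr ?_
  intro s hs
  show ∫ n : S2, D.θ s n * D.dA s n ∂sm = _
  refine integral_congr_ae (Eventually.of_forall fun n => ?_)
  show D.θ s n * D.dA s n = D.θ s n * D.lam s n
  rw [dA_eq hD n hs]

theorem EN_Th_der (hD : D.Admissible) {s : ℝ} (hs : 0 < s) :
    HasDerivAt (Th D) (8 * Real.pi -
      ∫ n : S2, (2 * (∑ i, D.ζ s n i ^ 2) + D.ρ s n * D.om n s ^ 2) ∂sm) s := by
  have h1 := hD.null.expansion s hs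
  have hc : Continuous (fun n : S2 => (s, (n : E3))) :=
    continuous_const.prodMk continuous_subtype_val
  have e1 : ∫ n : S2, D.torSq s n * D.dA s n ∂sm = ∫ n : S2, (∑ i, D.ζ s n i ^ 2) ∂sm :=
    integral_congr_ae (Eventually.of_forall fun n => tor_eq hD n hs.le)
  have e2 : ∫ n : S2, D.ρ s n * D.dA s n ∂sm = ∫ n : S2, D.ρ s n * D.om n s ^ 2 ∂sm := by
    refine integral_congr_ae (Eventually.of_forall fun n => ?_)
    show D.ρ s n * D.dA s n = D.ρ s n * D.om n s ^ 2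
    rw [dA_eq hD n hs.le, om_sq hD.null n hs.le]
  have i1 : Integrable (fun n : S2 => 2 * (∑ i, D.ζ s n i ^ 2)) sm := by
    refine integrable_sm (continuous_const.mul (continuous_finsetSum _ fun i _ => ?_))
    exact ((hD.null.smooth_ζ i).continuous.comp hc).pow 2
  have i2 : Integrable (fun n : S2 => D.ρ s n * D.om n s ^ 2) sm := by
    refine integrable_sm ((hD.null.cont_ρ.comp hc).mul (Continuous.pow ?_ 2))
    exact cont_at (F := fun s n => D.om n s) (c_om hD.null) hs.le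
  rw [e1, e2] at h1
  rw [integral_add i1 i2, integral_const_mul]
  refine h1.congr_deriv ?_
  ring

theorem EN_Th_eq (hD : D.Admissible) {S : ℝ} (hS : 0 ≤ S) :
    Th D S = Th D 0 + 8 * Real.pi * S -
      ∫ s in (0 : ℝ)..S, (∫ n : S2, (2 * (∑ i, D.ζ s n i ^ 2) + D.ρ s n * D.om n s ^ 2) ∂sm) := by
  have hK := cont_sph (F := fun s n => 2 * (∑ i, D.ζ s n i ^ 2) + D.ρ s n * D.om n s ^ 2)
    (EN_cont hD)
  have hI := g1_int_cont hK
  have h1 := const_of_der (F := fun S => Th D S - 8 * Real.pi * S +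
    ∫ s in (0 : ℝ)..S, (∫ n : S2, (2 * (∑ i, D.ζ s n i ^ 2) + D.ρ s n * D.om n s ^ 2) ∂sm))
    (((EN_Th_cont hD).sub (continuousOn_const.mul continuousOn_id)).add hI) ?_ hS
  · simp only [mul_zero, sub_zero, intervalIntegral.integral_same, add_zero] at h1
    linarith
  · intro s hs
    have h2 := ((EN_Th_der hD hs).sub ((hasDerivAt_id s).const_mul (8 * Real.pi))).add
      (g1_int_der hK hs)
    refine h2.congr_deriv ?_
    ring

theorem EN_trapped (hD : D.Admissible) : Th D 0 ≤ 0 := by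
  refine integral_nonpos fun n => ?_
  show D.θ 0 n * D.dA 0 n ≤ 0
  exact mul_nonpos_of_nonpos_of_nonneg (hD.trapped n) (Real.sqrt_nonneg _)

theorem EN_fin : IsFiniteMeasure sm := by
  unfold sm
  infer_instance

/-- Cauchy-Schwarz -/
theorem EN_cs {F : S2 → ℝ} (hF : Continuous F) :
    (∫ n : S2, F n ∂sm) ^ 2 ≤ 4 * Real.pi * ∫ n : S2, F n ^ 2 ∂sm := by
  have := EN_fin
  have hsm : sm.real Set.univ = 4 * Real.pi := Pool.Agent.Lib.PenroseSph.sm_univ
  have hpi := Real.pi_pos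
  obtain ⟨c, hc⟩ : ∃ c, c = (∫ n : S2, F n ∂sm) / (4 * Real.pi) := ⟨_, rfl⟩
  have h0 : 0 ≤ ∫ n : S2, (F n - c) ^ 2 ∂sm := integral_nonneg fun n => sq_nonneg _
  have h1 : ∫ n : S2, (F n - c) ^ 2 ∂sm =
      ∫ n : S2, F n ^ 2 ∂sm - 2 * c * (∫ n : S2, F n ∂sm) + c ^ 2 * (4 * Real.pi) := by
    have e : ∀ n : S2, (F n - c) ^ 2 = F n ^ 2 - 2 * c * F n + c ^ 2 := fun n => by ring
    rw [integral_congr_ae (Eventually.of_forall e)]
    have i1 : Integrable (fun n : S2 => F n ^ 2) sm := integrable_sm (hF.pow 2)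
    have i2 : Integrable (fun n : S2 => 2 * c * F n) sm := integrable_sm (continuous_const.mul hF)
    have i3 : Integrable (fun _ : S2 => c ^ 2) sm := integrable_const _
    rw [integral_add (f := fun n : S2 => F n ^ 2 - 2 * c * F n) (i1.sub i2) i3, integral_sub i1 i2, integral_const_mul, integral_const, hsm,
      smul_eq_mul]
    ring
  rw [h1] at h0
  have h2 : (∫ n : S2, F n ∂sm) = c * (4 * Real.pi) := by
    rw [hc]
    field_simp
  rw [h2] at h0 ⊢
  nlinarith

theorem energy (hD : D.Admissible) {S : ℝ} (hS : 0 ≤ S) :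
    2 * (∫ n : S2, (D.om n S - S) ∂sm) + ∫ s in (0 : ℝ)..S, (∫ n : S2, (2 * (∑ i, D.ζ s n i ^ 2) + D.ρ s n * D.om n s ^ 2) ∂sm)
      ≤ Real.sqrt (16 * Real.pi * D.area S) - Th D S := by
  have := EN_fin
  have hsm : sm.real Set.univ = 4 * Real.pi := Pool.Agent.Lib.PenroseSph.sm_univ
  have hom : Continuous (fun n : S2 => D.om n S) :=
    cont_at (F := fun s n => D.om n s) (c_om hD.null) hS
  have h1 := EN_Th_eq hD hS
  have h2 := EN_trapped hD
  have h3 : ∫ n : S2, (D.om n S - S) ∂sm = ∫ n : S2, D.om n S ∂sm - 4 * Real.pi * S := by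
    rw [integral_sub (integrable_sm hom) (integrable_const _), integral_const, hsm, smul_eq_mul]
  have h4 := EN_cs hom
  have h5 : 2 * ∫ n : S2, D.om n S ∂sm ≤ Real.sqrt (16 * Real.pi * D.area S) := by
    refine Real.le_sqrt_of_sq_le ?_
    rw [area_eq hD hS]
    nlinarith
  rw [h3]
  linarith

end MatterData
end NullPen
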