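import Pool.Agent.Lib.H74P.T1

set_option autoImplicit false

/-!
Chunk T1B. The torsion equation at a point. The smooth field `U_i(y) = Σ_k proj_ik(y) (lam ∂_s(ζ_k lam) - (1/2)(lam pd k lam' - lam' pd k lam) - lam^2 j_k)` is
tangential on the sphere (there `Σ_k proj_ik x_k = x_i` for the tangential parts) and by `tor_int` `∫ (1/lam) Σ U_i V_i = 0` for all smooth tangential `V`; take `V = U`; `lam > 0`, continuity, so
`U = 0` on the sphere (`sm` is positive on open sets; or see how H17P/M3 does it); contract with `v`, `Σ_i U_i v_i = lam (∂_s(ζ_v lam) - ...)` for tangential `v`.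
-/

open MeasureTheory Filter Topology Set
open scoped ContDiff

namespace NullPen

theorem t1b_open : Measure.IsOpenPosMeasure sm := by
  change Measure.IsOpenPosMeasure ((volume : Measure E3).toSphere)
  infer_instance

namespace MatterData
variable {D : MatterData}

/-- The field. -/
noncomputable def t1b_X (D : MatterData) (s : ℝ) (y : E3) (k : Fin 3) : ℝ :=
  D.lam s y * deriv (fun t => D.ζ t y k * D.lam t y) s - (1 / 2 : ℝ) * (D.lam s y * pd k (D.lam' s) y
    - D.lam' s y * pd k (D.lam s) y) - D.lam s y ^ 2 * D.j s y k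

theorem t1b_Xs (hD : D.IsNull) (s : ℝ) (k : Fin 3) : ContDiff ℝ ∞ (fun y => t1b_X D s y k) :=
  (((t0_lam hD s).mul (t1_zsm hD k s)).sub (contDiff_const.mul (((t0_lam hD s).mul (t1_pdc (t0_lam' hD s) k)).sub
    ((t0_lam' hD s).mul (t1_pdc (t0_lam hD s) k))))).sub (((t0_lam hD s).pow 2).mul (t1_jsm hD k s))

theorem t1b_zero (hD : D.Admissible) {s : ℝ} (hs : 0 < s) (n : S2) (i : Fin 3) :
    ∑ k, proj n i k * t1b_X D s n k = 0 := by
  haveI := t1_fin
  haveI := t1b_open
  have hN := hD.null
  set U : E3 → Fin 3 → ℝ := fun y i => ∑ k, proj y i k * t1b_X D s y k with hU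
  have hUs : ∀ i, ContDiff ℝ ∞ (fun y => U y i) := fun i =>
    ContDiff.sum fun k _ => (t0_proj i k).mul (t1b_Xs hN s k)
  have hUt : ∀ n : S2, ∑ i, (n : E3) i * U n i = 0 := by
    intro n
    have h1 : ∑ i, (n : E3) i * U n i = ∑ k, (∑ i, proj n k i * (n : E3) i) * t1b_X D s n k := by
      simp only [hU, Finset.mul_sum, Finset.sum_mul]
      rw [Finset.sum_comm]
      refine Finset.sum_congr rfl fun k _ => Finset.sum_congr rfl fun i _ => ?_
      rw [t0_symm (n : E3) i k]
      ring
    rw [h1]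
    simp only [t0_Pn, zero_mul, Finset.sum_const_zero]
  have h2 := tor_int hD hUs hUt hs
  have c1 : Continuous fun n : S2 => ∑ k, U n k * pd k (D.lam' s) n :=
    continuous_finset_sum _ fun k _ => (t1_res (hUs k).continuous).mul (t1_res (t1_pdc (t0_lam' hN s) k).continuous)
  have c2 : Continuous fun n : S2 => ∑ k, U n k * pd k (D.lam s) n :=
    continuous_finset_sum _ fun k _ => (t1_res (hUs k).continuous).mul (t1_res (t1_pdc (t0_lam hN s) k).continuous)
  have c3 : Continuous fun n : S2 => ∑ i, D.j s n i * U n i :=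
    continuous_finset_sum _ fun k _ => (t1_res (t1_jsm hN k s).continuous).mul (t1_res (hUs k).continuous)
  have cl : Continuous fun n : S2 => D.lam s n := t1_res (t0_lam hN s).continuous
  have cl' : Continuous fun n : S2 => D.lam' s n := t1_res (t0_lam' hN s).continuous
  have c5 : Continuous fun n : S2 => D.lam' s n / (2 * D.lam s n) :=
    cl'.div (continuous_const.mul cl) (fun n => mul_ne_zero two_ne_zero (lam_pos hN n hs.le).ne')
  have c6 : Continuous fun n : S2 => ∑ i, deriv (fun t => D.ζ t n i * D.lam t n) s * U n i :=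
    continuous_finset_sum _ fun k _ => (t1_res (t1_zsm hN k s).continuous).mul (t1_res (hUs k).continuous)
  have h3 : ∫ n : S2, ((D.lam s n)⁻¹ * ∑ i, U n i ^ 2) ∂sm = 0 := by
    have i1 : Integrable (fun n : S2 => (1 / 2 : ℝ) * (∑ k, U n k * pd k (D.lam' s) n)
        - D.lam' s n / (2 * D.lam s n) * (∑ k, U n k * pd k (D.lam s) n)
          + D.lam s n * ∑ i, D.j s n i * U n i) sm :=
      t1_int (((continuous_const.mul c1).sub (c5.mul c2)).add (cl.mul c3))
    rw [← sub_eq_zero, ← integral_sub (t1_int c6) i1] at h2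
    rw [← h2]
    refine integral_congr_ae (Eventually.of_forall fun m => ?_)
    simp only
    have hl := (lam_pos hN m hs.le).ne'
    have h4 : ∑ i, U m i ^ 2 = ∑ k, t1b_X D s m k * U m k := by
      have h5 : ∀ k, ∑ i, proj m k i * U m i = U m k := fun k => t0_Pv m (hUt m) k
      calc ∑ i, U m i ^ 2 = ∑ i, U m i * ∑ k, proj m i k * t1b_X D s m k := by
            refine Finset.sum_congr rfl fun i _ => ?_
            rw [pow_two]
        _ = ∑ k, t1b_X D s m k * ∑ i, proj m k i * U m i := by
            simp only [Finset.mul_sum]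
            rw [Finset.sum_comm]
            refine Finset.sum_congr rfl fun k _ => Finset.sum_congr rfl fun i _ => ?_
            rw [t0_symm (m : E3) i k]
            ring
        _ = _ := by simp only [h5]
    rw [h4]
    simp only [t1b_X, Fin.sum_univ_three]
    field_simp
    ring
  have cU : Continuous fun n : S2 => (D.lam s n)⁻¹ * ∑ i, U n i ^ 2 :=
    (cl.inv₀ fun n => (lam_pos hN n hs.le).ne').mul
      (continuous_finset_sum _ fun i _ => (t1_res (hUs i).continuous).pow 2)
  have hnn : ∀ n : S2, 0 ≤ (D.lam s n)⁻¹ * ∑ i, U n i ^ 2 := fun n =>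
    mul_nonneg (inv_nonneg.2 (lam_pos hN n hs.le).le) (Finset.sum_nonneg fun i _ => sq_nonneg _)
  have h6 : (fun n : S2 => (D.lam s n)⁻¹ * ∑ i, U n i ^ 2) =ᵐ[sm] 0 :=
    (integral_eq_zero_iff_of_nonneg hnn (t1_int cU)).1 h3
  have h7 : (fun n : S2 => (D.lam s n)⁻¹ * ∑ i, U n i ^ 2) = 0 := (Continuous.ae_eq_iff_eq sm cU continuous_zero).1 h6
  have h8 : (D.lam s n)⁻¹ * ∑ i, U n i ^ 2 = 0 := congrFun h7 n
  have h9 : ∑ i, U n i ^ 2 = 0 := by
    rcases mul_eq_zero.1 h8 with h | h
    · exact absurd h (inv_ne_zero (lam_pos hN n hs.le).ne')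
    · exact h
  have h10 := (Finset.sum_eq_zero_iff_of_nonneg (fun i _ => sq_nonneg _)).1 h9 i (Finset.mem_univ i)
  exact pow_eq_zero_iff (two_ne_zero) |>.1 h10

theorem tor_pt (hD : D.Admissible) (n : S2) {v : Fin 3 → ℝ} (hv : ∑ k, (n : E3) k * v k = 0) {s : ℝ} (hs : 0 < s) :
    HasDerivAt (fun t => (∑ i, D.ζ t n i * v i) * D.lam t n)
      ((1 / 2 : ℝ) * (∑ k, v k * pd k (D.lam' s) n) - D.lam' s n / (2 * D.lam s n) * (∑ k, v k * pd k (D.lam s) n)
        + D.lam s n * ∑ i, D.j s n i * v i) s := by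
  have hN := hD.null
  have hl := (lam_pos hN n hs.le).ne'
  have h1 : HasDerivAt (fun t => ∑ i, (D.ζ t n i * D.lam t n) * v i)
      (∑ i, deriv (fun t => D.ζ t n i * D.lam t n) s * v i) s :=
    HasDerivAt.fun_sum fun i _ => (t1_zder hN i s n).mul_const _
  have h2 : (fun t => (∑ i, D.ζ t n i * v i) * D.lam t n) = fun t => ∑ i, (D.ζ t n i * D.lam t n) * v i := by
    funext t
    rw [Finset.sum_mul]
    exact Finset.sum_congr rfl fun i _ => by ring
  rw [h2]
  refine h1.congr_deriv ?_
  have h3 : ∑ k, t1b_X D s n k * v k = 0 := by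
    calc ∑ k, t1b_X D s n k * v k = ∑ k, t1b_X D s n k * ∑ i, proj n k i * v i := by
          refine Finset.sum_congr rfl fun k _ => ?_
          rw [t0_Pv n hv k]
      _ = ∑ i, (∑ k, proj n i k * t1b_X D s n k) * v i := by
          simp only [Finset.mul_sum, Finset.sum_mul]
          rw [Finset.sum_comm]
          refine Finset.sum_congr rfl fun k _ => Finset.sum_congr rfl fun i _ => ?_
          rw [t0_symm (n : E3) i k]
          ring
      _ = 0 := by simp only [t1b_zero hD hs n, zero_mul, Finset.sum_const_zero]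
  have h4 : (∑ i, deriv (fun t => D.ζ t n i * D.lam t n) s * v i) -
      ((1 / 2 : ℝ) * (∑ k, v k * pd k (D.lam' s) n) - D.lam' s n / (2 * D.lam s n) * (∑ k, v k * pd k (D.lam s) n)
        + D.lam s n * ∑ i, D.j s n i * v i) = (D.lam s n)⁻¹ * ∑ k, t1b_X D s n k * v k := by
    simp only [t1b_X, Fin.sum_univ_three]
    field_simp
    ring
  rw [h3, mul_zero] at h4
  linarith

end MatterData
end NullPen
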