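import Pool.Agent.Lib.H74P.L0

set_option autoImplicit false

/-!
Chunk L0B. Small facts. `rr_eq`: definition of `rf` (H17P/K1). `green'`: `SA.green` with the integral `NShell.stdFr.toSM.I F = ∫ F.1 n ∂sm` (by definition; `SM.I0`), `la_zero`: `SA.lap_zero`.
`ee_le`: for `3 X > 1`, `(sqrt (3X) - 1)^2 <= 3 X - 1 <= 3 X`. `sm_univ'`: `PenroseSph.sm_univ`.
-/

open MeasureTheory Filter Topology Set
open scoped ContDiff

namespace NullPen

open NShell

theorem rr_eq (f : SFun) (n : S2) : rr f n = 1 - la f n - XX f n := rfl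

theorem XX_nonneg (f : SFun) (n : S2) : 0 ≤ XX f n := by
  rw [← gr_sq]
  exact Finset.sum_nonneg fun k _ => sq_nonneg _

theorem XX_cont (f : SFun) : Continuous (XX f) := SFun_cont (stdSA.gam f f)

theorem rr_cont (f : SFun) : Continuous (rr f) := SFun_cont (stdSA.rf f)

theorem la_cont (f : SFun) : Continuous (la f) := SFun_cont (stdSA.lap f)

/-- Green's formula. -/
theorem green' (F f : SFun) : ∫ n : S2, (stdSA.gam F f).1 n ∂sm = - ∫ n : S2, F.1 n * la f n ∂sm := by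
  have h := stdSA.green stdFr.toSM.I stdFr.toSM.I0 F f
  have h2 : stdFr.toSM.I (F * stdSA.lap f) = ∫ n : S2, F.1 n * la f n ∂sm := rfl
  have h3 : stdFr.toSM.I (stdSA.gam F f) = ∫ n : S2, (stdSA.gam F f).1 n ∂sm := rfl
  rw [h2, h3] at h
  linarith

theorem la_zero (f : SFun) : ∫ n : S2, la f n ∂sm = 0 :=
  stdSA.lap_zero stdFr.toSM.I stdFr.toSM.I0 f

theorem ee_cont : Continuous ee := by
  unfold ee
  fun_prop

theorem ee_nonneg (X : ℝ) : 0 ≤ ee X := sq_nonneg _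

theorem ee_le {X : ℝ} (hX : 0 ≤ X) : ee X ≤ 3 * X := by
  unfold ee
  have h0 : 0 ≤ Real.sqrt (3 * X) := Real.sqrt_nonneg _
  have h1 : Real.sqrt (3 * X) ^ 2 = 3 * X := Real.sq_sqrt (by linarith)
  have h2 : 0 ≤ max (Real.sqrt (3 * X) - 1) 0 := le_max_right _ _
  have h3 : max (Real.sqrt (3 * X) - 1) 0 ≤ Real.sqrt (3 * X) := max_le (by linarith) h0
  calc _ ≤ Real.sqrt (3 * X) ^ 2 := pow_le_pow_left₀ h2 h3 2
    _ = _ := h1

theorem sm_univ' : sm.real Set.univ = 4 * Real.pi := Pool.Agent.Lib.PenroseSph.sm_univ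

end NullPen
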