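import Pool.Agent.Lib.H17P.Stmt

set_option autoImplicit false

/-!
Null hypersurfaces crossed by matter: induced metric, torsion, expansion, the components of the Einstein tensor along the hypersurface,
the constraint equations, dominant energy condition, shear-free and asymptotically flat hypersurfaces.
-/

open MeasureTheory Filter Topology
open scoped ContDiff

namespace NullPen

/-- Data on a null hypersurface `N = [0,∞) × S2` in a space-time with matter: `NullData` together with the components `G(L, L)` and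
`G(L, X)` of the Einstein tensor (the component `- G(L, k)` is `ρ`). -/
structure MatterData extends NullData where
  /-- component `G(L, L)` of the Einstein tensor -/
  e : ℝ → E3 → ℝ
  /-- components `G(L, X)` of the Einstein tensor, `X` tangent to the surfaces `s = const` -/
  j : ℝ → E3 → Fin 3 → ℝ

namespace MatterData

variable (D : MatterData)

/-- Squared norm of the null second fundamental form. -/
noncomputable def chiSq (s : ℝ) (n : E3) : ℝ :=
  ∑ i, ∑ j, ∑ k, ∑ l, D.gi s n i k * D.gi s n j l * D.chi s n i j * D.chi s n k l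

/-- The data are smooth, `g s` is a Riemannian metric on the sphere, the dominant energy condition holds
(`G(L, L) >= 0`, `ρ = - G(L, k) >= 0` and `|G(L, .)|^2 <= G(L, L) ρ`: the vector `G(L, .)` is causal), and the constraint
equations hold: Raychaudhuri's equation, the torsion equation `ζ' + exL ζ = d exL - div chi + G(L, .)`, tested with the vector fields
`V`, and the integral over the sphere of `θ' + exL θ = 2 K - 2 |ζ|^2 - 2 div ζ - ρ`. -/
structure IsNull : Prop where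
  smooth_g : ∀ i j, ContDiff ℝ ∞ (fun p : ℝ × E3 => D.g p.1 p.2 i j)
  smooth_ζ : ∀ i, ContDiff ℝ ∞ (fun p : ℝ × E3 => D.ζ p.1 p.2 i)
  smooth_j : ∀ i, ContDiff ℝ ∞ (fun p : ℝ × E3 => D.j p.1 p.2 i)
  cont_θ : Continuous (fun p : ℝ × E3 => D.θ p.1 p.2)
  cont_ρ : Continuous (fun p : ℝ × E3 => D.ρ p.1 p.2)
  g_symm : ∀ s, 0 ≤ s → ∀ n : S2, ∀ i j, D.g s n i j = D.g s n j i
  g_tan : ∀ s, 0 ≤ s → ∀ n : S2, ∀ i, ∑ j, D.g s n i j * (n : E3) j = 0
  g_pos : ∀ s, 0 ≤ s → ∀ n : S2, ∀ v : Fin 3 → ℝ, v ≠ 0 → ∑ i, (n : E3) i * v i = 0 →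
    0 < ∑ i, ∑ j, D.g s n i j * v i * v j
  gi_symm : ∀ s, 0 ≤ s → ∀ n : S2, ∀ i j, D.gi s n i j = D.gi s n j i
  gi_tan : ∀ s, 0 ≤ s → ∀ n : S2, ∀ i, ∑ j, D.gi s n i j * (n : E3) j = 0
  gi_inv : ∀ s, 0 ≤ s → ∀ n : S2, ∀ i j, ∑ k, D.g s n i k * D.gi s n k j = proj n i j
  ζ_tan : ∀ s, 0 ≤ s → ∀ n : S2, ∑ i, (n : E3) i * D.ζ s n i = 0
  j_tan : ∀ s, 0 ≤ s → ∀ n : S2, ∑ i, (n : E3) i * D.j s n i = 0
  e_nonneg : ∀ s, 0 ≤ s → ∀ n : S2, 0 ≤ D.e s n
  ρ_nonneg : ∀ s, 0 ≤ s → ∀ n : S2, 0 ≤ D.ρ s n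
  dec : ∀ s, 0 ≤ s → ∀ n : S2, ∑ i, ∑ k, D.gi s n i k * D.j s n i * D.j s n k ≤ D.e s n * D.ρ s n
  ray : ∀ s, 0 < s → ∀ n : S2, HasDerivAt (fun t => D.exL t n) (- D.chiSq s n - D.e s n) s
  torsion : ∀ V : E3 → Fin 3 → ℝ, (∀ i, ContDiff ℝ ∞ (fun y => V y i)) → (∀ n : S2, ∑ i, (n : E3) i * V n i = 0) →
    ∀ s, 0 < s → HasDerivAt (fun t => ∫ n : S2, (∑ i, D.ζ t n i * V n i) * D.dA t n ∂sm)
      (∫ n : S2, (D.mom s V n + ∑ i, D.j s n i * V n i) * D.dA s n ∂sm) s
  expansion : ∀ s, 0 < s → HasDerivAt (fun t => ∫ n : S2, D.θ t n * D.dA t n ∂sm)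
    (8 * Real.pi - 2 * (∫ n : S2, D.torSq s n * D.dA s n ∂sm) - ∫ n : S2, D.ρ s n * D.dA s n ∂sm) s

/-- `N` is shear-free: the null second fundamental form is a multiple of the metric. -/
def ShearFree : Prop := ∀ s, 0 < s → ∀ n : S2, ∀ i j, D.chi s n i j = D.exL s n / 2 * D.g s n i j

/-- `N` is asymptotically flat, for the asymptotic observer who normalises `L`: `g s` is `s ^ 2` times the metric of the unit
sphere up to terms `O(s)`, and so are its first derivatives along the sphere. -/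
def AsympFlat : Prop := ∃ C : ℝ, ∀ s, 1 ≤ s → ∀ n : S2, ∀ i j,
  |D.g s n i j - s ^ 2 * proj n i j| ≤ C * s ∧ ∀ v : Fin 3 → ℝ, ∑ k, (n : E3) k * v k = 0 → (∑ k, v k ^ 2) = 1 →
    |∑ k, v k * pd k (fun y => D.g s y i j - s ^ 2 * proj y i j) n| ≤ C * s

/-- `N` is a shear-free regular null hypersurface, crossed by arbitrary matter, which starts at a trapped or marginally
trapped surface and extends to null infinity. -/
structure Admissible : Prop where
  null : D.IsNull
  free : D.ShearFree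
  flat : D.AsympFlat
  trapped : ∀ n : S2, D.θ 0 n ≤ 0

end MatterData

end NullPen
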