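import Pool.Agent.Lib.H74P.T0
import Pool.Agent.Lib.H17P.M2

set_option autoImplicit false

/-!
Chunk T1. The torsion equation at a point. `int_div'`: divergence theorem on the sphere (as `H17P/M2.int_div`: with `v_i = <V, r_i>`, `r_i = NShell.rotv i`, the divergence is
`Σ_i stdL i (v_i)`, and `NShell.std_izero`). `tor_int`: for `s > 0` and every smooth tangential `V`,
`∫ Σ_i (∂_s(ζ_i lam)) V_i = ∫ ((1/2) V(lam') - (lam'/(2 lam)) V(lam) + lam Σ j_i V_i)`: left side = derivative of `∫ Σ ζ_i V_i dA` (`dA_eq`, differentiation under the integral,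
everything is smooth and `S2` is compact), right side by `torsion`, `mom_eq` and the divergence theorem for the field `(1/2) lam' V` (`∫ (V(lam') + lam' div V) = 0`).
`lam_pd`: `∂_s pd k lam = pd k lam'` (symmetry of second derivatives of a smooth function of `(s,y)`).
-/

open MeasureTheory Filter Topology Set
open scoped ContDiff

namespace NullPen

theorem int_div' {V : E3 → Fin 3 → ℝ} (hV : ∀ i, ContDiff ℝ ∞ (fun y => V y i))
    (hVt : ∀ n : S2, ∑ i, (n : E3) i * V n i = 0) :
    ∫ n : S2, (∑ i, ∑ j, proj n i j * pd i (fun y => V y j) n) ∂sm = 0 :=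
  int_div hV hVt

theorem t1_fin : IsFiniteMeasure sm := by
  change IsFiniteMeasure ((volume : Measure E3).toSphere)
  infer_instance

theorem t1_int {f : S2 → ℝ} (hf : Continuous f) : Integrable f sm := by
  haveI := t1_fin
  exact hf.integrable_of_hasCompactSupport (HasCompactSupport.of_compactSpace _)

theorem t1_res {f : E3 → ℝ} (hf : Continuous f) : Continuous (fun n : S2 => f n) := hf.comp continuous_subtype_val

theorem t1_pd {L : ℝ × E3 → ℝ} (hL : ContDiff ℝ ∞ L) (t : ℝ) (y : E3) (k : Fin 3) :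
    pd k (fun z => L (t, z)) y = fderiv ℝ L (t, y) (0, EuclideanSpace.single k 1) := by
  unfold pd
  have h1 : HasDerivAt (fun r : ℝ => y + r • EuclideanSpace.single k (1 : ℝ)) (EuclideanSpace.single k (1 : ℝ)) 0 := by
    have h := ((hasDerivAt_id (0 : ℝ)).smul_const (EuclideanSpace.single k (1 : ℝ) : E3)).const_add y
    simpa using h
  have h2 : HasDerivAt (fun r : ℝ => ((t, y + r • EuclideanSpace.single k (1 : ℝ)) : ℝ × E3))
      (0, EuclideanSpace.single k (1 : ℝ)) 0 := (hasDerivAt_const (0 : ℝ) t).prodMk h1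
  have h3 : HasFDerivAt L (fderiv ℝ L (t, y)) (t, y + (0 : ℝ) • EuclideanSpace.single k (1 : ℝ)) := by
    have := (hL.differentiable (by simp) (t, y)).hasFDerivAt
    simpa using this
  exact (h3.comp_hasDerivAt (0 : ℝ) h2).deriv

theorem t1_dt {L : ℝ × E3 → ℝ} (hL : ContDiff ℝ ∞ L) (s : ℝ) (y : E3) :
    HasDerivAt (fun t => L (t, y)) (fderiv ℝ L (s, y) (1, 0)) s := by
  have h2 : HasDerivAt (fun r : ℝ => ((r, y) : ℝ × E3)) (1, 0) s :=
    (hasDerivAt_id s).prodMk (hasDerivAt_const s y)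
  exact (hL.differentiable (by simp) (s, y)).hasFDerivAt.comp_hasDerivAt s h2

theorem t1_smooth {L : ℝ × E3 → ℝ} (hL : ContDiff ℝ ∞ L) (v : ℝ × E3) :
    ContDiff ℝ ∞ (fun p => fderiv ℝ L p v) :=
  (hL.fderiv_right (m := ∞) (by simp)).clm_apply contDiff_const

theorem t1_sym {L : ℝ × E3 → ℝ} (hL : ContDiff ℝ ∞ L) (s : ℝ) (y : E3) (k : Fin 3) :
    HasDerivAt (fun t => pd k (fun z => L (t, z)) y) (pd k (fun z => deriv (fun t => L (t, z)) s) y) s := by
  have h1 : (fun t => pd k (fun z => L (t, z)) y) =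
      fun t => fderiv ℝ L (t, y) (0, EuclideanSpace.single k 1) := by
    funext t
    exact t1_pd hL t y k
  have h2 : (fun z => deriv (fun t => L (t, z)) s) = fun z => (fun p => fderiv ℝ L p (1, 0)) (s, z) := by
    funext z
    exact (t1_dt hL s z).deriv
  rw [h1, h2, t1_pd (t1_smooth hL (1, 0)) s y k]
  have h3 := t1_dt (t1_smooth hL (0, EuclideanSpace.single k 1)) s y
  have h4 : fderiv ℝ (fun p => fderiv ℝ L p (0, EuclideanSpace.single k 1)) (s, y) (1, 0) =
      fderiv ℝ (fun p => fderiv ℝ L p (1, 0)) (s, y) (0, EuclideanSpace.single k 1) := by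
    have hf : ContDiff ℝ ∞ (fderiv ℝ L) := hL.fderiv_right (m := ∞) (by simp)
    have hd : DifferentiableAt ℝ (fderiv ℝ L) (s, y) := (hf.differentiable (by simp)) (s, y)
    have e : ∀ v w : ℝ × E3, fderiv ℝ (fun p => fderiv ℝ L p v) (s, y) w = fderiv ℝ (fderiv ℝ L) (s, y) w v := by
      intro v w
      rw [fderiv_clm_apply hd (differentiableAt_const v)]
      simp
    rw [e, e]
    have h2 : (2 : WithTop ℕ∞) ≤ ∞ := WithTop.coe_le_coe.2 le_top
    have h : IsSymmSndFDerivAt ℝ L (s, y) := hL.contDiffAt.isSymmSndFDerivAt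
      (by rw [minSmoothness_of_isRCLikeNormedField]; exact h2)
    exact h _ _
  rw [← h4]
  exact h3

/-- Differentiation under the integral over the sphere. -/
theorem t1_param {F : ℝ × E3 → ℝ} (hF : ContDiff ℝ ∞ F) (s : ℝ) :
    HasDerivAt (fun t => ∫ n : S2, F (t, n) ∂sm) (∫ n : S2, fderiv ℝ F (s, (n : E3)) (1, 0) ∂sm) s := by
  haveI := t1_fin
  have hc : ∀ t : ℝ, Continuous (fun n : S2 => F (t, (n : E3))) := fun t =>
    hF.continuous.comp (continuous_const.prodMk continuous_subtype_val)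
  have hG : Continuous (fun p : ℝ × S2 => fderiv ℝ F (p.1, (p.2 : E3)) (1, 0)) :=
    (t1_smooth hF (1, 0)).continuous.comp (continuous_fst.prodMk (continuous_subtype_val.comp continuous_snd))
  have hG' : ∀ t : ℝ, Continuous (fun n : S2 => fderiv ℝ F (t, (n : E3)) (1, 0)) := fun t =>
    hG.comp (continuous_const.prodMk continuous_id)
  have hK : IsCompact ((Icc (s - 1) (s + 1) : Set ℝ) ×ˢ (univ : Set S2)) := isCompact_Icc.prod isCompact_univ
  obtain ⟨C, hC⟩ := hK.exists_bound_of_continuousOn hG.continuousOn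
  have h := hasDerivAt_integral_of_dominated_loc_of_deriv_le (μ := sm) (F := fun t (n : S2) => F (t, (n : E3)))
    (F' := fun t (n : S2) => fderiv ℝ F (t, (n : E3)) (1, 0)) (x₀ := s) (s := Icc (s - 1) (s + 1))
    (bound := fun _ => C) (Icc_mem_nhds (by linarith) (by linarith))
    (Eventually.of_forall fun t => (hc t).aestronglyMeasurable)
    (t1_int (hc s)) (hG' s).aestronglyMeasurable
    (Eventually.of_forall fun n t ht => hC (t, n) ⟨ht, mem_univ _⟩)
    (integrable_const C)
    (Eventually.of_forall fun n t _ => t1_dt hF t n)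
  exact h.2

theorem t1_pdc {f : E3 → ℝ} (hf : ContDiff ℝ ∞ f) (k : Fin 3) : ContDiff ℝ ∞ (pd k f) := by
  have h : pd k f = fun x => fderiv ℝ f x (EuclideanSpace.single k 1) := by
    funext x
    exact pdf (hf.differentiable (by simp) x) k
  rw [h]
  exact (hf.fderiv_right (m := ∞) (by simp)).clm_apply contDiff_const

namespace MatterData
variable {D : MatterData}

theorem lam_pd (hD : D.IsNull) (k : Fin 3) (s : ℝ) (y : E3) :
    HasDerivAt (fun t => pd k (D.lam t) y) (pd k (D.lam' s) y) s :=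
  t1_sym (L := fun p => D.lam p.1 p.2) (lam_smooth hD) s y k

theorem t1_zl (hD : D.IsNull) (i : Fin 3) : ContDiff ℝ ∞ (fun p : ℝ × E3 => D.ζ p.1 p.2 i * D.lam p.1 p.2) :=
  (hD.smooth_ζ i).mul (lam_smooth hD)

theorem t1_zder (hD : D.IsNull) (i : Fin 3) (s : ℝ) (y : E3) :
    HasDerivAt (fun t => D.ζ t y i * D.lam t y) (deriv (fun t => D.ζ t y i * D.lam t y) s) s :=
  (t1_dt (t1_zl hD i) s y).differentiableAt.hasDerivAt

theorem t1_zsm (hD : D.IsNull) (i : Fin 3) (s : ℝ) :
    ContDiff ℝ ∞ (fun y : E3 => deriv (fun t => D.ζ t y i * D.lam t y) s) := by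
  have h : (fun y : E3 => deriv (fun t => D.ζ t y i * D.lam t y) s) =
      fun y => (fun p => fderiv ℝ (fun p : ℝ × E3 => D.ζ p.1 p.2 i * D.lam p.1 p.2) p (1, 0)) (s, y) := by
    funext y
    exact (t1_dt (t1_zl hD i) s y).deriv
  rw [h]
  exact (t1_smooth (t1_zl hD i) (1, 0)).comp (contDiff_const.prodMk contDiff_id)

theorem t1_jsm (hD : D.IsNull) (i : Fin 3) (s : ℝ) : ContDiff ℝ ∞ (fun y : E3 => D.j s y i) :=
  (hD.smooth_j i).comp (contDiff_const.prodMk contDiff_id)

theorem tor_int (hD : D.Admissible) {V : E3 → Fin 3 → ℝ} (hV : ∀ i, ContDiff ℝ ∞ (fun y => V y i))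
    (hVt : ∀ n : S2, ∑ i, (n : E3) i * V n i = 0) {s : ℝ} (hs : 0 < s) :
    ∫ n : S2, (∑ i, deriv (fun t => D.ζ t n i * D.lam t n) s * V n i) ∂sm =
      ∫ n : S2, ((1 / 2 : ℝ) * (∑ k, V n k * pd k (D.lam' s) n) - D.lam' s n / (2 * D.lam s n) * (∑ k, V n k * pd k (D.lam s) n)
        + D.lam s n * ∑ i, D.j s n i * V n i) ∂sm := by
  have hN := hD.null
  -- the derivative of the left side
  have hF : ContDiff ℝ ∞ (fun p : ℝ × E3 => ∑ i, (D.ζ p.1 p.2 i * D.lam p.1 p.2) * V p.2 i) :=
    ContDiff.sum fun i _ => (t1_zl hN i).mul ((hV i).comp contDiff_snd)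
  have h1 := t1_param hF s
  have h2 : ∀ n : S2, fderiv ℝ (fun p : ℝ × E3 => ∑ i, (D.ζ p.1 p.2 i * D.lam p.1 p.2) * V p.2 i) (s, (n : E3)) (1, 0) =
      ∑ i, deriv (fun t => D.ζ t n i * D.lam t n) s * V n i := by
    intro n
    rw [← (t1_dt hF s n).deriv]
    have : HasDerivAt (fun t => ∑ i, (D.ζ t n i * D.lam t n) * V n i)
        (∑ i, deriv (fun t => D.ζ t n i * D.lam t n) s * V n i) s :=
      HasDerivAt.fun_sum fun i _ => (t1_zder hN i s n).mul_const _
    exact this.deriv
  simp only [h2] at h1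
  have h3 := hN.torsion V hV hVt s hs
  have h4 : HasDerivAt (fun t => ∫ n : S2, (∑ i, D.ζ t n i * V n i) * D.dA t n ∂sm)
      (∫ n : S2, (∑ i, deriv (fun t => D.ζ t n i * D.lam t n) s * V n i) ∂sm) s := by
    refine h1.congr_of_eventuallyEq ?_
    filter_upwards [lt_mem_nhds hs] with t ht
    refine integral_congr_ae (Eventually.of_forall fun n => ?_)
    simp only
    rw [dA_eq hD n ht.le, Finset.sum_mul]
    exact Finset.sum_congr rfl fun i _ => by ring
  rw [h4.unique h3]
  -- the divergence theorem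
  have hU : ∀ i, ContDiff ℝ ∞ (fun y => (fun (z : E3) (i : Fin 3) => D.lam' s z * V z i) y i) :=
    fun i => (t0_lam' hN s).mul (hV i)
  have hUt : ∀ n : S2, ∑ i, (n : E3) i * (fun (z : E3) (i : Fin 3) => D.lam' s z * V z i) n i = 0 := by
    intro n
    have h5 := hVt n
    simp only
    calc ∑ i, (n : E3) i * (D.lam' s n * V n i) = D.lam' s n * ∑ i, (n : E3) i * V n i := by
          rw [Finset.mul_sum]
          exact Finset.sum_congr rfl fun i _ => by ring
      _ = 0 := by rw [h5, mul_zero]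
  have h5 := int_div' hU hUt
  have h6 : ∀ n : S2, ∑ i, ∑ j, proj n i j * pd i (fun y => (fun (z : E3) (i : Fin 3) => D.lam' s z * V z i) y j) n =
      D.lam' s n * (∑ i, ∑ j, proj n i j * pd i (fun y => V y j) n) + ∑ k, V n k * pd k (D.lam' s) n := by
    intro n
    have e1 : ∀ i j, pd i (fun y => (fun (z : E3) (i : Fin 3) => D.lam' s z * V z i) y j) n =
        D.lam' s n * pd i (fun y => V y j) n + V n j * pd i (D.lam' s) n := fun i j =>
      t0_mul (t0_diff (t0_lam' hN s) n) (t0_diff (hV j) n) i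
    simp only [e1]
    have e2 : ∑ k, V n k * pd k (D.lam' s) n = ∑ i, ∑ j, proj n i j * (V n j * pd i (D.lam' s) n) := by
      refine Finset.sum_congr rfl fun i _ => ?_
      rw [← t0_Pv n (hVt n) i, Finset.sum_mul]
      exact Finset.sum_congr rfl fun j _ => by ring
    rw [e2, Finset.mul_sum, ← Finset.sum_add_distrib]
    refine Finset.sum_congr rfl fun i _ => ?_
    rw [Finset.mul_sum, ← Finset.sum_add_distrib]
    exact Finset.sum_congr rfl fun j _ => by ring
  simp only [h6] at h5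
  -- comparison
  have h7 : ∀ n : S2, (D.mom s V n + ∑ i, D.j s n i * V n i) * D.dA s n =
      ((1 / 2 : ℝ) * (∑ k, V n k * pd k (D.lam' s) n) - D.lam' s n / (2 * D.lam s n) * (∑ k, V n k * pd k (D.lam s) n)
        + D.lam s n * ∑ i, D.j s n i * V n i) - (1 / 2 : ℝ) *
      (D.lam' s n * (∑ i, ∑ j, proj n i j * pd i (fun y => V y j) n) + ∑ k, V n k * pd k (D.lam' s) n) := by
    intro n
    have hl := (lam_pos hN n hs.le).ne'
    rw [add_mul, mom_eq hD hV hVt hs n, dA_eq hD n hs.le]
    field_simp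
    ring
  simp only [h7]
  have hx : ∀ i j, Continuous fun n : S2 => proj n i j := fun i j => t1_res (t0_proj i j).continuous
  have c1 : Continuous fun n : S2 => ∑ k, V n k * pd k (D.lam' s) n :=
    continuous_finset_sum _ fun k _ => (t1_res (hV k).continuous).mul (t1_res (t1_pdc (t0_lam' hN s) k).continuous)
  have c2 : Continuous fun n : S2 => ∑ k, V n k * pd k (D.lam s) n :=
    continuous_finset_sum _ fun k _ => (t1_res (hV k).continuous).mul (t1_res (t1_pdc (t0_lam hN s) k).continuous)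
  have c3 : Continuous fun n : S2 => ∑ i, D.j s n i * V n i :=
    continuous_finset_sum _ fun k _ => (t1_res (t1_jsm hN k s).continuous).mul (t1_res (hV k).continuous)
  have c4 : Continuous fun n : S2 => ∑ i, ∑ j, proj n i j * pd i (fun y => V y j) n :=
    continuous_finset_sum _ fun i _ => continuous_finset_sum _ fun j _ =>
      (hx i j).mul (t1_res (t1_pdc (hV j) i).continuous)
  have cl : Continuous fun n : S2 => D.lam s n := t1_res (t0_lam hN s).continuous
  have cl' : Continuous fun n : S2 => D.lam' s n := t1_res (t0_lam' hN s).continuous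
  have c5 : Continuous fun n : S2 => D.lam' s n / (2 * D.lam s n) :=
    cl'.div (continuous_const.mul cl) (fun n => mul_ne_zero two_ne_zero (lam_pos hN n hs.le).ne')
  have i1 : Integrable (fun n : S2 => (1 / 2 : ℝ) * (∑ k, V n k * pd k (D.lam' s) n)
      - D.lam' s n / (2 * D.lam s n) * (∑ k, V n k * pd k (D.lam s) n)
        + D.lam s n * ∑ i, D.j s n i * V n i) sm :=
    t1_int (((continuous_const.mul c1).sub (c5.mul c2)).add (cl.mul c3))
  have i2 : Integrable (fun n : S2 => (1 / 2 : ℝ) *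
      (D.lam' s n * (∑ i, ∑ j, proj n i j * pd i (fun y => V y j) n) + ∑ k, V n k * pd k (D.lam' s) n)) sm :=
    (t1_int ((cl'.mul c4).add c1)).const_mul _
  rw [integral_sub i1 i2, integral_const_mul, h5, mul_zero, sub_zero]

end MatterData
end NullPen
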