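import Pool.Agent.Lib.H74P.Ray

set_option autoImplicit false

/-!
Chunk G1. Basic facts along one generator. `w s - s` is nondecreasing on `[0,∞)` (derivative `dw - 1 >= 0` on `(0,∞)`, continuity at `0`), so
`w s - s >= w 0 > 0`; hence `0 < q <= 1` (`q = (w - s)/w`). `q` has the derivative `((1 - q)(dw - 1) - q)/w` for `s > 0`
(`q' = - 1/w + s dw/w^2`, `s/w = 1 - q`). `Y <= q s`: the function `q s - Y` vanishes at `0`, is continuous and has for `s > 0` the derivative
`q + s q' - q^2 = (1 - q)^2 (dw - 1) >= 0`.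
-/

open MeasureTheory Filter Topology Set

namespace NullPen
variable {w dw : ℝ → ℝ}

theorem g1_ext_cont {f : ℝ → ℝ} (hf : ContinuousOn f (Ici 0)) : Continuous (fun t => f (max t 0)) := by
  rw [← continuousOn_univ]
  exact hf.comp (continuous_id.max continuous_const).continuousOn (fun t _ => le_max_right t 0)

theorem g1_ext_eq {f : ℝ → ℝ} {s : ℝ} (hs : 0 ≤ s) :
    ∫ t in (0 : ℝ)..s, f t = ∫ t in (0 : ℝ)..s, f (max t 0) := by
  apply intervalIntegral.integral_congr
  intro t ht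
  rw [uIcc_of_le hs] at ht
  simp only [max_eq_left ht.1]

/-- The primitive of a function continuous on `[0,∞)` is continuous on `[0,∞)`. -/
theorem g1_int_cont {f : ℝ → ℝ} (hf : ContinuousOn f (Ici 0)) :
    ContinuousOn (fun s => ∫ t in (0 : ℝ)..s, f t) (Ici 0) := by
  have h1 : Continuous (fun s => ∫ t in (0 : ℝ)..s, f (max t 0)) :=
    intervalIntegral.continuous_primitive (fun a b => (g1_ext_cont hf).intervalIntegrable a b) 0
  exact h1.continuousOn.congr (fun s hs => g1_ext_eq hs)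

/-- The derivative of the primitive at `s > 0`. -/
theorem g1_int_der {f : ℝ → ℝ} (hf : ContinuousOn f (Ici 0)) {s : ℝ} (hs : 0 < s) :
    HasDerivAt (fun s => ∫ t in (0 : ℝ)..s, f t) (f s) s := by
  have h1 : HasDerivAt (fun s => ∫ t in (0 : ℝ)..s, f (max t 0)) (f (max s 0)) s :=
    ((g1_ext_cont hf).integral_hasStrictDerivAt 0 s).hasDerivAt
  rw [max_eq_left hs.le] at h1
  apply h1.congr_of_eventuallyEq
  filter_upwards [lt_mem_nhds hs] with t ht
  exact g1_ext_eq ht.le

/-- A continuous function on `[0,∞)` with nonnegative derivative on `(0,∞)` is nondecreasing. -/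
theorem g1_mono {F F' : ℝ → ℝ} (hc : ContinuousOn F (Ici 0)) (hd : ∀ s, 0 < s → HasDerivAt F (F' s) s)
    (hF : ∀ s, 0 < s → 0 ≤ F' s) : MonotoneOn F (Ici 0) := by
  apply monotoneOn_of_deriv_nonneg (convex_Ici 0) hc
  · intro x hx
    rw [interior_Ici] at hx
    exact (hd x hx).differentiableAt.differentiableWithinAt
  · intro x hx
    rw [interior_Ici] at hx
    rw [(hd x hx).deriv]
    exact hF x hx

/-- A continuous function on `[0,∞)` with nonnegative derivative on `(0,∞)` which vanishes at `0` is nonnegative. -/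
theorem nonneg_of_der {F F' : ℝ → ℝ} (hc : ContinuousOn F (Ici 0)) (hd : ∀ s, 0 < s → HasDerivAt F (F' s) s)
    (hF : ∀ s, 0 < s → 0 ≤ F' s) (h0 : 0 ≤ F 0) {s : ℝ} (hs : 0 ≤ s) : 0 ≤ F s :=
  h0.trans (g1_mono hc hd hF (by simp) hs hs)

/-- A continuous function on `[0,∞)` with derivative zero on `(0,∞)` is constant. -/
theorem const_of_der {F : ℝ → ℝ} (hc : ContinuousOn F (Ici 0)) (hd : ∀ s, 0 < s → HasDerivAt F 0 s)
    {s : ℝ} (hs : 0 ≤ s) : F s = F 0 := by
  have h1 := g1_mono (F' := fun _ => 0) hc hd (fun _ _ => le_rfl) (by simp : (0 : ℝ) ∈ Ici 0) hs hs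
  have h2 := g1_mono (F := fun t => - F t) (F' := fun _ => -0) hc.neg
    (fun t ht => (hd t ht).neg) (fun _ _ => by simp) (by simp : (0 : ℝ) ∈ Ici 0) hs hs
  simp only at h2
  linarith

theorem sub_mono (h : Ray w dw) {s t : ℝ} (hs : 0 ≤ s) (hst : s ≤ t) : w s - s ≤ w t - t := by
  have h1 : MonotoneOn (fun s => w s - s) (Ici 0) :=
    g1_mono (F' := fun s => dw s - 1) (h.cont.sub continuousOn_id)
      (fun s hs => (h.der s hs).sub (hasDerivAt_id s)) (fun s hs => by have := h.one s hs.le; linarith)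
  exact h1 hs (hs.trans hst) hst

theorem lt_w (h : Ray w dw) {s : ℝ} (hs : 0 ≤ s) : s < w s := by
  have h1 := sub_mono h (le_refl 0) hs
  have h2 := h.pos 0 le_rfl
  linarith

theorem q_pos (h : Ray w dw) {s : ℝ} (hs : 0 ≤ s) : 0 < qq w s := by
  unfold qq
  have h1 := lt_w h hs
  have h2 := h.pos s hs
  have : s / w s < 1 := (div_lt_one h2).2 h1
  linarith

theorem q_le (h : Ray w dw) {s : ℝ} (hs : 0 ≤ s) : qq w s ≤ 1 := by
  unfold qq
  have h2 := h.pos s hs
  have : 0 ≤ s / w s := div_nonneg hs h2.le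
  linarith

theorem q_zero (w : ℝ → ℝ) : qq w 0 = 1 := by
  simp [qq]

theorem q_cont (h : Ray w dw) : ContinuousOn (qq w) (Ici 0) := by
  unfold qq
  exact continuousOn_const.sub (continuousOn_id.div h.cont (fun s hs => (h.pos s hs).ne'))

theorem q_der (h : Ray w dw) {s : ℝ} (hs : 0 < s) :
    HasDerivAt (qq w) (((1 - qq w s) * (dw s - 1) - qq w s) / w s) s := by
  have h0 := (h.pos s hs.le).ne'
  have h1 := ((hasDerivAt_id s).div (h.der s hs) h0).const_sub 1
  have h2 : -((1 * w s - id s * dw s) / w s ^ 2) = ((1 - qq w s) * (dw s - 1) - qq w s) / w s := by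
    unfold qq
    simp only [id]
    field_simp
    ring
  rw [← h2]
  exact h1

theorem Y_zero (w : ℝ → ℝ) : YY w 0 = 0 := by
  simp [YY]

theorem Y_cont (h : Ray w dw) : ContinuousOn (YY w) (Ici 0) :=
  g1_int_cont ((q_cont h).pow 2)

theorem Y_der (h : Ray w dw) {s : ℝ} (hs : 0 < s) : HasDerivAt (YY w) (qq w s ^ 2) s :=
  g1_int_der (f := fun t => qq w t ^ 2) ((q_cont h).pow 2) hs

theorem Y_nonneg (h : Ray w dw) {s : ℝ} (hs : 0 ≤ s) : 0 ≤ YY w s :=
  nonneg_of_der (Y_cont h) (fun _ ht => Y_der h ht) (fun _ _ => sq_nonneg _) (Y_zero w).ge hs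

theorem Y_le (h : Ray w dw) {s : ℝ} (hs : 0 ≤ s) : YY w s ≤ qq w s * s := by
  have h1 : 0 ≤ qq w s * s - YY w s := by
    apply nonneg_of_der (F := fun s => qq w s * s - YY w s)
      (F' := fun s => (1 - qq w s) ^ 2 * (dw s - 1)) (((q_cont h).mul continuousOn_id).sub (Y_cont h))
      ?_ ?_ ?_ hs
    · intro t ht
      have h2 := ((q_der h ht).mul (hasDerivAt_id t)).sub (Y_der h ht)
      have h3 : ((1 - qq w t) * (dw t - 1) - qq w t) / w t * id t + qq w t * 1 - qq w t ^ 2 =
          (1 - qq w t) ^ 2 * (dw t - 1) := by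
        have h0 := (h.pos t ht.le).ne'
        unfold qq
        simp only [id]
        field_simp
        ring
      rw [← h3]
      exact h2
    · intro t ht
      have := h.one t ht.le
      exact mul_nonneg (sq_nonneg _) (by linarith)
    · simp [Y_zero]
  linarith

theorem H_zero (w dw : ℝ → ℝ) : HH w dw 0 = w 0 := by
  simp [HH]

theorem g1_H_int (h : Ray w dw) : ContinuousOn (fun t => qq w t ^ 2 * (dw t - 1)) (Ici 0) :=
  ((q_cont h).pow 2).mul (h.dcont.sub continuousOn_const)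

theorem H_cont (h : Ray w dw) : ContinuousOn (HH w dw) (Ici 0) :=
  continuousOn_const.add (g1_int_cont (g1_H_int h))

theorem H_der (h : Ray w dw) {s : ℝ} (hs : 0 < s) : HasDerivAt (HH w dw) (qq w s ^ 2 * (dw s - 1)) s :=
  (g1_int_der (g1_H_int h) hs).const_add (w 0)

theorem Q_zero (w dw : ℝ → ℝ) : QQ w dw 0 = 0 := by
  simp [QQ]

theorem g1_Q_int (h : Ray w dw) :
    ContinuousOn (fun t => qq w t ^ 4 + 4 * (dw t / w t) * YY w t * qq w t ^ 2) (Ici 0) :=
  ((q_cont h).pow 4).add (((continuousOn_const.mul (h.dcont.div h.cont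
    (fun s hs => (h.pos s hs).ne'))).mul (Y_cont h)).mul ((q_cont h).pow 2))

theorem Q_cont (h : Ray w dw) : ContinuousOn (QQ w dw) (Ici 0) :=
  g1_int_cont (g1_Q_int h)

theorem Q_der (h : Ray w dw) {s : ℝ} (hs : 0 < s) :
    HasDerivAt (QQ w dw) (qq w s ^ 4 + 4 * (dw s / w s) * YY w s * qq w s ^ 2) s :=
  g1_int_der (g1_Q_int h) hs

end NullPen
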