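import Pool.Agent.Lib.H74P.Data
import Pool.Agent.Lib.H74P.G1

set_option autoImplicit false

/-!
Chunk A1. `g s = lam s` times the round metric. `lam_pos`: for `v_i = P e_i` (projection of the basis vector `e_i`), `g(v_i,v_i) = g_ii` since `g n = 0`, so
`g_ii >= 0`, and `> 0` if `v_i ≠ 0`; not all `v_i` vanish. `g_eq`: for `s > 0`, `∂_s g_ij = 2 chi_ij = exL g_ij` (`free`), so `lam' = exL lam` and
`(g_ij/lam)' = 0` : `g_ij = c_ij lam` on `(0,∞)`. By `flat`, `g_ij / s^2 → proj_ij` and `lam / s^2 → 1` (`Σ proj_ii = 2`), so `c_ij = proj_ij`. At `s = 0` by continuity.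
-/

open MeasureTheory Filter Topology Set
open scoped ContDiff

namespace NullPen

/-- contraction with the projection -/
theorem a1_contr {G : Fin 3 → ℝ} {n : E3} (h : ∑ l, G l * n l = 0) (i : Fin 3) :
    ∑ l, G l * proj n l i = G i := by
  have e : ∀ l, G l * proj n l i = (if l = i then G l else 0) - (G l * n l) * n i := by
    intro l
    unfold proj
    split_ifs <;> ring
  rw [Finset.sum_congr rfl fun l _ => e l, Finset.sum_sub_distrib, ← Finset.sum_mul, h, zero_mul, sub_zero,
    Finset.sum_ite_eq' Finset.univ i G, if_pos (Finset.mem_univ i)]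

theorem a1_proj_symm (n : E3) (i j : Fin 3) : proj n i j = proj n j i := by
  unfold proj
  by_cases h : i = j
  · rw [h]
  · rw [if_neg h, if_neg fun h' => h h'.symm]
    ring

namespace MatterData
variable {D : MatterData}

theorem unit_n (n : S2) : ∑ i, (n : E3) i ^ 2 = 1 := by
  have h1 : ‖(n : E3)‖ = 1 := by simp
  have h2 := EuclideanSpace.norm_sq_eq (n : E3)
  rw [h1] at h2
  simp only [Real.norm_eq_abs, sq_abs] at h2
  linarith

theorem a1_proj_tr (n : S2) : ∑ i, proj (n : E3) i i = 2 := by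
  have h := unit_n n
  have e : ∀ i, proj (n : E3) i i = 1 - (n : E3) i ^ 2 := by
    intro i
    unfold proj
    rw [if_pos rfl]
    ring
  rw [Finset.sum_congr rfl fun i _ => e i, Finset.sum_sub_distrib, h]
  simp
  norm_num

theorem lam_smooth (hD : D.IsNull) : ContDiff ℝ ∞ (fun p : ℝ × E3 => D.lam p.1 p.2) :=
  (ContDiff.sum fun i _ => hD.smooth_g i i).div_const 2

theorem a1_lam_t (hD : D.IsNull) (y : E3) : ContDiff ℝ ∞ (fun t : ℝ => D.lam t y) :=
  (lam_smooth hD).comp (contDiff_id.prodMk contDiff_const)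

theorem lam_der (hD : D.IsNull) (s : ℝ) (y : E3) : HasDerivAt (fun t => D.lam t y) (D.lam' s y) s :=
  ((a1_lam_t hD y).differentiable (by simp) s).hasDerivAt

theorem lam'_smooth (hD : D.IsNull) : ContDiff ℝ ∞ (fun p : ℝ × E3 => D.lam' p.1 p.2) := by
  have hF := lam_smooth hD
  have h1 : (fun p : ℝ × E3 => D.lam' p.1 p.2) = fun p : ℝ × E3 =>
      fderiv ℝ (fun p : ℝ × E3 => D.lam p.1 p.2) p ((1 : ℝ), (0 : E3)) := by
    funext p
    obtain ⟨s, y⟩ := p
    have hd : HasFDerivAt (fun p : ℝ × E3 => D.lam p.1 p.2)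
        (fderiv ℝ (fun p : ℝ × E3 => D.lam p.1 p.2) (s, y)) (s, y) :=
      (hF.differentiable (by simp) _).hasFDerivAt
    have hc : HasDerivAt (fun t : ℝ => (t, y)) ((1 : ℝ), (0 : E3)) s :=
      (hasDerivAt_id s).prodMk (hasDerivAt_const s y)
    have h2 := (hd.comp_hasDerivAt s hc).deriv
    exact h2
  rw [h1]
  have h2 : ContDiff ℝ ∞ (fderiv ℝ (fun p : ℝ × E3 => D.lam p.1 p.2)) := hF.fderiv_right (m := ∞) (by simp)
  exact h2.clm_apply contDiff_const

/-- `g(P e_i, P e_i) = g_ii` -/
theorem a1_gii (hD : D.IsNull) (n : S2) {s : ℝ} (hs : 0 ≤ s) (i : Fin 3) :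
    ∑ k, ∑ l, D.g s n k l * proj (n : E3) k i * proj (n : E3) l i = D.g s n i i := by
  have h1 : ∀ k, ∑ l, D.g s n k l * proj (n : E3) k i * proj (n : E3) l i =
      D.g s n i k * proj (n : E3) k i := by
    intro k
    have h2 : ∑ l, D.g s n k l * proj (n : E3) l i = D.g s n k i := a1_contr (hD.g_tan s hs n k) i
    have h3 : ∀ l, D.g s n k l * proj (n : E3) k i * proj (n : E3) l i =
        (D.g s n k l * proj (n : E3) l i) * proj (n : E3) k i := fun l => by ring
    rw [Finset.sum_congr rfl fun l _ => h3 l, ← Finset.sum_mul, h2, hD.g_symm s hs n k i]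
  rw [Finset.sum_congr rfl fun k _ => h1 k]
  exact a1_contr (hD.g_tan s hs n i) i

theorem a1_nproj (n : S2) (i : Fin 3) : ∑ k, (n : E3) k * proj (n : E3) k i = 0 := by
  have h := unit_n n
  have e : ∀ k, (n : E3) k * proj (n : E3) k i = (if k = i then (n : E3) k else 0) - (n : E3) k ^ 2 * (n : E3) i := by
    intro k
    unfold proj
    split_ifs <;> ring
  rw [Finset.sum_congr rfl fun k _ => e k, Finset.sum_sub_distrib, ← Finset.sum_mul, h,
    Finset.sum_ite_eq' Finset.univ i (fun k => (n : E3) k), if_pos (Finset.mem_univ i)]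
  ring

theorem a1_gii_pos (hD : D.IsNull) (n : S2) {s : ℝ} (hs : 0 ≤ s) (i : Fin 3) :
    0 ≤ D.g s n i i ∧ ((n : E3) i ^ 2 ≠ 1 → 0 < D.g s n i i) := by
  have h1 : (n : E3) i ^ 2 ≠ 1 → 0 < D.g s n i i := by
    intro h
    rw [← a1_gii hD n hs i]
    refine hD.g_pos s hs n (fun k => proj (n : E3) k i) ?_ (a1_nproj n i)
    intro h2
    apply h
    have h3 := congrFun h2 i
    simp only [Pi.zero_apply] at h3
    unfold proj at h3
    rw [if_pos rfl] at h3
    linarith
  refine ⟨?_, h1⟩
  by_cases h : (n : E3) i ^ 2 = 1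
  · have hz : ∀ k, proj (n : E3) k i = 0 := by
      have hu := unit_n n
      intro k
      unfold proj
      by_cases hk : k = i
      · rw [if_pos hk, hk]
        nlinarith
      · rw [if_neg hk]
        have h2 : (n : E3) k ^ 2 ≤ 0 := by
          have h3 : (n : E3) k ^ 2 + (n : E3) i ^ 2 ≤ ∑ i, (n : E3) i ^ 2 := by
            have h4 := Finset.add_le_sum (s := (Finset.univ : Finset (Fin 3))) (f := fun i => (n : E3) i ^ 2)
              (fun i _ => sq_nonneg _) (Finset.mem_univ k) (Finset.mem_univ i) hk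
            exact h4
          linarith
        have h3 : (n : E3) k = 0 := by
          have := le_antisymm h2 (sq_nonneg _)
          exact pow_eq_zero_iff (two_ne_zero) |>.1 this
        rw [h3]
        ring
    rw [← a1_gii hD n hs i]
    refine le_of_eq (Finset.sum_eq_zero fun k _ => Finset.sum_eq_zero fun l _ => ?_).symm
    rw [hz k]
    ring
  · exact (h1 h).le

theorem lam_pos (hD : D.IsNull) (n : S2) {s : ℝ} (hs : 0 ≤ s) : 0 < D.lam s n := by
  have hu := unit_n n
  have h := a1_gii_pos hD n hs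
  unfold lam
  rw [Fin.sum_univ_three] at hu ⊢
  have h0 := (h 0).1
  have h1 := (h 1).1
  have h2 := (h 2).1
  by_cases c : (n : E3) 0 ^ 2 = 1
  · have c1 : (n : E3) 1 ^ 2 ≠ 1 := by
      intro c1
      nlinarith [sq_nonneg ((n : E3) 2)]
    have := (h 1).2 c1
    linarith
  · have := (h 0).2 c
    linarith

theorem a1_lim (hD : D.Admissible) (n : S2) (i j : Fin 3) :
    Tendsto (fun s : ℝ => D.g s n i j / s ^ 2) atTop (𝓝 (proj (n : E3) i j)) := by
  obtain ⟨C, hC⟩ := hD.flat
  rw [tendsto_iff_norm_sub_tendsto_zero]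
  have h1 : Tendsto (fun s : ℝ => C / s) atTop (𝓝 0) := tendsto_const_nhds.div_atTop tendsto_id
  refine squeeze_zero' (Eventually.of_forall fun s => norm_nonneg _) ?_ h1
  filter_upwards [eventually_ge_atTop 1] with s hs
  have h2 := (hC s hs n i j).1
  have hs0 : (0 : ℝ) < s := by linarith
  have e : D.g s n i j / s ^ 2 - proj (n : E3) i j = (D.g s n i j - s ^ 2 * proj (n : E3) i j) / s ^ 2 := by
    field_simp
  rw [e, Real.norm_eq_abs, abs_div, abs_of_pos (by positivity : (0 : ℝ) < s ^ 2), div_le_div_iff₀ (by positivity) hs0]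
  calc |D.g s n i j - s ^ 2 * proj (n : E3) i j| * s ≤ C * s * s := mul_le_mul_of_nonneg_right h2 hs0.le
    _ = C * s ^ 2 := by ring

theorem a1_lam_lim (hD : D.Admissible) (n : S2) :
    Tendsto (fun s : ℝ => D.lam s n / s ^ 2) atTop (𝓝 1) := by
  have h1 : Tendsto (fun s : ℝ => (∑ i, D.g s n i i / s ^ 2) / 2) atTop (𝓝 ((∑ i, proj (n : E3) i i) / 2)) :=
    (tendsto_finsetSum _ fun i _ => a1_lim hD n i i).div_const 2
  rw [a1_proj_tr, div_self (by norm_num)] at h1
  refine h1.congr fun s => ?_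
  unfold lam
  rw [← Finset.sum_div]
  ring

theorem g_eq (hD : D.Admissible) (n : S2) {s : ℝ} (hs : 0 ≤ s) (i j : Fin 3) : D.g s n i j = D.lam s n * proj n i j := by
  have hg : ∀ i j, ContDiff ℝ ∞ (fun t : ℝ => D.g t n i j) := fun i j =>
    (hD.null.smooth_g i j).comp (contDiff_id.prodMk contDiff_const)
  have hder : ∀ i j, ∀ s, 0 < s → HasDerivAt (fun t : ℝ => D.g t n i j) (D.exL s n * D.g s n i j) s := by
    intro i j s hs
    have h1 := ((hg i j).differentiable (by simp) s).hasDerivAt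
    have h2 := hD.free s hs n i j
    unfold NullData.chi at h2
    have h3 : deriv (fun t => D.g t n i j) s = D.exL s n * D.g s n i j := by linarith
    rw [h3] at h1
    exact h1
  have hlam : ∀ s, 0 < s → HasDerivAt (fun t : ℝ => D.lam t n) (D.exL s n * D.lam s n) s := by
    intro s hs
    have h1 : HasDerivAt (fun t : ℝ => (∑ i, D.g t n i i) / 2) ((∑ i, D.exL s n * D.g s n i i) / 2) s :=
      (HasDerivAt.fun_sum fun i _ => hder i i s hs).div_const 2
    rw [← Finset.mul_sum, mul_div_assoc] at h1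
    exact h1
  have hF : ∀ s, 0 < s → HasDerivAt (fun t : ℝ => D.g t n i j / D.lam t n) 0 s := by
    intro s hs
    have h0 := (lam_pos hD.null n hs.le).ne'
    have h1 := (hder i j s hs).div (hlam s hs) h0
    refine h1.congr_deriv ?_
    field_simp
    ring
  have hc : ContinuousOn (fun t : ℝ => D.g t n i j / D.lam t n) (Ici 0) :=
    (hg i j).continuous.continuousOn.div (a1_lam_t hD.null n).continuous.continuousOn
      fun t ht => (lam_pos hD.null n ht).ne'
  have hconst : ∀ s, 0 ≤ s → D.g s n i j / D.lam s n = D.g 0 n i j / D.lam 0 n := fun s hs =>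
    const_of_der (F := fun t : ℝ => D.g t n i j / D.lam t n) hc hF hs
  have hl : Tendsto (fun s : ℝ => D.g s n i j / D.lam s n) atTop (𝓝 (proj (n : E3) i j / 1)) := by
    refine ((a1_lim hD n i j).div (a1_lam_lim hD n) one_ne_zero).congr' ?_
    filter_upwards [eventually_gt_atTop 0] with s hs
    have h0 := (lam_pos hD.null n hs.le).ne'
    change D.g s n i j / s ^ 2 / (D.lam s n / s ^ 2) = _
    field_simp
  have hl2 : Tendsto (fun s : ℝ => D.g s n i j / D.lam s n) atTop (𝓝 (D.g 0 n i j / D.lam 0 n)) := by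
    refine (tendsto_const_nhds (x := D.g 0 n i j / D.lam 0 n)).congr' ?_
    filter_upwards [eventually_ge_atTop 0] with s hs
    exact (hconst s hs).symm
  have h1 := tendsto_nhds_unique hl hl2
  rw [div_one] at h1
  have h2 := hconst s hs
  rw [← h1] at h2
  have h0 := (lam_pos hD.null n hs).ne'
  field_simp at h2
  linarith

end MatterData
end NullPen
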