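import Pool.Agent.Lib.H74P.A1

set_option autoImplicit false

/-!
Chunk A2. Consequences of `g = lam P` (`P = proj n`, `P n = 0`, `P^2 = P`, `tr P = 2`). `gi_eq`: `P_ij = Σ g_ik gi_kj = lam Σ P_ik gi_kj = lam gi_ij` (`gi` is symmetric and kills `n`).
`dA_eq`: `((2 lam)^2 - 2 lam^2)/2 = lam^2`. `tor_eq`, `dec_eq`: `Σ P_ij x_i x_j = Σ x_i^2` for tangential `x`. `chi_eq` (`s > 0`): differentiate `g_eq`;
`exL_eq`: `(1/lam)(lam'/2) Σ P_ij P_ij`; `chiSq_eq`: `(lam'/(2 lam))^2 Σ P_ik P_jl P_ij P_kl = 2 (lam'/(2 lam))^2`.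
-/

open MeasureTheory Filter Topology Set
open scoped ContDiff

namespace NullPen
namespace MatterData
variable {D : MatterData}

theorem a2_projn (n : S2) (i : Fin 3) : ∑ l, proj (n : E3) i l * (n : E3) l = 0 := by
  rw [← a1_nproj n i]
  exact Finset.sum_congr rfl fun l _ => by rw [a1_proj_symm, mul_comm]

/-- `P^2 = P` -/
theorem a2_projsq (n : S2) (i j : Fin 3) : ∑ k, proj (n : E3) i k * proj (n : E3) k j = proj (n : E3) i j :=
  a1_contr (a2_projn n i) j

theorem a2_projsq' (n : S2) (i j : Fin 3) : ∑ k, proj (n : E3) i k * proj (n : E3) j k = proj (n : E3) i j := by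
  rw [← a2_projsq n i j]
  exact Finset.sum_congr rfl fun k _ => by rw [a1_proj_symm (n : E3) j k]

theorem a2_sum_sq (n : S2) : ∑ i, ∑ j, proj (n : E3) i j * proj (n : E3) i j = 2 := by
  rw [← a1_proj_tr n]
  exact Finset.sum_congr rfl fun i _ => a2_projsq' n i i

theorem a2_quad (n : S2) {x : Fin 3 → ℝ} (hx : ∑ i, (n : E3) i * x i = 0) :
    ∑ i, ∑ j, proj (n : E3) i j * x i * x j = ∑ i, x i ^ 2 := by
  have hx' : ∑ l, x l * (n : E3) l = 0 := by
    rw [← hx]
    exact Finset.sum_congr rfl fun l _ => mul_comm _ _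
  rw [Finset.sum_comm]
  refine Finset.sum_congr rfl fun j _ => ?_
  have h1 : ∑ l, x l * proj (n : E3) l j = x j := a1_contr hx' j
  have e : ∀ i, proj (n : E3) i j * x i * x j = (x i * proj (n : E3) i j) * x j := fun i => by ring
  rw [Finset.sum_congr rfl fun i _ => e i, ← Finset.sum_mul, h1]
  ring

theorem gi_eq (hD : D.Admissible) (n : S2) {s : ℝ} (hs : 0 ≤ s) (i j : Fin 3) :
    D.gi s n i j = (D.lam s n)⁻¹ * proj n i j := by
  have h0 := (lam_pos hD.null n hs).ne'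
  have h1 := hD.null.gi_inv s hs n i j
  have h2 : ∑ k, D.g s n i k * D.gi s n k j = D.lam s n * D.gi s n j i := by
    have h3 : ∑ k, D.gi s n j k * proj (n : E3) k i = D.gi s n j i := a1_contr (hD.null.gi_tan s hs n j) i
    rw [← h3, Finset.mul_sum]
    refine Finset.sum_congr rfl fun k _ => ?_
    rw [g_eq hD n hs i k, hD.null.gi_symm s hs n k j, a1_proj_symm (n : E3) i k]
    ring
  rw [h1, hD.null.gi_symm s hs n j i] at h2
  rw [h2]
  field_simp

theorem dA_eq (hD : D.Admissible) (n : S2) {s : ℝ} (hs : 0 ≤ s) : D.dA s n = D.lam s n := by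
  have h0 := lam_pos hD.null n hs
  have h1 : ∑ i, D.g s n i i = 2 * D.lam s n := by
    unfold lam
    ring
  have h2 : ∑ i, ∑ j, D.g s n i j ^ 2 = 2 * D.lam s n ^ 2 := by
    have e : ∀ i j, D.g s n i j ^ 2 = D.lam s n ^ 2 * (proj (n : E3) i j * proj (n : E3) i j) := by
      intro i j
      rw [g_eq hD n hs i j]
      ring
    rw [Finset.sum_congr rfl fun i _ => Finset.sum_congr rfl fun j _ => e i j]
    simp only [← Finset.mul_sum]
    rw [a2_sum_sq]
    ring
  unfold NullData.dA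
  rw [h1, h2]
  have e : ((2 * D.lam s n) ^ 2 - 2 * D.lam s n ^ 2) / 2 = D.lam s n ^ 2 := by ring
  rw [e]
  exact Real.sqrt_sq h0.le

theorem a2_form (hD : D.Admissible) (n : S2) {s : ℝ} (hs : 0 ≤ s) {x : Fin 3 → ℝ} (hx : ∑ i, (n : E3) i * x i = 0) :
    ∑ i, ∑ j, D.gi s n i j * x i * x j = (D.lam s n)⁻¹ * ∑ i, x i ^ 2 := by
  rw [← a2_quad n hx]
  simp only [Finset.mul_sum]
  refine Finset.sum_congr rfl fun i _ => Finset.sum_congr rfl fun j _ => ?_
  rw [gi_eq hD n hs i j]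
  ring

theorem tor_eq (hD : D.Admissible) (n : S2) {s : ℝ} (hs : 0 ≤ s) : D.torSq s n * D.dA s n = ∑ i, D.ζ s n i ^ 2 := by
  have h0 := (lam_pos hD.null n hs).ne'
  have h1 := a2_form hD n hs (hD.null.ζ_tan s hs n)
  have h2 : D.torSq s n = (D.lam s n)⁻¹ * ∑ i, D.ζ s n i ^ 2 := h1
  rw [h2, dA_eq hD n hs]
  field_simp

theorem dec_eq (hD : D.Admissible) (n : S2) {s : ℝ} (hs : 0 ≤ s) :
    ∑ i, D.j s n i ^ 2 ≤ D.lam s n * (D.e s n * D.ρ s n) := by
  have h0 := lam_pos hD.null n hs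
  have h1 := a2_form hD n hs (hD.null.j_tan s hs n)
  have h2 := hD.null.dec s hs n
  rw [h1] at h2
  calc ∑ i, D.j s n i ^ 2 = D.lam s n * ((D.lam s n)⁻¹ * ∑ i, D.j s n i ^ 2) := by
        field_simp
    _ ≤ _ := mul_le_mul_of_nonneg_left h2 h0.le

theorem chi_eq (hD : D.Admissible) (n : S2) {s : ℝ} (hs : 0 < s) (i j : Fin 3) :
    D.chi s n i j = D.lam' s n / 2 * proj n i j := by
  unfold NullData.chi
  have h1 : HasDerivAt (fun t => D.lam t n * proj (n : E3) i j) (D.lam' s n * proj (n : E3) i j) s :=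
    (lam_der hD.null s n).mul_const _
  have h2 : (fun t => D.g t n i j) =ᶠ[𝓝 s] (fun t => D.lam t n * proj (n : E3) i j) := by
    filter_upwards [lt_mem_nhds hs] with t ht
    exact g_eq hD n (le_of_lt ht) i j
  rw [h2.deriv_eq, h1.deriv]
  ring

theorem exL_eq (hD : D.Admissible) (n : S2) {s : ℝ} (hs : 0 < s) : D.exL s n = D.lam' s n / D.lam s n := by
  have e : ∀ i j, D.gi s n i j * D.chi s n i j =
      (D.lam s n)⁻¹ * (D.lam' s n / 2) * (proj (n : E3) i j * proj (n : E3) i j) := by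
    intro i j
    rw [gi_eq hD n hs.le, chi_eq hD n hs]
    ring
  unfold NullData.exL
  rw [Finset.sum_congr rfl fun i _ => Finset.sum_congr rfl fun j _ => e i j]
  simp only [← Finset.mul_sum]
  rw [a2_sum_sq]
  ring

theorem a2_sum4 (n : S2) : ∑ i, ∑ j, ∑ k, ∑ l, (proj (n : E3) i k * proj (n : E3) j l) *
    (proj (n : E3) i j * proj (n : E3) k l) = 2 := by
  rw [← a2_sum_sq n]
  refine Finset.sum_congr rfl fun i _ => Finset.sum_congr rfl fun j _ => ?_
  have h1 : ∀ k, ∑ l, (proj (n : E3) i k * proj (n : E3) j l) * (proj (n : E3) i j * proj (n : E3) k l) =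
      proj (n : E3) i j * (proj (n : E3) i k * proj (n : E3) j k) := by
    intro k
    have e : ∀ l, (proj (n : E3) i k * proj (n : E3) j l) * (proj (n : E3) i j * proj (n : E3) k l) =
        (proj (n : E3) i j * proj (n : E3) i k) * (proj (n : E3) j l * proj (n : E3) k l) := fun l => by ring
    rw [Finset.sum_congr rfl fun l _ => e l, ← Finset.mul_sum, a2_projsq' n j k]
    ring
  rw [Finset.sum_congr rfl fun k _ => h1 k, ← Finset.mul_sum, a2_projsq' n i j]

theorem chiSq_eq (hD : D.Admissible) (n : S2) {s : ℝ} (hs : 0 < s) :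
    D.chiSq s n = (D.lam' s n / D.lam s n) ^ 2 / 2 := by
  have h0 := (lam_pos hD.null n hs.le).ne'
  have e : ∀ i j k l, D.gi s n i k * D.gi s n j l * D.chi s n i j * D.chi s n k l =
      ((D.lam s n)⁻¹ ^ 2 * (D.lam' s n / 2) ^ 2) * ((proj (n : E3) i k * proj (n : E3) j l) *
        (proj (n : E3) i j * proj (n : E3) k l)) := by
    intro i j k l
    rw [gi_eq hD n hs.le, gi_eq hD n hs.le, chi_eq hD n hs, chi_eq hD n hs]
    ring
  unfold chiSq
  rw [Finset.sum_congr rfl fun i _ => Finset.sum_congr rfl fun j _ => Finset.sum_congr rfl fun k _ =>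
    Finset.sum_congr rfl fun l _ => e i j k l]
  simp only [← Finset.mul_sum]
  rw [a2_sum4]
  field_simp

end MatterData
end NullPen
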