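import Pool.Agent.Lib.H74P.A2
import Pool.Agent.Lib.H74P.G1

set_option autoImplicit false

/-!
Chunk A3. `om = sqrt lam` along one generator. `om_der`: chain rule, `lam > 0`. `dom_der`: on `(0,∞)` `exL = lam'/lam = 2 dom/om`, so `dom = exL om / 2` and by `ray`
`dom' = (- chiSq - e) om/2 + exL dom/2 = (- exL^2/2 - e) om/2 + exL^2 om/4 = - e om/2` (`chiSq = exL^2/2`). `om_ray.one`: `dom` is nonincreasing on `(0,∞)`
(derivative `<= 0`); if `dom a < 1` for some `a > 0` then `om s <= om a + dom a (s - a)` for `s >= a`, which contradicts `om s / s → 1` (`flat`: `|lam - s^2| <= (3/2) C s`).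
At `s = 0` by continuity of `dom` on `[0,∞)` (`lam'` is continuous).
-/

open MeasureTheory Filter Topology Set
open scoped ContDiff

namespace NullPen
namespace MatterData
variable {D : MatterData}

theorem om_pos (hD : D.IsNull) (n : S2) {s : ℝ} (hs : 0 ≤ s) : 0 < D.om n s :=
  Real.sqrt_pos.mpr (lam_pos hD n hs)

theorem om_sq (hD : D.IsNull) (n : S2) {s : ℝ} (hs : 0 ≤ s) : D.om n s ^ 2 = D.lam s n :=
  Real.sq_sqrt (lam_pos hD n hs).le

theorem om_der (hD : D.IsNull) (n : S2) {s : ℝ} (hs : 0 ≤ s) : HasDerivAt (D.om n) (D.dom n s) s :=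
  (lam_der hD s n).sqrt (lam_pos hD n hs).ne'

theorem dom_der (hD : D.Admissible) (n : S2) {s : ℝ} (hs : 0 < s) :
    HasDerivAt (D.dom n) (- (D.e s n * D.om n s / 2)) s := by
  have key : ∀ t, 0 < t → D.dom n t = D.exL t n * D.om n t / 2 := by
    intro t ht
    have h0 := (om_pos hD.null n ht.le).ne'
    have h1 := om_sq hD.null n ht.le
    have h2 := (lam_pos hD.null n ht.le).ne'
    rw [exL_eq hD n ht]
    unfold dom
    rw [← h1]
    field_simp
  have h1 : HasDerivAt (fun t => D.exL t n * D.om n t / 2)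
      (((- D.chiSq s n - D.e s n) * D.om n s + D.exL s n * D.dom n s) / 2) s :=
    ((hD.null.ray s hs n).mul (om_der hD.null n hs.le)).div_const 2
  have h2 : HasDerivAt (D.dom n) (((- D.chiSq s n - D.e s n) * D.om n s + D.exL s n * D.dom n s) / 2) s := by
    refine h1.congr_of_eventuallyEq ?_
    filter_upwards [lt_mem_nhds hs] with t ht
    exact key t ht
  refine h2.congr_deriv ?_
  have h3 : D.chiSq s n = D.exL s n ^ 2 / 2 := by
    rw [chiSq_eq hD n hs, exL_eq hD n hs]
  rw [h3, key s hs]
  ring

theorem a3_dcont (hD : D.IsNull) (n : S2) : ContinuousOn (D.dom n) (Ici 0) := by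
  have h1 : Continuous (fun t : ℝ => D.lam' t n) :=
    (lam'_smooth hD).continuous.comp (continuous_id.prodMk continuous_const)
  refine h1.continuousOn.div ?_ ?_
  · exact continuousOn_const.mul fun t ht => (om_der hD n ht).continuousAt.continuousWithinAt
  · intro t ht
    have := om_pos hD n ht
    positivity

theorem a3_anti (hD : D.Admissible) (n : S2) : AntitoneOn (D.dom n) (Ici 0) := by
  refine antitoneOn_of_deriv_nonpos (convex_Ici 0) (a3_dcont hD.null n) ?_ ?_
  · intro t ht
    rw [interior_Ici] at ht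
    exact (dom_der hD n ht).differentiableAt.differentiableWithinAt
  · intro t ht
    rw [interior_Ici] at ht
    rw [(dom_der hD n ht).deriv]
    have h1 := hD.null.e_nonneg t (le_of_lt ht) n
    have h2 := (om_pos hD.null n (le_of_lt ht)).le
    have := mul_nonneg h1 h2
    linarith

theorem a3_lim (hD : D.Admissible) (n : S2) : Tendsto (fun s : ℝ => D.om n s / s) atTop (𝓝 1) := by
  have h1 : Tendsto (fun s : ℝ => Real.sqrt (D.lam s n / s ^ 2)) atTop (𝓝 (Real.sqrt 1)) :=
    (Real.continuous_sqrt.tendsto 1).comp (a1_lam_lim hD n)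
  rw [Real.sqrt_one] at h1
  refine h1.congr' ?_
  filter_upwards [eventually_gt_atTop 0] with s hs
  rw [Real.sqrt_div' _ (by positivity), Real.sqrt_sq hs.le]
  rfl

theorem a3_one (hD : D.Admissible) (n : S2) {a : ℝ} (ha : 0 ≤ a) : 1 ≤ D.dom n a := by
  have h1 : ∀ s, a ≤ s → D.om n s - D.om n a ≤ D.dom n a * (s - a) := by
    intro s hs
    refine (convex_Ici a).image_sub_le_mul_sub_of_deriv_le ?_ ?_ ?_ a (mem_Ici.mpr le_rfl) s (mem_Ici.mpr hs) hs
    · exact fun t ht => (om_der hD.null n (ha.trans ht)).continuousAt.continuousWithinAt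
    · intro t ht
      rw [interior_Ici] at ht
      exact (om_der hD.null n (ha.trans (le_of_lt ht))).differentiableAt.differentiableWithinAt
    · intro t ht
      rw [interior_Ici] at ht
      rw [(om_der hD.null n (ha.trans (le_of_lt ht))).deriv]
      exact a3_anti hD n (mem_Ici.mpr ha) (mem_Ici.mpr (ha.trans (le_of_lt ht))) (le_of_lt ht)
  have h2 : Tendsto (fun s : ℝ => (D.om n a - D.dom n a * a) / s + D.dom n a) atTop (𝓝 (0 + D.dom n a)) :=
    (tendsto_const_nhds.div_atTop tendsto_id).add_const _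
  rw [zero_add] at h2
  refine le_of_tendsto_of_tendsto (a3_lim hD n) h2 ?_
  filter_upwards [eventually_ge_atTop a, eventually_gt_atTop 0] with s hs hs0
  have h3 := h1 s hs
  rw [div_le_iff₀ hs0]
  have e : ((D.om n a - D.dom n a * a) / s + D.dom n a) * s = D.om n a - D.dom n a * a + D.dom n a * s := by
    field_simp
  rw [e]
  linarith

theorem om_ray (hD : D.Admissible) (n : S2) : Ray (D.om n) (D.dom n) where
  cont := fun t ht => (om_der hD.null n ht).continuousAt.continuousWithinAt
  dcont := a3_dcont hD.null n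
  der := fun s hs => om_der hD.null n hs.le
  pos := fun s hs => om_pos hD.null n hs
  one := fun s hs => a3_one hD n hs

end MatterData
end NullPen
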