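import Pool.Agent.Lib.H74P.A3

set_option autoImplicit false

/-!
Chunk A4. Uniform bounds at infinity. With the constant `C0` of `flat` (it is `>= 0`): `|lam - s^2| = |Σ (g_ii - s^2 proj_ii)|/2 <= (3/2) C0 s` (`Σ proj_ii = 2` on the sphere), so
`om - s = (lam - s^2)/(om + s) <= (3/2) C0`. `Σ_i proj_ii (y) = 3 - |y|^2` has zero derivative in tangential directions, so for tangential `v` with `|v| = 1`
`|Σ v_k pd k lam| <= (3/2) C0 s`, and `2 om >= 2 s` (`lt_w`); homogeneity in `v`.
-/

open MeasureTheory Filter Topology Set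
open scoped ContDiff

namespace NullPen

theorem a4_hasDeriv {f : E3 → ℝ} (hf : ContDiff ℝ ∞ f) (x : E3) (k : Fin 3) :
    HasDerivAt (fun t : ℝ => f (x + t • EuclideanSpace.single k (1 : ℝ))) (pd k f x) 0 := by
  have h1 : DifferentiableAt ℝ (fun t : ℝ => f (x + t • EuclideanSpace.single k (1 : ℝ))) 0 := by
    have h2 : Differentiable ℝ (fun t : ℝ => x + t • (EuclideanSpace.single k (1 : ℝ) : E3)) := by
      fun_prop
    exact ((hf.differentiable (by simp)).comp h2) 0
  exact h1.hasDerivAt

theorem a4_coord (x : E3) (i k : Fin 3) :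
    HasDerivAt (fun t : ℝ => (x + t • (EuclideanSpace.single k (1 : ℝ) : E3)) i) (if i = k then 1 else 0) 0 := by
  have e : (fun t : ℝ => (x + t • (EuclideanSpace.single k (1 : ℝ) : E3)) i) =
      fun t : ℝ => x i + t * (if i = k then 1 else 0) := by
    funext t
    simp only [PiLp.add_apply, PiLp.smul_apply, PiLp.single_apply, smul_eq_mul]
  rw [e]
  simpa using ((hasDerivAt_id (0 : ℝ)).mul_const (if i = k then (1 : ℝ) else 0)).const_add (x i)

/-- derivative of `proj_ii` -/
theorem a4_q (x : E3) (i k : Fin 3) :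
    HasDerivAt (fun t : ℝ => proj (x + t • (EuclideanSpace.single k (1 : ℝ) : E3)) i i)
      (- 2 * x i * (if i = k then 1 else 0)) 0 := by
  have h := a4_coord x i k
  have h1 := (h.mul h).const_sub 1
  have e : (fun t : ℝ => proj (x + t • (EuclideanSpace.single k (1 : ℝ) : E3)) i i) =
      fun t : ℝ => 1 - (x + t • (EuclideanSpace.single k (1 : ℝ) : E3)) i *
        (x + t • (EuclideanSpace.single k (1 : ℝ) : E3)) i := by
    funext t
    unfold proj
    rw [if_pos rfl]
  rw [e]
  refine h1.congr_deriv ?_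
  rw [zero_smul, add_zero]
  ring

theorem a4_proj_smooth (i j : Fin 3) : ContDiff ℝ ∞ (fun y : E3 => proj y i j) := by
  have hx : ∀ i : Fin 3, ContDiff ℝ ∞ (fun y : E3 => y i) := fun i => (EuclideanSpace.proj i : E3 →L[ℝ] ℝ).contDiff
  exact contDiff_const.sub ((hx i).mul (hx j))

namespace MatterData
variable {D : MatterData}

/-- the derivative of `lam` in tangential directions -/
theorem a4_dir (hD : D.IsNull) (s : ℝ) (n : S2) {v : Fin 3 → ℝ} (hv : ∑ k, (n : E3) k * v k = 0) :
    ∑ k, v k * pd k (D.lam s) n =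
      (∑ i, ∑ k, v k * pd k (fun y => D.g s y i i - s ^ 2 * proj y i i) n) / 2 := by
  have hg : ∀ i, ContDiff ℝ ∞ (fun y : E3 => D.g s y i i - s ^ 2 * proj y i i) := fun i =>
    ((hD.smooth_g i i).comp (contDiff_const.prodMk contDiff_id)).sub (contDiff_const.mul (a4_proj_smooth i i))
  have h1 : ∀ k, pd k (D.lam s) n = (∑ i, (pd k (fun y => D.g s y i i - s ^ 2 * proj y i i) n +
      s ^ 2 * (- 2 * (n : E3) i * (if i = k then 1 else 0)))) / 2 := by
    intro k
    have h2 : HasDerivAt (fun t : ℝ => (∑ i, ((D.g s ((n : E3) + t • (EuclideanSpace.single k (1 : ℝ) : E3)) i i -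
        s ^ 2 * proj ((n : E3) + t • (EuclideanSpace.single k (1 : ℝ) : E3)) i i) +
        s ^ 2 * proj ((n : E3) + t • (EuclideanSpace.single k (1 : ℝ) : E3)) i i)) / 2)
        ((∑ i, (pd k (fun y => D.g s y i i - s ^ 2 * proj y i i) n +
      s ^ 2 * (- 2 * (n : E3) i * (if i = k then 1 else 0)))) / 2) 0 :=
      (HasDerivAt.fun_sum fun i _ => (a4_hasDeriv (hg i) n k).add ((a4_q n i k).const_mul (s ^ 2))).div_const 2
    have h3 : (fun t : ℝ => D.lam s ((n : E3) + t • (EuclideanSpace.single k (1 : ℝ) : E3))) =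
        (fun t : ℝ => (∑ i, ((D.g s ((n : E3) + t • (EuclideanSpace.single k (1 : ℝ) : E3)) i i -
        s ^ 2 * proj ((n : E3) + t • (EuclideanSpace.single k (1 : ℝ) : E3)) i i) +
        s ^ 2 * proj ((n : E3) + t • (EuclideanSpace.single k (1 : ℝ) : E3)) i i)) / 2) := by
      funext t
      unfold lam
      simp only [sub_add_cancel]
    unfold pd
    rw [h3]
    exact h2.deriv
  have h2 : ∀ k, v k * pd k (D.lam s) n = (∑ i, v k * pd k (fun y => D.g s y i i - s ^ 2 * proj y i i) n) / 2 -
      s ^ 2 * ((n : E3) k * v k) := by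
    intro k
    rw [h1 k, Finset.sum_add_distrib]
    have e : ∑ i, s ^ 2 * (- 2 * (n : E3) i * (if i = k then (1 : ℝ) else 0)) = s ^ 2 * (- 2 * (n : E3) k) := by
      rw [Finset.sum_eq_single k]
      · rw [if_pos rfl, mul_one]
      · intro i _ hi
        rw [if_neg hi, mul_zero, mul_zero]
      · intro h
        exact absurd (Finset.mem_univ k) h
    rw [e, ← Finset.mul_sum]
    ring
  rw [Finset.sum_congr rfl fun k _ => h2 k, Finset.sum_sub_distrib, ← Finset.mul_sum, hv, mul_zero, sub_zero,
    ← Finset.sum_div, Finset.sum_comm]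

theorem bounds (hD : D.Admissible) : ∃ C : ℝ, 0 ≤ C ∧ ∀ s, 1 ≤ s → ∀ n : S2, D.om n s - s ≤ C ∧
    ∀ v : Fin 3 → ℝ, ∑ k, (n : E3) k * v k = 0 → |D.Dv n v s| ≤ C * Real.sqrt (∑ k, v k ^ 2) := by
  obtain ⟨C, hC⟩ := hD.flat
  have hC0 : ∀ n : S2, 0 ≤ C := by
    intro n
    have h1 := (hC 1 le_rfl n 0 0).1
    have h2 := (abs_nonneg _).trans h1
    linarith
  by_cases hne : Nonempty S2
  · obtain ⟨n0⟩ := hne
    have hC' := hC0 n0
    refine ⟨3 / 2 * C, by positivity, fun s hs n => ⟨?_, fun v hv => ?_⟩⟩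
    · have hs0 : (0 : ℝ) < s := by linarith
      have h1 := om_sq hD.null n hs0.le
      have h2 := om_pos hD.null n hs0.le
      have h3 : D.lam s n - s ^ 2 ≤ 3 / 2 * C * s := by
        have h4 : D.lam s n - s ^ 2 = (∑ i, (D.g s n i i - s ^ 2 * proj (n : E3) i i)) / 2 := by
          rw [Finset.sum_sub_distrib, ← Finset.mul_sum, a1_proj_tr]
          unfold lam
          ring
        have h5 : ∑ i, (D.g s n i i - s ^ 2 * proj (n : E3) i i) ≤ ∑ i : Fin 3, C * s :=
          Finset.sum_le_sum fun i _ => (le_abs_self _).trans (hC s hs n i i).1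
        rw [Finset.sum_const, Finset.card_univ, Fintype.card_fin, nsmul_eq_mul] at h5
        rw [h4]
        push_cast at h5
        linarith
      rw [← h1] at h3
      by_contra hcon
      push Not at hcon
      have h6 : 3 / 2 * C * s < (D.om n s - s) * s := mul_lt_mul_of_pos_right hcon hs0
      have h7 : 0 ≤ 3 / 2 * C := by positivity
      nlinarith
    · have hs0 : (0 : ℝ) < s := by linarith
      have hom : s < D.om n s := lt_w (om_ray hD n) hs0.le
      -- unit vectors
      have hunit : ∀ u : Fin 3 → ℝ, ∑ k, (n : E3) k * u k = 0 → (∑ k, u k ^ 2) = 1 →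
          |∑ k, u k * pd k (D.lam s) n| ≤ 3 / 2 * C * s := by
        intro u hu hu1
        rw [a4_dir hD.null s n hu, abs_div, abs_of_pos (two_pos : (0 : ℝ) < 2)]
        have h1 : |∑ i, ∑ k, u k * pd k (fun y => D.g s y i i - s ^ 2 * proj y i i) n| ≤ ∑ i : Fin 3, C * s :=
          (Finset.abs_sum_le_sum_abs _ _).trans (Finset.sum_le_sum fun i _ => (hC s hs n i i).2 u hu hu1)
        rw [Finset.sum_const, Finset.card_univ, Fintype.card_fin, nsmul_eq_mul] at h1
        push_cast at h1
        linarith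
      set r := Real.sqrt (∑ k, v k ^ 2) with hr
      have hr0 : 0 ≤ r := Real.sqrt_nonneg _
      have hsum0 : 0 ≤ ∑ k, v k ^ 2 := Finset.sum_nonneg fun k _ => sq_nonneg _
      have hr2 : r ^ 2 = ∑ k, v k ^ 2 := Real.sq_sqrt hsum0
      have hmain : |∑ k, v k * pd k (D.lam s) n| ≤ r * (3 / 2 * C * s) := by
        rcases eq_or_lt_of_le hr0 with h0 | h0
        · have hz : ∀ k, v k = 0 := by
            intro k
            have h1 : ∑ k, v k ^ 2 = 0 := by rw [← hr2, ← h0]; ring
            have h2 := (Finset.sum_eq_zero_iff_of_nonneg (fun i _ => sq_nonneg _)).1 h1 k (Finset.mem_univ k)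
            exact pow_eq_zero_iff (two_ne_zero) |>.1 h2
          have h3 : ∑ k, v k * pd k (D.lam s) n = 0 := Finset.sum_eq_zero fun k _ => by rw [hz k, zero_mul]
          rw [h3, ← h0, zero_mul, abs_zero]
        · have h1 := hunit (fun k => v k / r) (by
            have e : ∀ k, (n : E3) k * (v k / r) = ((n : E3) k * v k) / r := fun k => by ring
            rw [Finset.sum_congr rfl fun k _ => e k, ← Finset.sum_div, hv, zero_div]) (by
            have e : ∀ k, (v k / r) ^ 2 = v k ^ 2 / r ^ 2 := fun k => by rw [div_pow]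
            rw [Finset.sum_congr rfl fun k _ => e k, ← Finset.sum_div, ← hr2]
            exact div_self (by positivity))
          have h2 : ∑ k, v k / r * pd k (D.lam s) n = (∑ k, v k * pd k (D.lam s) n) / r := by
            rw [Finset.sum_div]
            exact Finset.sum_congr rfl fun k _ => by ring
          rw [h2, abs_div, abs_of_pos h0, div_le_iff₀ h0] at h1
          linarith
      unfold Dv
      have hom0 : 0 < D.om n s := hs0.trans hom
      rw [abs_div, abs_of_pos (by positivity : (0 : ℝ) < 2 * D.om n s), div_le_iff₀ (by positivity)]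
      refine hmain.trans ?_
      have h1 : 0 ≤ 3 / 2 * C * r := by positivity
      nlinarith
  · refine ⟨0, le_rfl, fun s _ n => absurd ⟨n⟩ hne⟩

end MatterData
end NullPen
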