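import Pool.Agent.Lib.H74P.C1

set_option autoImplicit false

/-!
Chunk C2. `om`, `dom`, `q`, `ka` are continuous functions of `(s, n)` on `[0,∞) × S2` (quotients, roots and logarithms of continuous positive functions: `lam_smooth`, `lam'_smooth`, `lam_pos`,
`om_pos`, `lt_w`). `YY`, `HH`, `QQ`: `cont_int`. `c_Dv`: `pd k (lam s) y` is a continuous function of `(s,y)` (`pdf`-type formula: derivative of a smooth function of `(s,y)`).
-/

open MeasureTheory Filter Topology Set
open scoped ContDiff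

namespace NullPen
namespace MatterData
variable {D : MatterData}

theorem c2_emb : Continuous (fun p : ℝ × S2 => ((p.1, (p.2 : E3)) : ℝ × E3)) :=
  continuous_fst.prodMk (continuous_subtype_val.comp continuous_snd)

theorem c2_lam (hD : D.IsNull) : Continuous (fun p : ℝ × S2 => D.lam p.1 p.2) :=
  (lam_smooth hD).continuous.comp c2_emb

theorem c2_ne (hD : D.IsNull) : ∀ p ∈ (Ici (0 : ℝ) ×ˢ (univ : Set S2)), D.om p.2 p.1 ≠ 0 :=
  fun p hp => (om_pos hD p.2 (mem_Ici.mp hp.1)).ne'

theorem c_om (hD : D.IsNull) : ContinuousOn (fun p : ℝ × S2 => D.om p.2 p.1) (Ici 0 ×ˢ univ) :=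
  (Real.continuous_sqrt.comp (c2_lam hD)).continuousOn

theorem c_dom (hD : D.IsNull) : ContinuousOn (fun p : ℝ × S2 => D.dom p.2 p.1) (Ici 0 ×ˢ univ) := by
  have h1 : Continuous (fun p : ℝ × S2 => D.lam' p.1 p.2) := (lam'_smooth hD).continuous.comp c2_emb
  refine h1.continuousOn.div (continuousOn_const.mul (c_om hD)) fun p hp => ?_
  exact mul_ne_zero two_ne_zero (c2_ne hD p hp)

theorem c2_fst : ContinuousOn (fun p : ℝ × S2 => p.1) (Ici 0 ×ˢ univ) := continuous_fst.continuousOn

theorem c_q (hD : D.Admissible) : ContinuousOn (fun p : ℝ × S2 => qq (D.om p.2) p.1) (Ici 0 ×ˢ univ) :=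
  continuousOn_const.sub (c2_fst.div (c_om hD.null) (c2_ne hD.null))

theorem c_Y (hD : D.Admissible) : ContinuousOn (fun p : ℝ × S2 => YY (D.om p.2) p.1) (Ici 0 ×ˢ univ) :=
  cont_int (F := fun t n => qq (D.om n) t ^ 2) ((c_q hD).pow 2)

theorem c_H (hD : D.Admissible) : ContinuousOn (fun p : ℝ × S2 => HH (D.om p.2) (D.dom p.2) p.1) (Ici 0 ×ˢ univ) := by
  have h0 : Continuous (fun p : ℝ × S2 => D.om p.2 0) := by
    have h1 : Continuous (fun p : ℝ × S2 => ((0 : ℝ), (p.2 : E3))) :=
      continuous_const.prodMk (continuous_subtype_val.comp continuous_snd)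
    exact Real.continuous_sqrt.comp ((lam_smooth hD.null).continuous.comp h1)
  exact h0.continuousOn.add (cont_int (F := fun t n => qq (D.om n) t ^ 2 * (D.dom n t - 1))
    (((c_q hD).pow 2).mul ((c_dom hD.null).sub continuousOn_const)))

theorem c_Q (hD : D.Admissible) : ContinuousOn (fun p : ℝ × S2 => QQ (D.om p.2) (D.dom p.2) p.1) (Ici 0 ×ˢ univ) :=
  cont_int (F := fun t n => qq (D.om n) t ^ 4 + 4 * (D.dom n t / D.om n t) * YY (D.om n) t * qq (D.om n) t ^ 2)
    (((c_q hD).pow 4).add (((continuousOn_const.mul ((c_dom hD.null).div (c_om hD.null) (c2_ne hD.null))).mul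
      (c_Y hD)).mul ((c_q hD).pow 2)))

theorem c_ka (hD : D.Admissible) : ContinuousOn (fun p : ℝ × S2 => ka (D.om p.2) p.1) (Ici 0 ×ˢ univ) := by
  refine (((c_om hD.null).log (c2_ne hD.null)).add ((continuousOn_const.mul c2_fst).div (c_om hD.null)
    (c2_ne hD.null))).sub ((c2_fst.pow 2).div (continuousOn_const.mul ((c_om hD.null).pow 2)) fun p hp => ?_)
  exact mul_ne_zero two_ne_zero (pow_ne_zero 2 (c2_ne hD.null p hp))

theorem c_ph (hD : D.Admissible) : ContinuousOn (fun p : ℝ × S2 => ph (D.om p.2) p.1) (Ici 0 ×ˢ univ) :=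
  ((c_om hD.null).sub ((continuousOn_const.mul c2_fst).mul ((c_om hD.null).log (c2_ne hD.null)))).sub
    ((c2_fst.pow 2).div (c_om hD.null) (c2_ne hD.null))

theorem c2_pd (hD : D.IsNull) (k : Fin 3) : Continuous (fun p : ℝ × E3 => pd k (D.lam p.1) p.2) := by
  have hF := lam_smooth hD
  have h1 : (fun p : ℝ × E3 => pd k (D.lam p.1) p.2) = fun p : ℝ × E3 =>
      fderiv ℝ (fun p : ℝ × E3 => D.lam p.1 p.2) p ((0 : ℝ), (EuclideanSpace.single k (1 : ℝ) : E3)) := by
    funext p
    obtain ⟨s, y⟩ := p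
    have hd : HasFDerivAt (fun p : ℝ × E3 => D.lam p.1 p.2)
        (fderiv ℝ (fun p : ℝ × E3 => D.lam p.1 p.2) (s, y))
        ((fun t : ℝ => (s, y + t • (EuclideanSpace.single k (1 : ℝ) : E3))) 0) := by
      have e : (fun t : ℝ => (s, y + t • (EuclideanSpace.single k (1 : ℝ) : E3))) 0 = (s, y) := by
        simp
      rw [e]
      exact (hF.differentiable (by simp) _).hasFDerivAt
    have hc : HasDerivAt (fun t : ℝ => (s, y + t • (EuclideanSpace.single k (1 : ℝ) : E3)))
        ((0 : ℝ), (EuclideanSpace.single k (1 : ℝ) : E3)) 0 := by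
      have h2 : HasDerivAt (fun t : ℝ => y + t • (EuclideanSpace.single k (1 : ℝ) : E3))
          (EuclideanSpace.single k (1 : ℝ) : E3) 0 := by
        have h := ((hasDerivAt_id (0 : ℝ)).smul_const (EuclideanSpace.single k (1 : ℝ) : E3)).const_add y
        simpa using h
      exact (hasDerivAt_const (0 : ℝ) s).prodMk h2
    exact (hd.comp_hasDerivAt (0 : ℝ) hc).deriv
  rw [h1]
  exact (hF.continuous_fderiv (by simp)).clm_apply continuous_const

/-- Directional derivatives, the direction depends continuously on the point. -/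
theorem c_Dv (hD : D.IsNull) {v : S2 → Fin 3 → ℝ} (hv : ∀ k, Continuous fun n => v n k) :
    ContinuousOn (fun p : ℝ × S2 => D.Dv p.2 (v p.2) p.1) (Ici 0 ×ˢ univ) := by
  have h1 : Continuous (fun p : ℝ × S2 => ∑ k, v p.2 k * pd k (D.lam p.1) p.2) :=
    continuous_finsetSum _ fun k _ => ((hv k).comp continuous_snd).mul ((c2_pd hD k).comp c2_emb)
  refine h1.continuousOn.div (continuousOn_const.mul (c_om hD)) fun p hp => ?_
  exact mul_ne_zero two_ne_zero (c2_ne hD p hp)

end MatterData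
end NullPen
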