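import Pool.Agent.Lib.H74P.FDefs

set_option autoImplicit false

/-!
Chunk FA. The integral identity. Let `X = gam f f`, `Z = ZZ f`, `Zff = Σ Z_ij L_i f L_j f`. In the algebra: `gam X f = Zff + X lap f + (1/2) X^2`
(`SA.hes_grad`: `2 Σ hes_ij L_i f L_j f = gam f (gam f f)`, definition of `ZZ`, `SA.grad_pr`). With `u = 1/(1 + X/25)` (`SFun_inv`), `φ = X^2 u/7`, `ψ = (2 X + X^2/25) u^2/7`:
`L_i φ = ψ L_i X` (derivation rule; `L_i u = - u^2 L_i X/25` from `u (1 + X/25) = 1`). `I (φ lap f) = - I (gam φ f) = - I (ψ gam X f)` (`SA.green`), and `- lap f = r - 1 + X`, so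
`∫ ((φ + X ψ)(r - 1 + X)) = ∫ ψ (Zff + X^2/2)`. At points: `u = 25/(25 + X)`.
-/

open MeasureTheory Filter Topology Set
open scoped ContDiff

namespace NullPen

open NShell

private theorem FA_int {g : S2 → ℝ} (hg : Continuous g) : Integrable g sm := stdFr.integrable g hg

private theorem FA_gamv (F G : SFun) (n : S2) : (stdSA.gam F G).1 n = ∑ i, (stdSA.L i F).1 n * (stdSA.L i G).1 n := by
  unfold SA.gam
  rw [← evS_apply]
  simp only [map_sum, map_mul, evS_apply]

private theorem FA_gam (f : SFun) (n : S2) : (stdSA.gam (stdSA.gam f f) f).1 n =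
    Zg f n + XX f n * la f n + XX f n ^ 2 / 2 := by
  have h1 := congrArg (evS n) (stdSA.hes_grad f)
  have h2 := congrArg (evS n) (stdSA.grad_pr f)
  have hz : Zg f n = evS n (∑ i, ∑ j, stdSA.ZZ f i j * stdSA.L i f * stdSA.L j f) := by
    unfold Zg
    simp only [map_sum, map_mul, evS_apply]
  rw [stdSA.gam_comm, hz]
  have hX : XX f n = evS n (stdSA.gam f f) := rfl
  have hl : la f n = evS n (stdSA.lap f) := rfl
  rw [hX, hl]
  change evS n (stdSA.gam f (stdSA.gam f f)) = _
  rw [← h1]
  have h3 : evS n (stdSA.L 0 f) * evS n (stdSA.L 0 f) + evS n (stdSA.L 1 f) * evS n (stdSA.L 1 f) +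
      evS n (stdSA.L 2 f) * evS n (stdSA.L 2 f) = evS n (stdSA.gam f f) := by
    unfold SA.gam
    rw [Fin.sum_univ_three, map_add, map_add, map_mul, map_mul, map_mul]
  unfold SA.ZZ
  simp only [Fin.sum_univ_three, map_add, map_sub, map_mul, map_smul, smul_eq_mul, map_ofNat] at h2 ⊢
  linear_combination ((evS n (stdSA.lap f) - (1 / 2 : ℝ) * evS n (stdSA.gam f f))) * h2 +
    (evS n (stdSA.L 0 f) * evS n (stdSA.L 0 f) + evS n (stdSA.L 1 f) * evS n (stdSA.L 1 f) +
      evS n (stdSA.L 2 f) * evS n (stdSA.L 2 f) + evS n (stdSA.gam f f)) * h3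

private theorem FA_phi (f : SFun) : ∃ g : SFun, (∀ n, g.1 n = fph (XX f n)) ∧
    ∀ i n, (stdSA.L i g).1 n = fps (XX f n) * (stdSA.L i (stdSA.gam f f)).1 n := by
  set t : SFun := 1 + (1 / 25 : ℝ) • stdSA.gam f f with ht
  have htv : ∀ n, t.1 n = 1 + XX f n / 25 := by
    intro n
    change 1 + (1 / 25 : ℝ) * XX f n = _
    ring
  have htp : ∀ n, 0 < t.1 n := by
    intro n
    rw [htv]
    have := XX_nonneg f n
    positivity
  have htL : ∀ i n, (stdSA.L i t).1 n = (stdSA.L i (stdSA.gam f f)).1 n / 25 := by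
    intro i n
    rw [ht, map_add, Derivation.map_smul, Derivation.map_one_eq_zero, zero_add]
    change (1 / 25 : ℝ) * _ = _
    ring
  obtain ⟨g, hg1, hg2⟩ := SFun_comp t htp (φ := fun t => 625 * (t - 1) ^ 2 / (7 * t))
    (φ' := fun t => 625 / 7 * (1 - 1 / t ^ 2)) (by
      refine ContDiffOn.div (by fun_prop) (by fun_prop) ?_
      intro x hx
      have : 0 < x := hx
      positivity) (by
      intro x hx
      have h1 : HasDerivAt (fun t : ℝ => 625 * (t - 1) ^ 2) (625 * (2 * (x - 1))) x := by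
        have := (((hasDerivAt_id x).sub_const 1).pow 2).const_mul 625
        simpa using this
      have h2 : HasDerivAt (fun t : ℝ => 7 * t) 7 x := by
        simpa using (hasDerivAt_id x).const_mul 7
      have h3 := h1.div h2 (by positivity)
      refine h3.congr_deriv ?_
      field_simp
      ring)
  refine ⟨g, fun n => ?_, fun i n => ?_⟩
  · rw [hg1, htv]
    unfold fph
    have := XX_nonneg f n
    field_simp
    ring
  · rw [hg2, htL, htv]
    unfold fps
    have := XX_nonneg f n
    field_simp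
    ring

theorem id_phi (f : SFun) : ∫ n : S2, (fph (XX f n) + XX f n * fps (XX f n)) * (rr f n - 1 + XX f n) ∂sm =
    ∫ n : S2, fps (XX f n) * (Zg f n + XX f n ^ 2 / 2) ∂sm := by
  obtain ⟨g, hg1, hg2⟩ := FA_phi f
  have hgam : ∀ n, (stdSA.gam g f).1 n = fps (XX f n) * (Zg f n + XX f n * la f n + XX f n ^ 2 / 2) := by
    intro n
    rw [← FA_gam, FA_gamv, FA_gamv, Finset.mul_sum]
    exact Finset.sum_congr rfl fun i _ => by rw [hg2, mul_assoc]
  have hgr := green' g f
  have hX := XX_nonneg f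
  have cX := XX_cont f
  have cl := la_cont f
  have cps : Continuous fun n => fps (XX f n) := by
    unfold fps
    refine Continuous.div (by fun_prop) (by fun_prop) ?_
    intro n
    have := hX n
    positivity
  have i1 : Integrable (fun n : S2 => g.1 n * la f n) sm := FA_int ((SFun_cont g).mul cl)
  have i2 : Integrable (fun n : S2 => XX f n * fps (XX f n) * la f n) sm := FA_int ((cX.mul cps).mul cl)
  have i3 : Integrable (fun n : S2 => (stdSA.gam g f).1 n) sm := FA_int (SFun_cont _)
  have e1 : ∀ n, (fph (XX f n) + XX f n * fps (XX f n)) * (rr f n - 1 + XX f n) =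
      - (g.1 n * la f n) - XX f n * fps (XX f n) * la f n := by
    intro n
    rw [hg1, rr_eq]
    ring
  have e2 : ∀ n, fps (XX f n) * (Zg f n + XX f n ^ 2 / 2) =
      (stdSA.gam g f).1 n - XX f n * fps (XX f n) * la f n := by
    intro n
    rw [hgam]
    ring
  simp only [e1, e2]
  have i4 : Integrable (fun n : S2 => - (g.1 n * la f n)) sm := i1.neg
  rw [integral_sub i4 i2, integral_sub i3 i2, integral_neg, ← hgr]

end NullPen
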