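import Pool.Agent.Lib.H74P.FDefs

set_option autoImplicit false

/-!
Chunk FA2. `id_boch`: `SM.idf` of H17P/K1 for `NShell.stdFr.toSM` (its integral is the integral over `sm`, by definition). `int_rr`: `rr_eq`, `la_zero`, `sm_univ'`. `Zg_sq`: see the docstring.
-/

open MeasureTheory Filter Topology Set
open scoped ContDiff

namespace NullPen

open NShell

private theorem FA2_int {g : S2 → ℝ} (hg : Continuous g) : Integrable g sm := stdFr.integrable g hg

/-- Bochner. -/
theorem id_boch (f : SFun) : ∫ n : S2, (rr f n ^ 2 - Z2 f n / 2) ∂sm = 4 * Real.pi + 3 / 4 * ∫ n : S2, XX f n ^ 2 ∂sm := by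
  have h := stdFr.toSM.idf f
  have e1 : stdFr.toSM.I (stdSA.rf f ^ 2 - (1 / 2 : ℝ) • ∑ i, ∑ j, stdSA.ZZ f i j ^ 2) =
      ∫ n : S2, (rr f n ^ 2 - Z2 f n / 2) ∂sm := by
    change ∫ n : S2, (stdSA.rf f ^ 2 - (1 / 2 : ℝ) • ∑ i, ∑ j, stdSA.ZZ f i j ^ 2).1 n ∂sm = _
    congr 1
    funext n
    rw [← evS_apply]
    simp only [map_sub, map_pow, map_smul, map_sum, evS_apply, smul_eq_mul]
    unfold rr Z2
    ring
  have e2 : stdFr.toSM.I (stdSA.gam f f ^ 2) = ∫ n : S2, XX f n ^ 2 ∂sm := rfl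
  rw [← e1, ← e2]
  exact h

theorem int_rr (f : SFun) : ∫ n : S2, rr f n ∂sm = 4 * Real.pi - ∫ n : S2, XX f n ∂sm := by
  simp only [rr_eq]
  have h1 : Integrable (fun _ : S2 => (1 : ℝ)) sm := FA2_int continuous_const
  have h2 : Integrable (fun n : S2 => 1 - la f n) sm := h1.sub (FA2_int (la_cont f))
  rw [integral_sub h2 (FA2_int (XX_cont f)), integral_sub h1 (FA2_int (la_cont f)),
    la_zero, integral_const, sm_univ']
  simp

theorem Z2_cont (f : SFun) : Continuous (Z2 f) := by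
  unfold Z2
  exact continuous_finsetSum _ fun i _ => continuous_finsetSum _ fun j _ => (SFun_cont _).pow 2

theorem Zg_cont (f : SFun) : Continuous (Zg f) := by
  unfold Zg
  exact continuous_finsetSum _ fun i _ => continuous_finsetSum _ fun j _ =>
    ((SFun_cont _).mul (SFun_cont _)).mul (SFun_cont _)

private theorem FA2_alg (B : Fin 3 → Fin 3 → ℝ) (x g : Fin 3 → ℝ) (hx : ∑ i, x i ^ 2 = 1)
    (hs : ∀ i j, B i j = B j i) (hB : ∀ i, ∑ j, B i j * x j = 0) (ht : ∑ i, B i i = 0)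
    (hg : ∑ i, x i * g i = 0) :
    (∑ i, ∑ j, B i j * g i * g j) ^ 2 ≤ (∑ i, ∑ j, B i j ^ 2) / 2 * (∑ i, g i ^ 2) ^ 2 := by
  have hc := NShell.cayley B x 0 (-(∑ i, ∑ j, B i j ^ 2) / 2) hx hs hB ht.symm (by ring)
  set N := ∑ i, ∑ j, B i j ^ 2 with hN
  have e1 : ∑ i, ∑ j, B i j * g i * g j = ∑ i, g i * ∑ j, B i j * g j := by
    refine Finset.sum_congr rfl fun i _ => ?_
    rw [Finset.mul_sum]
    exact Finset.sum_congr rfl fun j _ => by ring
  have e2 : ∑ i, (∑ j, B i j * g j) ^ 2 = N / 2 * ∑ i, g i ^ 2 := by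
    have e3 : ∑ i, (∑ j, B i j * g j) ^ 2 = ∑ i, ∑ j, (∑ k, B i k * B k j) * (g i * g j) := by
      have s10 := hs 1 0
      have s20 := hs 2 0
      have s21 := hs 2 1
      simp only [Fin.sum_univ_three]
      rw [s10, s20, s21]
      ring
    have e4 : ∀ i j, (∑ k, B i k * B k j) = N / 2 * ((if i = j then 1 else 0) - x i * x j) := by
      intro i j
      have h := hc i j
      linarith
    rw [e3]
    simp only [e4]
    simp only [Fin.sum_univ_three] at hg ⊢
    simp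
    linear_combination (-(N / 2) * (x 0 * g 0 + x 1 * g 1 + x 2 * g 2)) * hg
  have e5 := Finset.sum_mul_sq_le_sq_mul_sq Finset.univ g (fun i => ∑ j, B i j * g j)
  rw [e1]
  refine e5.trans (le_of_eq ?_)
  rw [e2]
  ring

/-- `Z` is symmetric, kills `x` and has trace zero: `Z^2 = (|Z|^2/2) P` (`NShell.cayley`), so
`(g, Z g)^2 <= |g|^2 |Z g|^2 = (|Z|^2/2) |g|^4`. -/
theorem Zg_sq (f : SFun) (n : S2) : Zg f n ^ 2 ≤ Z2 f n / 2 * XX f n ^ 2 := by
  have hX : XX f n = ∑ i, (stdSA.L i f).1 n ^ 2 := by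
    unfold XX SA.gam
    rw [← evS_apply]
    simp only [map_sum, map_mul, evS_apply]
    exact Finset.sum_congr rfl fun i _ => (pow_two _).symm
  have hsym : ∀ i j, stdSA.ZZ f i j = stdSA.ZZ f j i := by
    intro i j
    unfold SA.ZZ
    rw [stdSA.hes_symm f i j, stdSA.pr_symm i j, mul_comm (stdSA.L i f)]
  have hzx : ∀ i, ∑ j, stdSA.ZZ f i j * stdSA.x j = 0 := by
    intro i
    have h1 := stdSA.hes_x f i
    have h2 := stdSA.pr_x i
    have h3 := stdSA.rad f
    unfold SA.ZZ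
    simp only [Fin.sum_univ_three] at h1 h2 ⊢
    linear_combination 2 * h1 - stdSA.L i f * h3 - (stdSA.lap f - (1 / 2 : ℝ) • stdSA.gam f f) * h2
  have htr : ∑ i, stdSA.ZZ f i i = 0 := by
    rw [← stdSA.pr_tr (fun i j => stdSA.ZZ f i j) hsym hzx]
    exact stdSA.Z_tr f
  have hsq : ∑ i, (stdSA.x i).1 n ^ 2 = 1 := by
    have h := congrArg (evS n) stdSA.sq
    simp only [map_add, map_mul, map_one, evS_apply] at h
    rw [Fin.sum_univ_three]
    linarith
  have hgx : ∑ i, (stdSA.x i).1 n * (stdSA.L i f).1 n = 0 := by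
    have h := congrArg (evS n) (stdSA.rad f)
    simp only [map_add, map_mul, map_zero, evS_apply] at h
    rw [Fin.sum_univ_three]
    exact h
  rw [hX]
  unfold Zg Z2
  refine FA2_alg (fun i j => (stdSA.ZZ f i j).1 n) (fun i => (stdSA.x i).1 n) (fun i => (stdSA.L i f).1 n) hsq
    (fun i j => by rw [hsym]) (fun i => ?_) ?_ hgx
  · have h := congrArg (evS n) (hzx i)
    simp only [map_sum, map_mul, map_zero, evS_apply] at h
    exact h
  · have h := congrArg (evS n) htr
    simp only [map_sum, map_zero, evS_apply] at h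
    exact h

end NullPen
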