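import Pool.Agent.Lib.H74P.Ray

set_option autoImplicit false

/-!
Chunk FB. The pointwise inequality (real numbers). Let `φ = X^2/(7 u)`, `ψ = (2 X + X^2/25)/(7 u^2)`, `u = 1 + X/25`, `F = φ + X ψ = X^2 (3 + 2 X/25)/(7 u^2)`,
`P = (3/4) X^2 - (1/4) ψ^2 X^2 - (1/2) ψ X^2 + F (X - 1)`.
1. `Z/2 - ψ G >= - ψ^2 X^2/4` (`G^2 <= Z X^2/2`: `Z/2 - ψ G + ψ^2 X^2/4 >= 0` as `|ψ G| <= ψ X sqrt(Z/2)`, square `(sqrt(Z/2) - ψ X/2)^2 >= 0`).
2. `l (2 - l) r^2 - 2 l r e >= min 0 (r^2 - 2 r e)`: equal to `l ((1 - l) r^2 + (r^2 - 2 r e))`.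
3. So the left side is at least `P + F r + min 0 (r^2 - 2 r e)`, and it is enough to have `P >= 0` and `P + r^2 - (2 e - F) r >= 0`, i.e. `P >= 0` and
`4 P >= (2 e - F)^2` if `3 X >= 1` (if `3 X < 1`, `e = 0` and `P >= 0` is enough).
4. `P >= 0`: `P u^4/X^2` is a polynomial of degree 4 in `X` with positive coefficients `0.3214, 0.36, 0.01662, 0.00050, 0.0000075`.
5. `3 X >= 1`: put `3 X = (1 + z)^2`, `z >= 0`, `e = z^2`. `u^4 (4 P - (2 e - F)^2)` is four times a polynomial of degree 12 in `z` with coefficients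
`0.0487, 0.2199, 0.4531, 0.5891, -0.5340, 0.1722, 0.0160, 0.0029, 0.00031, 0.000021, 0.0000025, 0.000000085, 0.0000000091`; the only negative term is absorbed by its
neighbours: `0.5891 - 0.5340 z + 0.1722 z^2 > 0`.
-/

open MeasureTheory Filter Topology Set

namespace NullPen

/-- The polynomial of degree 12. -/
theorem fb_poly12 {z : ℝ} (hz : 0 ≤ z) : 0 ≤ 1358454611 / 27907031250 * z ^ 0 + 340904399 / 1550390625 * z ^ 1 + 1405047289 / 3100781250 * z ^ 2 + 10649579 / 664453125 * z ^ 6 + 912398 / 310078125 * z ^ 7 + 386023 / 1240312500 * z ^ 8 + 287464 / 13953515625 * z ^ 9 + 767 / 310078125 * z ^ 10 + 44 / 516796875 * z ^ 11 + 127 / 13953515625 * z ^ 12 + z ^ 3 * (1643981417 / 2790703125 - 3311932411 / 6201562500 * z + 266914792 / 1550390625 * z ^ 2) := by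
  have h1 : 0 ≤ (1643981417 / 2790703125 : ℝ) - 3311932411 / 6201562500 * z + 266914792 / 1550390625 * z ^ 2 := by
    nlinarith [sq_nonneg (z - 8 / 5)]
  have h2 : 0 ≤ z ^ 3 * ((1643981417 / 2790703125 : ℝ) - 3311932411 / 6201562500 * z + 266914792 / 1550390625 * z ^ 2) :=
    mul_nonneg (pow_nonneg hz 3) h1
  have h3 : 0 ≤ 1358454611 / 27907031250 * z ^ 0 + 340904399 / 1550390625 * z ^ 1 + 1405047289 / 3100781250 * z ^ 2 + 10649579 / 664453125 * z ^ 6 + 912398 / 310078125 * z ^ 7 + 386023 / 1240312500 * z ^ 8 + 287464 / 13953515625 * z ^ 9 + 767 / 310078125 * z ^ 10 + 44 / 516796875 * z ^ 11 + 127 / 13953515625 * z ^ 12 := by positivity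
  linarith

theorem fb_amgm {A B c : ℝ} (hA : 0 ≤ A) (hB : 0 ≤ B) (h : c ^ 2 ≤ A * B) : 2 * c ≤ A + B := by
  have h1 : (2 * c) ^ 2 ≤ (A + B) ^ 2 := by nlinarith [sq_nonneg (A - B)]
  exact (le_abs_self _).trans (abs_le_of_sq_le_sq h1 (by linarith))

theorem fin_pt {X r l Z G : ℝ} (hX : 0 ≤ X) (hr : 0 ≤ r) (hl : 0 ≤ l) (hl1 : l ≤ 1) (hZ : 0 ≤ Z) (hG : G ^ 2 ≤ Z / 2 * X ^ 2) :
    0 ≤ l * (2 - l) * r ^ 2 - 2 * l * r * ee X + 3 / 4 * X ^ 2 + Z / 2
      - (2 * X + X ^ 2 / 25) / (7 * (1 + X / 25) ^ 2) * (G + X ^ 2 / 2)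
      + (X ^ 2 / (7 * (1 + X / 25)) + X * ((2 * X + X ^ 2 / 25) / (7 * (1 + X / 25) ^ 2))) * (r - 1 + X) := by
  have hu : 0 < 1 + X / 25 := by positivity
  have hψ : (2 * X + X ^ 2 / 25) / (7 * (1 + X / 25) ^ 2) * (7 * (1 + X / 25) ^ 2) = 2 * X + X ^ 2 / 25 :=
    div_mul_cancel₀ _ (by positivity)
  have hF : (X ^ 2 / (7 * (1 + X / 25)) + X * ((2 * X + X ^ 2 / 25) / (7 * (1 + X / 25) ^ 2))) * (7 * (1 + X / 25) ^ 2)
      = X ^ 2 * (3 + 2 * X / 25) := by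
    field_simp
    ring
  have hψ0 : 0 ≤ (2 * X + X ^ 2 / 25) / (7 * (1 + X / 25) ^ 2) := by positivity
  have hF0 : 0 ≤ X ^ 2 / (7 * (1 + X / 25)) + X * ((2 * X + X ^ 2 / 25) / (7 * (1 + X / 25) ^ 2)) := by positivity
  set F := X ^ 2 / (7 * (1 + X / 25)) + X * ((2 * X + X ^ 2 / 25) / (7 * (1 + X / 25) ^ 2)) with hFdef
  set ψ := (2 * X + X ^ 2 / 25) / (7 * (1 + X / 25) ^ 2) with hψdef
  clear_value F ψ
  set P := 3 / 4 * X ^ 2 - ψ ^ 2 * X ^ 2 / 4 - ψ * X ^ 2 / 2 + F * (X - 1) with hP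
  have hPu : P * (196 * (1 + X / 25) ^ 4) = X ^ 2 * (147 * (1 + X / 25) ^ 4 - (2 * X + X ^ 2 / 25) ^ 2
      - 14 * (2 * X + X ^ 2 / 25) * (1 + X / 25) ^ 2 + 28 * (1 + X / 25) ^ 2 * (3 + 2 * X / 25) * (X - 1)) := by
    have e1 : P * (196 * (1 + X / 25) ^ 4) = 147 * X ^ 2 * (1 + X / 25) ^ 4 - (ψ * (7 * (1 + X / 25) ^ 2)) ^ 2 * X ^ 2
        - 14 * (ψ * (7 * (1 + X / 25) ^ 2)) * X ^ 2 * (1 + X / 25) ^ 2
        + 28 * (1 + X / 25) ^ 2 * (F * (7 * (1 + X / 25) ^ 2)) * (X - 1) := by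
      rw [hP]; ring
    rw [e1, hψ, hF]; ring
  have hP0 : 0 ≤ P := by
    have e2 : X ^ 2 * (147 * (1 + X / 25) ^ 4 - (2 * X + X ^ 2 / 25) ^ 2
      - 14 * (2 * X + X ^ 2 / 25) * (1 + X / 25) ^ 2 + 28 * (1 + X / 25) ^ 2 * (3 + 2 * X / 25) * (X - 1))
      = 196 * X ^ 2 * (9 / 28 + 9 / 25 * X + 509 / 30625 * X ^ 2 + 383 / 765625 * X ^ 3 + 143 / 19140625 * X ^ 4) := by
      ring
    have e3 : 0 ≤ P * (196 * (1 + X / 25) ^ 4) := by rw [hPu, e2]; positivity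
    by_contra hneg
    push Not at hneg
    have : P * (196 * (1 + X / 25) ^ 4) < 0 := mul_neg_of_neg_of_pos hneg (by positivity)
    linarith
  have s1 : ψ * G ≤ Z / 2 + ψ ^ 2 * X ^ 2 / 4 := by
    have := fb_amgm (A := Z / 2) (B := ψ ^ 2 * X ^ 2 / 4) (c := ψ * G / 2) (by positivity) (by positivity) (by
      have := mul_le_mul_of_nonneg_left hG (sq_nonneg ψ)
      nlinarith)
    linarith
  have he0 : 0 ≤ ee X := sq_nonneg _
  have hFr : 0 ≤ F * r := mul_nonneg hF0 hr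
  have hll : 0 ≤ l * (1 - l) * r ^ 2 := mul_nonneg (mul_nonneg hl (by linarith)) (sq_nonneg r)
  have fin : 0 ≤ P + F * r + (l * (2 - l) * r ^ 2 - 2 * l * r * ee X) := by
    rcases le_total 0 (r ^ 2 - 2 * r * ee X) with h1 | h1
    · have h2 : 0 ≤ l * (r ^ 2 - 2 * r * ee X) := mul_nonneg hl h1
      nlinarith
    · have h2 : r ^ 2 - 2 * r * ee X ≤ l * (r ^ 2 - 2 * r * ee X) := by nlinarith
      have h3 : 0 ≤ P + F * r + (r ^ 2 - 2 * r * ee X) := by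
        rcases le_total (Real.sqrt (3 * X)) 1 with h4 | h4
        · have : ee X = 0 := by
            unfold ee
            rw [max_eq_right (by linarith)]; norm_num
          rw [this]
          nlinarith [sq_nonneg r]
        · have hee : ee X = (Real.sqrt (3 * X) - 1) ^ 2 := by
            unfold ee
            rw [max_eq_left (by linarith)]
          have hsq : Real.sqrt (3 * X) ^ 2 = 3 * X := Real.sq_sqrt (by positivity)
          obtain ⟨z, hz⟩ : ∃ z, z = Real.sqrt (3 * X) - 1 := ⟨_, rfl⟩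
          have hz0 : 0 ≤ z := by rw [hz]; linarith
          have hXz : X = (1 + z) ^ 2 / 3 := by
            rw [hz]
            have : (1 + (Real.sqrt (3 * X) - 1)) = Real.sqrt (3 * X) := by ring
            rw [this, hsq]; ring
          rw [← hz] at hee
          have hmain : 0 ≤ 4 * P - (2 * ee X - F) ^ 2 := by
            have e4 : (4 * P - (2 * ee X - F) ^ 2) * (49 * (1 + X / 25) ^ 4)
                = X ^ 2 * (147 * (1 + X / 25) ^ 4 - (2 * X + X ^ 2 / 25) ^ 2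
      - 14 * (2 * X + X ^ 2 / 25) * (1 + X / 25) ^ 2 + 28 * (1 + X / 25) ^ 2 * (3 + 2 * X / 25) * (X - 1))
                  - (14 * z ^ 2 * (1 + X / 25) ^ 2 - X ^ 2 * (3 + 2 * X / 25)) ^ 2 := by
              rw [← hPu, ← hF, hee]; ring
            have e5 : X ^ 2 * (147 * (1 + X / 25) ^ 4 - (2 * X + X ^ 2 / 25) ^ 2
      - 14 * (2 * X + X ^ 2 / 25) * (1 + X / 25) ^ 2 + 28 * (1 + X / 25) ^ 2 * (3 + 2 * X / 25) * (X - 1))
                  - (14 * z ^ 2 * (1 + X / 25) ^ 2 - X ^ 2 * (3 + 2 * X / 25)) ^ 2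
                = 196 * (1358454611 / 27907031250 * z ^ 0 + 340904399 / 1550390625 * z ^ 1 + 1405047289 / 3100781250 * z ^ 2 + 10649579 / 664453125 * z ^ 6 + 912398 / 310078125 * z ^ 7 + 386023 / 1240312500 * z ^ 8 + 287464 / 13953515625 * z ^ 9 + 767 / 310078125 * z ^ 10 + 44 / 516796875 * z ^ 11 + 127 / 13953515625 * z ^ 12 + z ^ 3 * (1643981417 / 2790703125 - 3311932411 / 6201562500 * z + 266914792 / 1550390625 * z ^ 2)) := by
              rw [hXz]; ring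
            have e6 : 0 ≤ (4 * P - (2 * ee X - F) ^ 2) * (49 * (1 + X / 25) ^ 4) := by
              rw [e4, e5]
              exact mul_nonneg (by norm_num) (fb_poly12 hz0)
            by_contra hneg
            push Not at hneg
            have : (4 * P - (2 * ee X - F) ^ 2) * (49 * (1 + X / 25) ^ 4) < 0 :=
              mul_neg_of_neg_of_pos hneg (by positivity)
            linarith
          nlinarith [sq_nonneg (2 * r - (2 * ee X - F))]
      nlinarith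
  have : l * (2 - l) * r ^ 2 - 2 * l * r * ee X + 3 / 4 * X ^ 2 + Z / 2 - ψ * (G + X ^ 2 / 2) + F * (r - 1 + X)
      = (P + F * r + (l * (2 - l) * r ^ 2 - 2 * l * r * ee X)) + (Z / 2 + ψ ^ 2 * X ^ 2 / 4 - ψ * G) := by
    rw [hP]; ring
  rw [this]
  linarith

end NullPen
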