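import Pool.Agent.Lib.H74P.FA
import Pool.Agent.Lib.H74P.FA2
import Pool.Agent.Lib.H74P.FB

set_option autoImplicit false

/-!
Chunk FC. For `rr f >= 0` and `0 <= l <= 1` : `∫ (r^2 - l r ee X) >= (1/2) ∫ (1-l)^2 r^2 + 2 pi`. Integrate `fin_pt` over the sphere with `r = rr f`, `X = XX f`, `Z = Z2 f`, `G = Zg f`
(`Zg_sq`), use `id_phi`: `∫ (l (2-l) r^2 - 2 l r ee + (3/4) X^2 + Z2/2) >= 0`, add `id_boch`: `∫ (r^2 - (3/4) X^2 - Z2/2) = 4 pi`, divide by 2 (`r^2 (1 - l (2 - l)) = (1-l)^2 r^2`).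
-/

open MeasureTheory Filter Topology Set
open scoped ContDiff

namespace NullPen

private theorem FC_int6 {a b c d e g : S2 → ℝ} (ha : Integrable a sm) (hb : Integrable b sm) (hc : Integrable c sm)
    (hd : Integrable d sm) (he : Integrable e sm) (hg : Integrable g sm) :
    ∫ n, (a n - b n - c n + d n - e n + g n) ∂sm =
      (∫ n, a n ∂sm) - (∫ n, b n ∂sm) - (∫ n, c n ∂sm) + (∫ n, d n ∂sm) - (∫ n, e n ∂sm) + ∫ n, g n ∂sm := by
  have h1 : Integrable (fun n => a n - b n) sm := ha.sub hb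
  have h2 : Integrable (fun n => a n - b n - c n) sm := h1.sub hc
  have h3 : Integrable (fun n => a n - b n - c n + d n) sm := h2.add hd
  have h4 : Integrable (fun n => a n - b n - c n + d n - e n) sm := h3.sub he
  rw [integral_add h4 hg, integral_sub h3 he, integral_add h2 hd, integral_sub h1 hc, integral_sub ha hb]

theorem fin_int (f : NShell.SFun) (hr : ∀ n, 0 ≤ rr f n) {l : S2 → ℝ} (cl : Continuous l) (l0 : ∀ n, 0 ≤ l n) (l1 : ∀ n, l n ≤ 1) :
    (1 / 2 : ℝ) * (∫ n : S2, (1 - l n) ^ 2 * rr f n ^ 2 ∂sm) + 2 * Real.pi ≤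
      ∫ n : S2, (rr f n ^ 2 - l n * rr f n * ee (XX f n)) ∂sm := by
  have hX := XX_nonneg f
  have cX := XX_cont f
  have cr := rr_cont f
  have cZ := Z2_cont f
  have cG := Zg_cont f
  have ce : Continuous fun n => ee (XX f n) := ee_cont.comp cX
  have cps : Continuous fun n => fps (XX f n) := by
    unfold fps
    refine Continuous.div (by fun_prop) (by fun_prop) ?_
    intro n
    have := hX n
    positivity
  have cph : Continuous fun n => fph (XX f n) := by
    unfold fph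
    refine Continuous.div (by fun_prop) (by fun_prop) ?_
    intro n
    have := hX n
    positivity
  have int : ∀ {g : S2 → ℝ}, Continuous g → Integrable g sm := fun {g} hg => NShell.stdFr.integrable g hg
  have hpt : ∀ n, 0 ≤ 2 * (rr f n ^ 2 - l n * rr f n * ee (XX f n)) - (1 - l n) ^ 2 * rr f n ^ 2 -
      (rr f n ^ 2 - Z2 f n / 2) + 3 / 4 * XX f n ^ 2 - fps (XX f n) * (Zg f n + XX f n ^ 2 / 2) +
      (fph (XX f n) + XX f n * fps (XX f n)) * (rr f n - 1 + XX f n) := by
    intro n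
    have hZ : 0 ≤ Z2 f n := Finset.sum_nonneg fun i _ => Finset.sum_nonneg fun j _ => sq_nonneg _
    have h := fin_pt (hX n) (hr n) (l0 n) (l1 n) hZ (Zg_sq f n)
    refine h.trans (le_of_eq ?_)
    unfold fps fph
    ring
  have i1 : Integrable (fun n => 2 * (rr f n ^ 2 - l n * rr f n * ee (XX f n))) sm := int (by fun_prop)
  have i2 : Integrable (fun n => (1 - l n) ^ 2 * rr f n ^ 2) sm := int (by fun_prop)
  have i3 : Integrable (fun n => rr f n ^ 2 - Z2 f n / 2) sm := int (by fun_prop)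
  have i4 : Integrable (fun n => 3 / 4 * XX f n ^ 2) sm := int (by fun_prop)
  have i5 : Integrable (fun n => fps (XX f n) * (Zg f n + XX f n ^ 2 / 2)) sm := int (by fun_prop)
  have i6 : Integrable (fun n => (fph (XX f n) + XX f n * fps (XX f n)) * (rr f n - 1 + XX f n)) sm :=
    int (by fun_prop)
  have h0 : 0 ≤ ∫ n : S2, (2 * (rr f n ^ 2 - l n * rr f n * ee (XX f n)) - (1 - l n) ^ 2 * rr f n ^ 2 -
      (rr f n ^ 2 - Z2 f n / 2) + 3 / 4 * XX f n ^ 2 - fps (XX f n) * (Zg f n + XX f n ^ 2 / 2) +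
      (fph (XX f n) + XX f n * fps (XX f n)) * (rr f n - 1 + XX f n)) ∂sm := integral_nonneg hpt
  rw [FC_int6 i1 i2 i3 i4 i5 i6] at h0
  rw [id_phi, id_boch, integral_const_mul, integral_const_mul] at h0
  linarith

end NullPen
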