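import Pool.Agent.Lib.H74P.L0B

set_option autoImplicit false

/-!
Definitions for the final inequality.
-/

open MeasureTheory Filter Topology Set
open scoped ContDiff

namespace NullPen

open NShell

/-- `φ`. -/
noncomputable def fph (X : ℝ) : ℝ := X ^ 2 / (7 * (1 + X / 25))

/-- `φ'`. -/
noncomputable def fps (X : ℝ) : ℝ := (2 * X + X ^ 2 / 25) / (7 * (1 + X / 25) ^ 2)

/-- `|ZZ|^2` at a point. -/
noncomputable def Z2 (f : SFun) (n : S2) : ℝ := ∑ i, ∑ j, (stdSA.ZZ f i j).1 n ^ 2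

/-- `ZZ(grad f, grad f)` at a point. -/
noncomputable def Zg (f : SFun) (n : S2) : ℝ := ∑ i, ∑ j, (stdSA.ZZ f i j).1 n * (stdSA.L i f).1 n * (stdSA.L j f).1 n

end NullPen
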