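import Pool.Agent.Lib.H74P.L0B

set_option autoImplicit false

/-!
Chunk PE. `NShell.perron1 NShell.stdFr s` (H17P/PER) gives `ψ, f` with `|ψ - lap ψ - μ s ψ| <= ε ψ`; by `SM.rf_psi` `ψ rf f = ψ - lap ψ`, so `|rf f - μ s| <= ε` (see the proof of `final2` in H17P/K1).
-/

open MeasureTheory Filter Topology Set
open scoped ContDiff

namespace NullPen

theorem perr (s : NShell.SFun) (hs : ∀ n, 0 < s.1 n) : ∃ μ : ℝ, 0 < μ ∧ ∀ ε : ℝ, 0 < ε → ∃ f : NShell.SFun,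
    ∀ n, |rr f n - μ * s.1 n| ≤ ε := by
  obtain ⟨μ, hμ, hψ⟩ := NShell.perron1 NShell.stdFr s hs
  refine ⟨μ, hμ, fun ε hε => ?_⟩
  obtain ⟨ψ, g, hpos, hlog, happ⟩ := hψ ε hε
  refine ⟨g, fun p => ?_⟩
  have h1 := happ p
  have h2 := NShell.stdFr.toSM.rf_psi ψ g hlog p
  rw [map_sub, ← h2, NShell.SM.ev_smul, map_mul] at h1
  have h3 : NShell.stdFr.toSM.ev p ψ * NShell.stdFr.toSM.ev p (NShell.stdFr.toSM.toSA.rf g) -
      μ * (NShell.stdFr.toSM.ev p s * NShell.stdFr.toSM.ev p ψ) =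
      NShell.stdFr.toSM.ev p ψ * (NShell.stdFr.toSM.ev p (NShell.stdFr.toSM.toSA.rf g) -
        μ * NShell.stdFr.toSM.ev p s) := by ring
  rw [h3, abs_mul, abs_of_pos (hpos p), mul_comm ε] at h1
  exact le_of_mul_le_mul_left h1 (hpos p)

end NullPen
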