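import Pool.Agent.Lib.H74P.L0B

set_option autoImplicit false

/-!
Chunk SW. Stone-Weierstrass: the restrictions to the sphere of smooth functions are a subalgebra of `C(S2, ℝ)` which separates points (coordinates).
-/

open MeasureTheory Filter Topology Set
open scoped ContDiff

namespace NullPen

private noncomputable def SW_A : Subalgebra ℝ C(S2, ℝ) where
  carrier := {g | ∃ s : NShell.SFun, s.1 = g}
  mul_mem' := by
    rintro f g ⟨s, hs⟩ ⟨t, ht⟩
    refine ⟨s * t, ?_⟩
    funext n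
    change s.1 n * t.1 n = f n * g n
    rw [hs, ht]
  add_mem' := by
    rintro f g ⟨s, hs⟩ ⟨t, ht⟩
    refine ⟨s + t, ?_⟩
    funext n
    change s.1 n + t.1 n = f n + g n
    rw [hs, ht]
  algebraMap_mem' r := ⟨algebraMap ℝ NShell.SFun r, rfl⟩

theorem approx {h : S2 → ℝ} (ch : Continuous h) {δ : ℝ} (hδ : 0 < δ) : ∃ s : NShell.SFun, ∀ n, |s.1 n - h n| ≤ δ := by
  have hsep : SW_A.SeparatesPoints := by
    intro x y hxy
    have h1 : ∃ i : Fin 3, (x : E3) i ≠ (y : E3) i := by
      by_contra hcon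
      push Not at hcon
      apply hxy
      apply Subtype.ext
      ext i
      exact hcon i
    obtain ⟨i, hi⟩ := h1
    refine ⟨fun n => (NShell.stdx i).1 n, ⟨⟨(NShell.stdx i).1, NShell.SFun_cont _⟩, ⟨NShell.stdx i, rfl⟩, rfl⟩, ?_⟩
    exact hi
  obtain ⟨g, hg⟩ := ContinuousMap.exists_mem_subalgebra_near_continuous_of_separatesPoints SW_A hsep h ch δ hδ
  obtain ⟨s, hs⟩ := g.2
  refine ⟨s, fun n => ?_⟩
  have h2 := hg n
  rw [Real.norm_eq_abs] at h2
  rw [hs]
  exact h2.le

end NullPen
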