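import Pool.Agent.Lib.H74P.FC
import Pool.Agent.Lib.H74P.SW
import Pool.Agent.Lib.H74P.PE

set_option autoImplicit false

/-!
Chunk FF. The final inequality. `a >= a0 > 0` (compactness). Given `0 < δ < a0/2` take `s` with `|s - h| <= δ` (`approx`), so `s >= a0/2`; `μ` from `perr`; given `0 < ε <= μ δ` take `f` with
`|r - μ s| <= ε` (`r = rr f`), so `|r - μ h| <= d := ε + μ δ <= 2 μ δ` and `r >= μ a0/2 - ε > 0`. `∫ r = 4 pi - ∫ X <= 4 pi`, `∫ X <= 4 pi`, `∫ ee X <= 12 pi`; `μ (a0/2) 4 pi <= ∫ μ s <= ∫ r + 4 pi ε <= 8 pi` if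
`ε <= 1`, so `μ <= 4/a0`. With `l = (h - a)/h`: `μ (F + 12 pi c) >= ∫ (μ h r - (μ h - μ a) ee) >= ∫ (r^2 - l r ee) - d ∫ (r + ee) >= (1/2) ∫ (1-l)^2 r^2 + 2 pi - 16 pi d`
(`fin_int`), `(1-l) r >= μ a - d`, so `(1-l)^2 r^2 >= μ^2 a^2 - 2 μ a d`, and `(1/2) μ^2 ∫ a^2 + 2 pi >= μ sqrt (4 pi ∫ a^2)`. Divide by `μ` (`d/μ <= 2 δ`, `d <= 8 δ/a0`) and let `δ → 0`.
-/

open MeasureTheory Filter Topology Set
open scoped ContDiff

namespace NullPen

private theorem FF_int {g : S2 → ℝ} (hg : Continuous g) : Integrable g sm := NShell.stdFr.integrable g hg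

private theorem FF_const (r : ℝ) : ∫ _ : S2, r ∂sm = 4 * Real.pi * r := by
  rw [integral_const, sm_univ', smul_eq_mul]

private theorem FF_main {a h : S2 → ℝ} (ca : Continuous a) (ch : Continuous h) (a0 : ∀ n, 0 < a n) (ah : ∀ n, a n ≤ h n)
    {c F : ℝ} (hc : 0 ≤ c)
    (H : ∀ f : NShell.SFun, (∀ n, 0 ≤ rr f n) →
      (∫ n : S2, (h n * rr f n - (h n - a n) * ee (XX f n)) ∂sm) - c * (∫ n : S2, ee (XX f n) ∂sm) ≤ F)
    {m : ℝ} (hm : 0 < m) (ham : ∀ n, m ≤ a n) {δ : ℝ} (hδ : 0 < δ) (hδm : δ < m / 2) :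
    Real.sqrt (4 * Real.pi * ∫ n : S2, a n ^ 2 ∂sm) ≤
      F + 12 * Real.pi * c + δ * (8 / m * (∫ n : S2, a n ∂sm) + 32 * Real.pi) := by
  have hπ := Real.pi_pos
  obtain ⟨s, hs⟩ := approx ch hδ
  have hsm : ∀ n, m / 2 ≤ s.1 n := by
    intro n
    have h1 := (abs_le.1 (hs n)).1
    have h2 := ham n
    have h3 := ah n
    linarith
  obtain ⟨μ, hμ, hP⟩ := perr s fun n => lt_of_lt_of_le (by linarith) (hsm n)
  set ε : ℝ := min (μ * δ) 1 with hε
  have hε0 : 0 < ε := lt_min (by positivity) one_pos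
  have hε1 : ε ≤ μ * δ := min_le_left _ _
  have hε2 : ε ≤ 1 := min_le_right _ _
  obtain ⟨f, hf⟩ := hP ε hε0
  have hrs : ∀ n, μ * s.1 n - ε ≤ rr f n := fun n => by
    have := (abs_le.1 (hf n)).1
    linarith
  have hr0 : ∀ n, 0 ≤ rr f n := by
    intro n
    have h1 := hrs n
    have h2 : μ * (m / 2) ≤ μ * s.1 n := mul_le_mul_of_nonneg_left (hsm n) hμ.le
    have h3 : μ * δ ≤ μ * (m / 2) := mul_le_mul_of_nonneg_left hδm.le hμ.le
    linarith
  set d : ℝ := 2 * (μ * δ) with hd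
  have hd0 : 0 ≤ d := by positivity
  have hrh : ∀ n, |rr f n - μ * h n| ≤ d := by
    intro n
    have h1 := hf n
    have h2 := hs n
    have h3 : |μ * s.1 n - μ * h n| ≤ μ * δ := by
      rw [← mul_sub, abs_mul, abs_of_pos hμ]
      exact mul_le_mul_of_nonneg_left h2 hμ.le
    have h4 := abs_sub_le (rr f n) (μ * s.1 n) (μ * h n)
    linarith
  have cr := rr_cont f
  have cX := XX_cont f
  have ce : Continuous fun n => ee (XX f n) := ee_cont.comp cX
  have cs := NShell.SFun_cont s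
  have hX := XX_nonneg f
  have he : ∀ n, 0 ≤ ee (XX f n) := fun n => ee_nonneg _
  have Ir := int_rr f
  have IX0 : 0 ≤ ∫ n : S2, XX f n ∂sm := integral_nonneg hX
  have Ir0 : 0 ≤ ∫ n : S2, rr f n ∂sm := integral_nonneg hr0
  have Ie : ∫ n : S2, ee (XX f n) ∂sm ≤ 12 * Real.pi := by
    have h1 : ∫ n : S2, ee (XX f n) ∂sm ≤ ∫ n : S2, 3 * XX f n ∂sm :=
      integral_mono (FF_int ce) (FF_int (by fun_prop)) fun n => ee_le (hX n)
    rw [integral_const_mul] at h1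
    linarith
  have Ie0 : 0 ≤ ∫ n : S2, ee (XX f n) ∂sm := integral_nonneg he
  -- bound for mu
  have hμm : μ ≤ 4 / m := by
    have h1 : ∫ n : S2, μ * (m / 2) ∂sm ≤ ∫ n : S2, (rr f n + 1) ∂sm := by
      refine integral_mono (FF_int continuous_const) (FF_int (by fun_prop)) fun n => ?_
      have h2 : μ * (m / 2) ≤ μ * s.1 n := mul_le_mul_of_nonneg_left (hsm n) hμ.le
      have h3 := hrs n
      change μ * (m / 2) ≤ rr f n + 1
      linarith
    rw [FF_const, integral_add (FF_int cr) (FF_int continuous_const), FF_const] at h1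
    rw [le_div_iff₀ hm]
    have h2 : 4 * Real.pi * (μ * (m / 2)) ≤ 4 * Real.pi * 2 := by linarith
    have h3 := le_of_mul_le_mul_left h2 (by positivity)
    linarith
  -- the function l
  have hh0 : ∀ n, 0 < h n := fun n => lt_of_lt_of_le (a0 n) (ah n)
  have cl : Continuous fun n => (h n - a n) / h n := (ch.sub ca).div ch fun n => (hh0 n).ne'
  have hl0 : ∀ n, 0 ≤ (h n - a n) / h n := fun n => div_nonneg (by linarith [ah n]) (hh0 n).le
  have hl1 : ∀ n, (h n - a n) / h n ≤ 1 := fun n => by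
    rw [div_le_one (hh0 n)]
    linarith [a0 n]
  have hfin := fin_int f hr0 cl hl0 hl1
  set l : S2 → ℝ := fun n => (h n - a n) / h n with hl
  have hlh : ∀ n, l n * h n = h n - a n := fun n => div_mul_cancel₀ _ (hh0 n).ne'
  have cl' : Continuous l := cl
  have hH := H f hr0
  -- first comparison
  have h1 : (∫ n : S2, (rr f n ^ 2 - l n * rr f n * ee (XX f n)) ∂sm) - d * (∫ n : S2, (rr f n + ee (XX f n)) ∂sm) ≤
      μ * ∫ n : S2, (h n * rr f n - (h n - a n) * ee (XX f n)) ∂sm := by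
    rw [← integral_const_mul, ← integral_const_mul, ← integral_sub (FF_int (by fun_prop)) (FF_int (by fun_prop))]
    refine integral_mono (FF_int (by fun_prop)) (FF_int (by fun_prop)) fun n => ?_
    change rr f n ^ 2 - l n * rr f n * ee (XX f n) - d * (rr f n + ee (XX f n)) ≤
      μ * (h n * rr f n - (h n - a n) * ee (XX f n))
    rw [← hlh]
    have g1 := (abs_le.1 (hrh n))
    have g2 := hl0 n
    have g3 := hl1 n
    have g4 := he n
    have g5 := hr0 n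
    have g6 : 0 ≤ (d - (rr f n - μ * h n)) * rr f n := mul_nonneg (by linarith [g1.2]) g5
    have g7 : 0 ≤ (d + (rr f n - μ * h n)) * (l n * ee (XX f n)) := mul_nonneg (by linarith [g1.1]) (mul_nonneg g2 g4)
    have g8 : 0 ≤ d * ((1 - l n) * ee (XX f n)) := mul_nonneg hd0 (mul_nonneg (by linarith) g4)
    nlinarith [g6, g7, g8]
  have h2 : ∫ n : S2, (rr f n + ee (XX f n)) ∂sm ≤ 16 * Real.pi := by
    rw [integral_add (FF_int cr) (FF_int ce)]
    linarith
  have h3 : μ ^ 2 * (∫ n : S2, a n ^ 2 ∂sm) - 2 * μ * d * (∫ n : S2, a n ∂sm) ≤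
      ∫ n : S2, (1 - l n) ^ 2 * rr f n ^ 2 ∂sm := by
    rw [← integral_const_mul, ← integral_const_mul, ← integral_sub (FF_int (by fun_prop)) (FF_int (by fun_prop))]
    refine integral_mono (FF_int (by fun_prop)) (FF_int (by fun_prop)) fun n => ?_
    change μ ^ 2 * a n ^ 2 - 2 * μ * d * a n ≤ (1 - l n) ^ 2 * rr f n ^ 2
    have g1 := (abs_le.1 (hrh n)).1
    have g2 := hl0 n
    have g3 := hl1 n
    have g5 := hr0 n
    have g6 : (1 - l n) * (μ * h n - d) ≤ (1 - l n) * rr f n := mul_le_mul_of_nonneg_left (by linarith) (by linarith)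
    have g7 : (1 - l n) * h n = a n := by
      have := hlh n
      linarith
    have g8 : μ * a n - d ≤ (1 - l n) * rr f n := by
      have : (1 - l n) * (μ * h n - d) = μ * ((1 - l n) * h n) - d + l n * d := by ring
      rw [g7] at this
      have h5 : 0 ≤ l n * d := mul_nonneg g2 hd0
      linarith
    have g9 : 0 ≤ μ * a n := mul_nonneg hμ.le (a0 n).le
    nlinarith [sq_nonneg ((1 - l n) * rr f n - μ * a n), mul_nonneg g9 (sub_nonneg.2 g8)]
  have hA : 0 ≤ ∫ n : S2, a n ^ 2 ∂sm := integral_nonneg fun n => sq_nonneg _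
  have hIa : 0 ≤ ∫ n : S2, a n ∂sm := integral_nonneg fun n => (a0 n).le
  have h4 : μ * Real.sqrt (4 * Real.pi * ∫ n : S2, a n ^ 2 ∂sm) ≤ 1 / 2 * (μ ^ 2 * ∫ n : S2, a n ^ 2 ∂sm) + 2 * Real.pi := by
    have g1 : Real.sqrt (4 * Real.pi * ∫ n : S2, a n ^ 2 ∂sm) =
        2 * (Real.sqrt Real.pi * Real.sqrt (∫ n : S2, a n ^ 2 ∂sm)) := by
      rw [mul_assoc, Real.sqrt_mul (by norm_num : (0 : ℝ) ≤ 4), Real.sqrt_mul hπ.le]
      congr 1
      rw [show (4 : ℝ) = 2 ^ 2 by norm_num, Real.sqrt_sq (by norm_num)]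
    rw [g1]
    have g2 := Real.sq_sqrt hπ.le
    have g3 := Real.sq_sqrt hA
    nlinarith [sq_nonneg (μ * Real.sqrt (∫ n : S2, a n ^ 2 ∂sm) - 2 * Real.sqrt Real.pi)]
  have h5 : μ * Real.sqrt (4 * Real.pi * ∫ n : S2, a n ^ 2 ∂sm) ≤
      μ * (F + 12 * Real.pi * c) + μ * d * (∫ n : S2, a n ∂sm) + 16 * Real.pi * d := by
    have g1 : μ * (∫ n : S2, (h n * rr f n - (h n - a n) * ee (XX f n)) ∂sm) ≤ μ * (F + 12 * Real.pi * c) := by
      refine mul_le_mul_of_nonneg_left ?_ hμ.le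
      have : c * (∫ n : S2, ee (XX f n) ∂sm) ≤ c * (12 * Real.pi) := mul_le_mul_of_nonneg_left Ie hc
      linarith
    have g2 : d * (∫ n : S2, (rr f n + ee (XX f n)) ∂sm) ≤ d * (16 * Real.pi) := mul_le_mul_of_nonneg_left h2 hd0
    linarith
  have h6 : μ * Real.sqrt (4 * Real.pi * ∫ n : S2, a n ^ 2 ∂sm) ≤
      μ * (F + 12 * Real.pi * c + δ * (8 / m * (∫ n : S2, a n ∂sm) + 32 * Real.pi)) := by
    refine h5.trans ?_
    have g1 : d ≤ 8 / m * δ := by
      have := mul_le_mul_of_nonneg_right hμm hδ.le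
      rw [hd]
      calc 2 * (μ * δ) ≤ 2 * (4 / m * δ) := by linarith
        _ = _ := by ring
    have g2 : μ * d * (∫ n : S2, a n ∂sm) ≤ μ * (8 / m * δ) * (∫ n : S2, a n ∂sm) :=
      mul_le_mul_of_nonneg_right (mul_le_mul_of_nonneg_left g1 hμ.le) hIa
    have g3 : 16 * Real.pi * d = μ * (δ * (32 * Real.pi)) := by rw [hd]; ring
    rw [g3]
    nlinarith [g2]
  exact le_of_mul_le_mul_left h6 hμ

theorem final_ineq {a h : S2 → ℝ} (ca : Continuous a) (ch : Continuous h) (a0 : ∀ n, 0 < a n) (ah : ∀ n, a n ≤ h n)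
    {c F : ℝ} (hc : 0 ≤ c)
    (H : ∀ f : NShell.SFun, (∀ n, 0 ≤ rr f n) →
      (∫ n : S2, (h n * rr f n - (h n - a n) * ee (XX f n)) ∂sm) - c * (∫ n : S2, ee (XX f n) ∂sm) ≤ F) :
    Real.sqrt (4 * Real.pi * ∫ n : S2, a n ^ 2 ∂sm) ≤ F + 12 * Real.pi * c := by
  have hne : (Set.univ : Set S2).Nonempty := by
    have h : (Metric.sphere (0 : E3) 1).Nonempty := NormedSpace.sphere_nonempty.2 zero_le_one
    obtain ⟨x, hx⟩ := h
    exact ⟨⟨x, hx⟩, trivial⟩
  obtain ⟨n0, -, hn0⟩ := isCompact_univ.exists_isMinOn hne ca.continuousOn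
  have hm : ∀ n, a n0 ≤ a n := fun n => hn0 (Set.mem_univ n)
  have hIa : 0 ≤ ∫ n : S2, a n ∂sm := integral_nonneg fun n => (a0 n).le
  have hK : 0 < 8 / a n0 * (∫ n : S2, a n ∂sm) + 32 * Real.pi := by
    have h1 := a0 n0
    have h2 := Real.pi_pos
    positivity
  refine le_of_forall_pos_le_add fun η hη => ?_
  set K := 8 / a n0 * (∫ n : S2, a n ∂sm) + 32 * Real.pi with hKd
  have h1 : 0 < min (a n0 / 4) (η / K) := lt_min (by have := a0 n0; positivity) (by positivity)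
  have h2 : min (a n0 / 4) (η / K) < a n0 / 2 := lt_of_le_of_lt (min_le_left _ _) (by have := a0 n0; linarith)
  have h3 := FF_main ca ch a0 ah hc H (a0 n0) hm h1 h2
  refine h3.trans ?_
  have h4 : min (a n0 / 4) (η / K) * K ≤ η := by
    calc min (a n0 / 4) (η / K) * K ≤ η / K * K := mul_le_mul_of_nonneg_right (min_le_right _ _) hK.le
      _ = η := div_mul_cancel₀ _ hK.ne'
  linarith

end NullPen
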