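import Pool.Agent.Lib.H74P.LIM
import Pool.Agent.Lib.H74P.FF

set_option autoImplicit false

/-!
Assembly: the null Penrose inequality for shear-free null hypersurfaces crossed by matter.
-/

open MeasureTheory Filter Topology Set
open scoped ContDiff

namespace NullPen
namespace MatterData
variable {D : MatterData}

theorem penrose (hD : D.Admissible) {E : ℝ} (hE : D.BondiEnergy E) : Real.sqrt (D.area 0 / (16 * Real.pi)) ≤ E := by
  have hπ := Real.pi_pos
  obtain ⟨C, hC, hlim⟩ := lim hD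
  have key : ∀ S1 : ℝ, 1 ≤ S1 → Real.sqrt (4 * Real.pi * D.area 0) ≤ 8 * Real.pi * E + 12 * Real.pi * (C / S1 ^ 2) := by
    intro S1 hS1
    have h0 : (0 : ℝ) ≤ S1 := by linarith
    rw [area_eq hD le_rfl]
    exact final_ineq (a := fun n => D.om n 0) (h := fun n => HH (D.om n) (D.dom n) S1)
      (cont_at (F := fun s n => D.om n s) (c_om hD.null) le_rfl)
      (cont_at (F := fun s n => HH (D.om n) (D.dom n) s) (c_H hD) h0)
      (fun n => om_pos hD.null n le_rfl) (fun n => H_ge (om_ray hD n) h0) (by positivity)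
      (fun f hf => hlim E hE S1 hS1 f hf)
  have h1 : Real.sqrt (4 * Real.pi * D.area 0) ≤ 8 * Real.pi * E := by
    have ht : Tendsto (fun S1 : ℝ => 8 * Real.pi * E + 12 * Real.pi * (C / S1 ^ 2)) atTop
        (𝓝 (8 * Real.pi * E + 12 * Real.pi * 0)) := by
      refine tendsto_const_nhds.add (Tendsto.const_mul _ ?_)
      exact tendsto_const_nhds.div_atTop (tendsto_pow_atTop two_ne_zero)
    rw [mul_zero, add_zero] at ht
    exact ge_of_tendsto ht (eventually_atTop.2 ⟨1, key⟩)
  have h2 : Real.sqrt (4 * Real.pi * D.area 0) = 8 * Real.pi * Real.sqrt (D.area 0 / (16 * Real.pi)) := by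
    have e : 4 * Real.pi * D.area 0 = (8 * Real.pi) ^ 2 * (D.area 0 / (16 * Real.pi)) := by
      field_simp
      ring
    rw [e, Real.sqrt_mul (by positivity), Real.sqrt_sq (by positivity)]
  rw [h2] at h1
  exact le_of_mul_le_mul_left h1 (by positivity)

theorem area_pos (hD : D.Admissible) : 0 < D.area 0 := by
  have hc : Continuous fun n : S2 => D.om n 0 ^ 2 :=
    (cont_at (F := fun s n => D.om n s) (c_om hD.null) le_rfl).pow 2
  have hne : Nonempty S2 := by
    have h : (Metric.sphere (0 : E3) 1).Nonempty := NormedSpace.sphere_nonempty.2 zero_le_one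
    exact h.to_subtype
  obtain ⟨m, hm⟩ := hc.exists_forall_le_of_hasCompactSupport (HasCompactSupport.of_compactSpace _)
  have h0 : 0 < D.om m 0 ^ 2 := pow_pos (om_pos hD.null m le_rfl) 2
  have hf : IsFiniteMeasure sm := by
    change IsFiniteMeasure ((volume : Measure E3).toSphere)
    infer_instance
  have h2 : ∫ n : S2, D.om m 0 ^ 2 ∂sm ≤ ∫ n : S2, D.om n 0 ^ 2 ∂sm :=
    integral_mono (integrable_const _) (integrable_sm hc) hm
  rw [integral_const, smul_eq_mul, sm_univ'] at h2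
  rw [area_eq hD le_rfl]
  have := Real.pi_pos
  have h4 : 0 < 4 * Real.pi * D.om m 0 ^ 2 := by positivity
  linarith

end MatterData

theorem mainM : (∀ D : MatterData, D.Admissible → ∀ E, D.BondiEnergy E → Real.sqrt (D.area 0 / (16 * Real.pi)) ≤ E) ∧
    ∀ (A E : ℝ) (P : Fin 3 → ℝ), (∀ (u : Fin 3 → ℝ) (γ : ℝ), 0 < γ → γ ^ 2 = 1 + ∑ i, u i ^ 2 →
      ∃ D : MatterData, D.Admissible ∧ D.area 0 = A ∧ D.BondiEnergy (γ * E - ∑ i, u i * P i)) →
    Real.sqrt (∑ i, P i ^ 2) < E ∧ Real.sqrt (A / (16 * Real.pi)) ≤ Real.sqrt (E ^ 2 - ∑ i, P i ^ 2) := by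
  refine ⟨fun D hD E hE => MatterData.penrose hD hE, fun A E P h => ?_⟩
  have hπ := Real.pi_pos
  obtain ⟨D, hD, hA, _⟩ := h (fun _ => 0) 1 one_pos (by simp)
  have hA0 : 0 < A := hA ▸ MatterData.area_pos hD
  refine NShell.mass_of_all E _ P (Real.sqrt_pos.2 (by positivity)) fun u γ hγ hu => ?_
  obtain ⟨D', hD', hA', hE'⟩ := h u γ hγ hu
  rw [← hA']
  exact MatterData.penrose hD' hE'

end NullPen
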