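import Pool.Agent.Lib.H74P.G1

set_option autoImplicit false

/-!
Chunk G2. `Q <= w 0 + ∫ (dw - 1)(4 q^2 - 3 q^4)`.
Proof. With `m = dw - 1`, `q' = ((1-q) m - q)/w`, `Y' = q^2`, `g = w - s = q w`, `g' = m`: the function
`F(s) = w 0 + ∫_0^s m (4 q^2 - 3 q^4) - Q(s) - 2 q^2 Y - q^3 (w - s)` is continuous, `F 0 = 0` and has for `s > 0` the derivative
`m (4 q^2 - 3 q^4) - q^4 - 4 ((1+m)/w) Y q^2 - 4 q q' Y - 2 q^4 - 3 q^2 q' (w-s) - q^3 m`; here `3 q^2 q' (w - s) = 3 q^3 ((1-q) m - q)` and
`4 q q' Y + 4 ((1+m)/w) Y q^2 = 4 q m Y / w`, so the derivative is `m (4 q^2 - 3 q^4 - 3 q^3 (1-q) - q^3) - 4 q m Y/w = 4 m q (q (1 - q) - Y/w)`, and it is `>= 0` because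
`Y <= q s` and `s/w = 1 - q`. So `Q = w 0 + ∫ .. - 2 q^2 Y - q^3 (w - s) - F <= w 0 + ∫ ..`.
-/

open MeasureTheory Filter Topology Set

namespace NullPen
variable {w dw : ℝ → ℝ}

theorem Q_le (h : Ray w dw) {s : ℝ} (hs : 0 ≤ s) :
    QQ w dw s ≤ w 0 + ∫ t in (0 : ℝ)..s, (dw t - 1) * (4 * qq w t ^ 2 - 3 * qq w t ^ 4) := by
  have hI : ContinuousOn (fun t => (dw t - 1) * (4 * qq w t ^ 2 - 3 * qq w t ^ 4)) (Ici 0) :=
    (h.dcont.sub continuousOn_const).mul
      ((continuousOn_const.mul ((q_cont h).pow 2)).sub (continuousOn_const.mul ((q_cont h).pow 4)))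
  have h1 : 0 ≤ (∫ t in (0 : ℝ)..s, (dw t - 1) * (4 * qq w t ^ 2 - 3 * qq w t ^ 4)) - QQ w dw s
      - 2 * (qq w s ^ 2 * YY w s) - qq w s ^ 3 * (w s - s) + w 0 := by
    apply nonneg_of_der (F := fun s => (∫ t in (0 : ℝ)..s, (dw t - 1) * (4 * qq w t ^ 2 - 3 * qq w t ^ 4))
        - QQ w dw s - 2 * (qq w s ^ 2 * YY w s) - qq w s ^ 3 * (w s - s) + w 0)
      (F' := fun s => 4 * (dw s - 1) * qq w s * (qq w s * (1 - qq w s) - YY w s / w s)) ?_ ?_ ?_ ?_ hs
    · exact ((((g1_int_cont hI).sub (Q_cont h)).sub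
        (continuousOn_const.mul (((q_cont h).pow 2).mul (Y_cont h)))).sub
        (((q_cont h).pow 3).mul (h.cont.sub continuousOn_id))).add continuousOn_const
    · intro t ht
      have hq := q_der h ht
      have h2 := ((((g1_int_der hI ht).sub (Q_der h ht)).sub
        (((hq.pow 2).mul (Y_der h ht)).const_mul 2)).sub
        ((hq.pow 3).mul ((h.der t ht).sub (hasDerivAt_id t)))).add_const (w 0)
      refine h2.congr_deriv ?_
      have h0 := (h.pos t ht.le).ne'
      have hw : w t - t = qq w t * w t := by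
        unfold qq
        field_simp
      simp only [Pi.sub_apply, id, Pi.pow_apply, hw]
      have h3 : t = (1 - qq w t) * w t := by
        unfold qq
        field_simp
        ring
      simp only [Nat.cast_ofNat]
      generalize qq w t = q at *
      generalize YY w t = Y at *
      generalize dw t = D at *
      generalize w t = W at *
      field_simp
      ring
    · intro t ht
      have h0 := h.pos t ht.le
      have h2 := h.one t ht.le
      have h3 := q_pos h ht.le
      have h4 := Y_le h ht.le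
      have h5 : YY w t / w t ≤ qq w t * (1 - qq w t) := by
        rw [div_le_iff₀ h0]
        have h6 : (1 - qq w t) * w t = t := by
          unfold qq
          field_simp
          ring
        rw [mul_assoc, h6]
        exact h4
      have : 0 ≤ 4 * (dw t - 1) * qq w t := by
        have : 0 ≤ dw t - 1 := by linarith
        positivity
      exact mul_nonneg this (by linarith)
    · simp [Y_zero, q_zero, Q_zero]
  have h2 : 0 ≤ qq w s ^ 2 * YY w s := mul_nonneg (sq_nonneg _) (Y_nonneg h hs)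
  have h3 : 0 ≤ qq w s ^ 3 * (w s - s) :=
    mul_nonneg (pow_nonneg (q_pos h hs).le _) (by have := lt_w h hs; linarith)
  linarith

end NullPen
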