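import Pool.Agent.Lib.H74P.G1

set_option autoImplicit false

/-!
Chunk G3. `∫_0^s ka = (H + s - ph)/2`.
Proof. Both sides are continuous on `[0,∞)` and equal at `0` (`ph w 0 = w 0 = H 0`); for `s > 0`, with `m = dw - 1`,
`ph' = dw (1 - 2 s/w + s^2/w^2) - 2 log w - 2 s/w = dw q^2 - 2 log w - 2 s/w`, so the derivative of the right side is
`(q^2 m + 1 - dw q^2)/2 + log w + s/w = (1 - q^2)/2 + log w + s/w`, and `(1 - q^2)/2 = s/w - s^2/(2 w^2)`.
-/

open MeasureTheory Filter Topology Set

namespace NullPen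
variable {w dw : ℝ → ℝ}

theorem ka_cont (h : Ray w dw) : ContinuousOn (ka w) (Ici 0) := by
  unfold ka
  have h0 : ∀ s ∈ Ici (0 : ℝ), w s ≠ 0 := fun s hs => (h.pos s hs).ne'
  exact ((h.cont.log h0).add ((continuousOn_const.mul continuousOn_id).div h.cont h0)).sub
    ((continuousOn_id.pow 2).div (continuousOn_const.mul (h.cont.pow 2))
      (fun s hs => mul_ne_zero two_ne_zero (pow_ne_zero _ (h0 s hs))))

theorem g3_ph_cont (h : Ray w dw) : ContinuousOn (ph w) (Ici 0) := by
  unfold ph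
  have h0 : ∀ s ∈ Ici (0 : ℝ), w s ≠ 0 := fun s hs => (h.pos s hs).ne'
  exact (h.cont.sub ((continuousOn_const.mul continuousOn_id).mul (h.cont.log h0))).sub
    ((continuousOn_id.pow 2).div h.cont h0)

theorem g3_ph_der (h : Ray w dw) {s : ℝ} (hs : 0 < s) :
    HasDerivAt (ph w) (dw s * qq w s ^ 2 - 2 * Real.log (w s) - 2 * s / w s) s := by
  have h0 := (h.pos s hs.le).ne'
  have h1 := ((h.der s hs).sub (((hasDerivAt_id s).const_mul 2).mul ((h.der s hs).log h0))).sub
    (((hasDerivAt_id s).pow 2).div (h.der s hs) h0)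
  refine h1.congr_deriv ?_
  simp only [id, Pi.pow_apply, qq, Nat.cast_ofNat]
  field_simp
  ring

theorem ka_int (h : Ray w dw) {s : ℝ} (hs : 0 ≤ s) :
    ∫ t in (0 : ℝ)..s, ka w t = (HH w dw s + s - ph w s) / 2 := by
  have h1 := const_of_der (F := fun s => (∫ t in (0 : ℝ)..s, ka w t) - (HH w dw s + s - ph w s) / 2)
    ((g1_int_cont (ka_cont h)).sub ((((H_cont h).add continuousOn_id).sub (g3_ph_cont h)).div_const 2))
    (by
      intro t ht
      have h0 := (h.pos t ht.le).ne'
      have h2 := (g1_int_der (ka_cont h) ht).sub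
        ((((H_der h ht).add (hasDerivAt_id t)).sub (g3_ph_der h ht)).div_const 2)
      refine h2.congr_deriv ?_
      simp only [qq, ka]
      field_simp
      ring) hs
  simp only [intervalIntegral.integral_same, H_zero, ph, sub_zero, mul_zero, zero_mul] at h1
  simp only [ph]
  have h2 : (w 0 + 0 - (w 0 - 0 ^ 2 / w 0)) / 2 = 0 := by simp
  rw [h2] at h1
  linarith

end NullPen
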