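import Pool.Agent.Lib.H74P.G2

set_option autoImplicit false

/-!
Chunk G4. The pointwise lower bound. `w s - s = w 0 + ∫ m` (`m = dw - 1 >= 0`), `H = w 0 + ∫ q^2 m`, `Q <= w 0 + ∫ m (4 q^2 - 3 q^4)` (`Q_le`), so the left side minus
`H r` is at least `∫ m (1 - q^2 (1 - X - r) - (4 q^2 - 3 q^4) X - q^2 r) = ∫ m (1 - q^2)(1 - 3 q^2 X)`, and for `0 < T = q^2 <= 1`
`(1 - T)(1 - 3 T X) >= - T ee X`: if `3 X <= 1` the left side is `>= 0` and `ee X = 0`; otherwise
`T ee X + (1-T)(1-3 T X) = (1 - T sqrt (3X))^2 >= 0`.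
-/

open MeasureTheory Filter Topology Set

namespace NullPen
variable {w dw : ℝ → ℝ}

theorem g4_int_der {f : ℝ → ℝ} (hf : ContinuousOn f (Ici 0)) {s : ℝ} (hs : 0 < s) :
    HasDerivAt (fun u => ∫ t in (0 : ℝ)..u, f t) (f s) s := by
  have hi : IntervalIntegrable f volume 0 s := by
    apply ContinuousOn.intervalIntegrable
    rw [uIcc_of_le hs.le]
    exact hf.mono Icc_subset_Ici_self
  have hca : ContinuousAt f s := hf.continuousAt (Ici_mem_nhds hs)
  have hm : StronglyMeasurableAtFilter f (𝓝 s) volume :=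
    ⟨Ioi 0, Ioi_mem_nhds hs, (hf.mono Ioi_subset_Ici_self).aestronglyMeasurable measurableSet_Ioi⟩
  exact intervalIntegral.integral_hasDerivAt_right hi hm hca

theorem g4_int_cont {f : ℝ → ℝ} (hf : ContinuousOn f (Ici 0)) :
    ContinuousOn (fun u => ∫ t in (0 : ℝ)..u, f t) (Ici 0) := by
  intro s hs
  have hs0 : (0 : ℝ) ≤ s := hs
  have h1 : ContinuousOn (fun u => ∫ t in (0 : ℝ)..u, f t) (uIcc 0 (s + 1)) := by
    apply intervalIntegral.continuousOn_primitive_interval
    rw [uIcc_of_le (by linarith)]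
    exact (hf.mono Icc_subset_Ici_self).integrableOn_Icc
  rw [uIcc_of_le (by linarith)] at h1
  have h2 := h1 s ⟨hs0, by linarith⟩
  refine h2.mono_of_mem_nhdsWithin ?_
  have h3 : Iic (s + 1) ∈ 𝓝 s := Iic_mem_nhds (by linarith)
  rw [← Ici_inter_Iic]
  exact inter_mem_nhdsWithin _ h3

theorem ee_ineq {T X : ℝ} (hT : 0 ≤ T) (hT1 : T ≤ 1) (hX : 0 ≤ X) : - (T * ee X) ≤ (1 - T) * (1 - 3 * T * X) := by
  have hy : (0 : ℝ) ≤ Real.sqrt (3 * X) := Real.sqrt_nonneg _
  have hy2 : Real.sqrt (3 * X) ^ 2 = 3 * X := Real.sq_sqrt (by positivity)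
  set y := Real.sqrt (3 * X) with hydef
  unfold ee
  rw [← hydef]
  rcases le_total y 1 with h1 | h1
  · rw [max_eq_right (by linarith)]
    have h2 : 3 * X ≤ 1 := by rw [← hy2]; nlinarith
    have h3 : T * (3 * X) ≤ 1 := by nlinarith
    have h4 : 0 ≤ (1 - T) * (1 - 3 * T * X) := mul_nonneg (by linarith) (by nlinarith)
    simpa using h4
  · rw [max_eq_left (by linarith)]
    have h2 : T * (y - 1) ^ 2 + (1 - T) * (1 - 3 * T * X) = (1 - T * y) ^ 2 := by
      have : 3 * T * X = T * y ^ 2 := by rw [hy2]; ring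
      rw [this]; ring
    nlinarith [sq_nonneg (1 - T * y)]

theorem pt_ineq (h : Ray w dw) {s : ℝ} (hs : 0 ≤ s) {X : ℝ} (hX : 0 ≤ X) (r : ℝ) :
    HH w dw s * r - (HH w dw s - w 0) * ee X ≤ w s - s - HH w dw s * (1 - X - r) - QQ w dw s * X := by
  have hQ := Q_le h hs
  have hqc := q_cont h
  have hfc : ContinuousOn (fun t => (dw t - 1) * (4 * qq w t ^ 2 - 3 * qq w t ^ 4)) (Ici 0) :=
    (h.dcont.sub continuousOn_const).mul
      ((continuousOn_const.mul (hqc.pow 2)).sub (continuousOn_const.mul (hqc.pow 4)))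
  have hJc := g4_int_cont hfc
  have hJd := fun (t : ℝ) (ht : 0 < t) => g4_int_der hfc ht
  set J : ℝ → ℝ := fun u => ∫ t in (0 : ℝ)..u, (dw t - 1) * (4 * qq w t ^ 2 - 3 * qq w t ^ 4) with hJ
  have hJ0 : J 0 = 0 := by simp [hJ]
  have key : 0 ≤ (w s - s) - HH w dw s * (1 - X) - (w 0 + J s) * X + (HH w dw s - w 0) * ee X := by
    refine nonneg_of_der (F := fun s => (w s - s) - HH w dw s * (1 - X) - (w 0 + J s) * X + (HH w dw s - w 0) * ee X)
      (F' := fun s => (dw s - 1) - (qq w s ^ 2 * (dw s - 1)) * (1 - X)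
      - ((dw s - 1) * (4 * qq w s ^ 2 - 3 * qq w s ^ 4)) * X + (qq w s ^ 2 * (dw s - 1)) * ee X) ?_ ?_ ?_ ?_ hs
    · exact (((h.cont.sub continuousOn_id).sub ((H_cont h).mul continuousOn_const)).sub
        ((continuousOn_const.add hJc).mul continuousOn_const)).add
        (((H_cont h).sub continuousOn_const).mul continuousOn_const)
    · intro t ht
      have a1 := (h.der t ht).sub (hasDerivAt_id t)
      have a2 := (H_der h ht).mul_const (1 - X)
      have a3 := ((hJd t ht).const_add (w 0)).mul_const X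
      have a4 := ((H_der h ht).sub_const (w 0)).mul_const (ee X)
      exact ((a1.sub a2).sub a3).add a4
    · intro t ht
      have b1 := h.one t ht.le
      have b2 := (q_pos h ht.le)
      have b3 := q_le h ht.le
      have b4 : qq w t ^ 2 ≤ 1 := by nlinarith
      have b5 := ee_ineq (sq_nonneg (qq w t)) b4 hX
      have b6 : (dw t - 1) - (qq w t ^ 2 * (dw t - 1)) * (1 - X)
        - ((dw t - 1) * (4 * qq w t ^ 2 - 3 * qq w t ^ 4)) * X + (qq w t ^ 2 * (dw t - 1)) * ee X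
        = (dw t - 1) * ((1 - qq w t ^ 2) * (1 - 3 * qq w t ^ 2 * X) + qq w t ^ 2 * ee X) := by ring
      rw [b6]
      exact mul_nonneg (by linarith) (by linarith)
    · simp only [hJ0, H_zero]
      apply le_of_eq; ring
  have hQ' : QQ w dw s ≤ w 0 + J s := hQ
  have hQX : QQ w dw s * X ≤ (w 0 + J s) * X := mul_le_mul_of_nonneg_right hQ' hX
  linarith

end NullPen
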