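import Pool.Agent.Lib.H74P.G1

set_option autoImplicit false

/-!
Chunk G5. Bounds when `w s - s <= C`. `q = (w - s)/w <= C/s` (`w > s`). `H s' - H s = ∫_s^s' q^2 m <= (C/s)^2 ∫_s^s' m = (C/s)^2 ((w s' - s') - (w s - s)) <= C^3/s^2`.
`ph`: with `g = w - s`, `x = g/s` : `ph + 2 s log s = g (2 s + g)/(s + g) - 2 s log (1 + x) = s (x + 1 - 1/(1+x) - 2 log (1+x))`, and
`0 <= x + 1 - 1/(1+x) - 2 log (1+x) <= x^3` for `x >= 0` (derivative `1 + 1/(1+x)^2 - 2/(1+x) = x^2/(1+x)^2 <= 3 x^2`, value `0` at `0`). So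
`0 <= ph + 2 s log s <= g^3/s^2`.
-/

open MeasureTheory Filter Topology Set

namespace NullPen
variable {w dw : ℝ → ℝ}

theorem q_bound (h : Ray w dw) {C : ℝ} {s : ℝ} (hs : 0 < s) (hC : w s - s ≤ C) : qq w s ≤ C / s := by
  have h1 := lt_w h hs.le
  have h2 : 0 < w s := by linarith
  have h3 : qq w s = (w s - s) / w s := by unfold qq; field_simp
  rw [h3, div_le_div_iff₀ h2 hs]
  have h4 : 0 < w s - s := by linarith
  have h5 : (w s - s) * s ≤ (w s - s) * w s := mul_le_mul_of_nonneg_left h1.le h4.le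
  have h6 : (w s - s) * w s ≤ C * w s := mul_le_mul_of_nonneg_right hC h2.le
  linarith

theorem Y_bound (h : Ray w dw) {C : ℝ} {s : ℝ} (hs : 0 < s) (hC : w s - s ≤ C) : YY w s ≤ C := by
  have h1 := Y_le h hs.le
  have h2 := q_bound h hs hC
  have h3 : qq w s * s ≤ C / s * s := mul_le_mul_of_nonneg_right h2 hs.le
  rw [div_mul_cancel₀ C hs.ne'] at h3
  linarith

theorem g5_mono {F F' : ℝ → ℝ} {a : ℝ} (hc : ContinuousOn F (Ici a)) (hd : ∀ s, a < s → HasDerivAt F (F' s) s)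
    (hF : ∀ s, a < s → 0 ≤ F' s) {s t : ℝ} (hs : a ≤ s) (hst : s ≤ t) : F s ≤ F t := by
  have h1 : MonotoneOn F (Ici a) := by
    apply monotoneOn_of_deriv_nonneg (convex_Ici a) hc
    · rw [interior_Ici]
      intro x hx
      exact (hd x hx).differentiableAt.differentiableWithinAt
    · rw [interior_Ici]
      intro x hx
      rw [(hd x hx).deriv]
      exact hF x hx
  exact h1 hs (hs.trans hst : a ≤ t) hst

theorem H_mono (h : Ray w dw) {s t : ℝ} (hs : 0 ≤ s) (hst : s ≤ t) : HH w dw s ≤ HH w dw t := by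
  refine g5_mono (H_cont h) (fun s hs => H_der h hs) ?_ hs hst
  intro s hs
  have := h.one s hs.le
  exact mul_nonneg (sq_nonneg _) (by linarith)

theorem H_ge (h : Ray w dw) {s : ℝ} (hs : 0 ≤ s) : w 0 ≤ HH w dw s := by
  have := H_mono h le_rfl hs
  rwa [H_zero] at this

theorem H_bound (h : Ray w dw) {C : ℝ} (hC : ∀ t, 1 ≤ t → w t - t ≤ C) {s t : ℝ} (hs : 1 ≤ s) (hst : s ≤ t) :
    HH w dw t - HH w dw s ≤ C ^ 3 / s ^ 2 := by
  have hs0 : 0 < s := by linarith
  have hC0 : 0 < C := by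
    have h1 := lt_w h (zero_le_one)
    have h2 := hC 1 le_rfl
    linarith
  have h1 : (fun t => (C / s) ^ 2 * (w t - t) - HH w dw t) s ≤ (fun t => (C / s) ^ 2 * (w t - t) - HH w dw t) t := by
    refine g5_mono (a := s) (F := fun t => (C / s) ^ 2 * (w t - t) - HH w dw t) (F' := fun t => (C / s) ^ 2 * (dw t - 1) - qq w t ^ 2 * (dw t - 1)) ?_ ?_ ?_ le_rfl hst
    · have h0 : ContinuousOn (fun t => (C / s) ^ 2 * (w t - t) - HH w dw t) (Ici 0) :=
        (continuousOn_const.mul (h.cont.sub continuousOn_id)).sub (H_cont h)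
      exact h0.mono (Ici_subset_Ici.2 hs0.le)
    · intro u hu
      have hu0 : 0 < u := by linarith
      exact (((h.der u hu0).sub (hasDerivAt_id u)).const_mul _).sub (H_der h hu0)
    · intro u hu
      have hu0 : 0 < u := by linarith
      have a1 := q_bound h hu0 (hC u (by linarith))
      have a2 := q_pos h hu0.le
      have a3 : C / u ≤ C / s := div_le_div_of_nonneg_left hC0.le hs0 hu.le
      have a4 : qq w u ^ 2 ≤ (C / s) ^ 2 := pow_le_pow_left₀ a2.le (a1.trans a3) 2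
      have a5 := h.one u hu0.le
      have a6 : (C / s) ^ 2 * (dw u - 1) - qq w u ^ 2 * (dw u - 1) = ((C / s) ^ 2 - qq w u ^ 2) * (dw u - 1) := by ring
      rw [a6]
      exact mul_nonneg (by linarith) (by linarith)
  simp only at h1
  have h2 := hC t (by linarith)
  have h3 := lt_w h hs0.le
  have h4 : (C / s) ^ 2 * (w t - t) - (C / s) ^ 2 * (w s - s) ≤ (C / s) ^ 2 * C := by
    have : (C / s) ^ 2 * (w t - t) - (C / s) ^ 2 * (w s - s) = (C / s) ^ 2 * ((w t - t) - (w s - s)) := by ring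
    rw [this]
    exact mul_le_mul_of_nonneg_left (by linarith) (sq_nonneg _)
  have h5 : (C / s) ^ 2 * C = C ^ 3 / s ^ 2 := by
    field_simp
  linarith

theorem g5_aux_der {x : ℝ} (hx : 0 ≤ x) :
    HasDerivAt (fun x : ℝ => x + 1 - 1 / (1 + x) - 2 * Real.log (1 + x)) (x ^ 2 / (1 + x) ^ 2) x := by
  have h1 : (1 + x) ≠ 0 := by positivity
  have a1 : HasDerivAt (fun x : ℝ => 1 + x) 1 x := by simpa using (hasDerivAt_id x).const_add 1
  have a2 := a1.inv h1
  have a3 := a1.log h1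
  have a4 : HasDerivAt (fun x : ℝ => x + 1) 1 x := by simpa using (hasDerivAt_id x).add_const 1
  have a5 := (a4.sub a2).sub (a3.const_mul 2)
  have a6 : (1 : ℝ) - -1 / (1 + x) ^ 2 - 2 * (1 / (1 + x)) = x ^ 2 / (1 + x) ^ 2 := by
    field_simp; ring
  rw [a6] at a5
  refine a5.congr_of_eventuallyEq (Eventually.of_forall fun y => ?_)
  simp [one_div]

theorem g5_aux {x : ℝ} (hx : 0 ≤ x) :
    0 ≤ x + 1 - 1 / (1 + x) - 2 * Real.log (1 + x) ∧ x + 1 - 1 / (1 + x) - 2 * Real.log (1 + x) ≤ x ^ 3 := by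
  have hc : ContinuousOn (fun x : ℝ => x + 1 - 1 / (1 + x) - 2 * Real.log (1 + x)) (Ici 0) := fun x hx =>
    (g5_aux_der hx).continuousAt.continuousWithinAt
  constructor
  · refine nonneg_of_der hc (fun s hs => g5_aux_der hs.le) ?_ ?_ hx
    · intro s hs; positivity
    · simp
  · have hc2 : ContinuousOn (fun x : ℝ => x ^ 3 - (x + 1 - 1 / (1 + x) - 2 * Real.log (1 + x))) (Ici 0) :=
      (continuous_id.pow 3).continuousOn.sub hc
    have := nonneg_of_der (F := fun x : ℝ => x ^ 3 - (x + 1 - 1 / (1 + x) - 2 * Real.log (1 + x)))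
      (F' := fun s : ℝ => 3 * s ^ 2 - s ^ 2 / (1 + s) ^ 2) hc2 ?_ ?_ ?_ hx
    · linarith
    · intro s hs
      exact (by simpa using hasDerivAt_pow 3 s : HasDerivAt (fun x : ℝ => x ^ 3) (3 * s ^ 2) s).sub (g5_aux_der hs.le)
    · intro s hs
      have h1 : s ^ 2 / (1 + s) ^ 2 ≤ s ^ 2 := div_le_self (sq_nonneg s) (by nlinarith)
      nlinarith [sq_nonneg s]
    · simp

theorem ph_bound (h : Ray w dw) {C : ℝ} {s : ℝ} (hs : 0 < s) (hC : w s - s ≤ C) :
    |ph w s + 2 * s * Real.log s| ≤ C ^ 3 / s ^ 2 := by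
  have h1 := lt_w h hs.le
  set g := w s - s with hg
  have hg0 : 0 < g := by linarith
  have hw : w s = s * (1 + g / s) := by field_simp; rw [hg]; ring
  have hx : 0 ≤ g / s := by positivity
  have hx1 : 0 < 1 + g / s := by positivity
  have h2 : ph w s + 2 * s * Real.log s = s * (g / s + 1 - 1 / (1 + g / s) - 2 * Real.log (1 + g / s)) := by
    unfold ph
    have e1 : Real.log (w s) = Real.log s + Real.log (1 + g / s) := by
      rw [hw, Real.log_mul hs.ne' hx1.ne']
    rw [e1]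
    have e2 : s ^ 2 / w s = s / (1 + g / s) := by
      rw [hw]; field_simp
    rw [e2]
    have e3 : w s = s + g := by rw [hg]; ring
    rw [e3]
    have e4 : s * (g / s) = g := by field_simp
    have e5 : s / (1 + g / s) = s * (1 / (1 + g / s)) := by ring
    rw [e5]
    linear_combination (-1) * e4
  obtain ⟨h3, h4⟩ := g5_aux hx
  rw [h2, abs_of_nonneg (mul_nonneg hs.le h3)]
  have h5 : s * (g / s) ^ 3 ≤ C ^ 3 / s ^ 2 := by
    have : s * (g / s) ^ 3 = g ^ 3 / s ^ 2 := by field_simp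
    rw [this]
    exact div_le_div_of_nonneg_right (pow_le_pow_left₀ hg0.le hC 3) (by positivity)
  exact (mul_le_mul_of_nonneg_left h4 hs.le).trans h5

end NullPen
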