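import Pool.Agent.Lib.H74P.G1

set_option autoImplicit false

/-!
Chunk G6. The energy inequality along one generator with the test field `x = (Y/w^2) v`, `|v|^2 = W`.
`z` = torsion in the direction `v`, `z2 = |ζ|^2`, `jv` = `G(L, v)`, `Dv` = derivative of `w` in the direction `v`, `e = G(L,L)`, `ρ = - G(L,k)`.
Proof. `M(s) = ∫_0^s (2 z2 + ρ w^2) - 4 Y z + 4 Y Dv/w - 4 ∫_0^s q^2 Dv/w + 2 Q W - 8 (dw/w) Y^2 W` is continuous on `[0,∞)`, `M 0 = 0` (`Y 0 = 0`); claim `M' >= 0` for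
`s > 0` (`nonneg_of_der`), then drop the last term (`dw/w >= 0`). With `x = Y/w^2`, `p = dw/w`, `τ = z w^2`: `4 Y z = 4 x τ` has the derivative
`4 x' τ + 4 x (w Dv' - dw Dv + w^2 jv)`, `(4 Y Dv/w)' = 4 q^2 Dv/w + 4 Y (w Dv' - dw Dv)/w^2`, so the terms with `Dv` cancel and
`M' = 2 z2 + ρ w^2 - 4 x' w^2 z - 4 Y jv + 2 (q^4 + 4 p Y q^2) W - (8 p Y^2)' W`. With `a = x' w^2 = q^2 - 2 p Y`:
`2 z2 - 4 a z + 2 a^2 W >= 0` (from `z^2 <= z2 W`), `ρ w^2 - 4 Y jv + 4 e Y^2 W >= 0` (from `jv^2 <= j2 W <= w^2 e ρ W`), and the identity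
`- 2 a^2 - 4 e Y^2 = - 2 q^4 - 8 p Y q^2 + (8 p Y^2)'` where `(8 p Y^2)' = 8 (ddw/w - p^2) Y^2 + 16 p Y q^2`, `ddw = - e w/2`.
-/

open MeasureTheory Filter Topology Set

namespace NullPen
variable {w dw : ℝ → ℝ}

theorem g6_int_der {f : ℝ → ℝ} (hf : ContinuousOn f (Ici 0)) {s : ℝ} (hs : 0 < s) :
    HasDerivAt (fun u => ∫ t in (0 : ℝ)..u, f t) (f s) s := by
  have hi : IntervalIntegrable f volume 0 s := by
    apply ContinuousOn.intervalIntegrable
    rw [uIcc_of_le hs.le]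
    exact hf.mono Icc_subset_Ici_self
  have hca : ContinuousAt f s := hf.continuousAt (Ici_mem_nhds hs)
  have hm : StronglyMeasurableAtFilter f (𝓝 s) volume :=
    ⟨Ioi 0, Ioi_mem_nhds hs, (hf.mono Ioi_subset_Ici_self).aestronglyMeasurable measurableSet_Ioi⟩
  exact intervalIntegral.integral_hasDerivAt_right hi hm hca

theorem g6_int_cont {f : ℝ → ℝ} (hf : ContinuousOn f (Ici 0)) :
    ContinuousOn (fun u => ∫ t in (0 : ℝ)..u, f t) (Ici 0) := by
  intro s hs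
  have hs0 : (0 : ℝ) ≤ s := hs
  have h1 : ContinuousOn (fun u => ∫ t in (0 : ℝ)..u, f t) (uIcc 0 (s + 1)) := by
    apply intervalIntegral.continuousOn_primitive_interval
    rw [uIcc_of_le (by linarith)]
    exact (hf.mono Icc_subset_Ici_self).integrableOn_Icc
  rw [uIcc_of_le (by linarith)] at h1
  have h2 := h1 s ⟨hs0, by linarith⟩
  refine h2.mono_of_mem_nhdsWithin ?_
  have h3 : Iic (s + 1) ∈ 𝓝 s := Iic_mem_nhds (by linarith)
  rw [← Ici_inter_Iic]
  exact inter_mem_nhdsWithin _ h3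

theorem g6_amgm {A B c : ℝ} (hA : 0 ≤ A) (hB : 0 ≤ B) (h : c ^ 2 ≤ A * B) : 2 * c ≤ A + B := by
  have h1 : (2 * c) ^ 2 ≤ (A + B) ^ 2 := by nlinarith [sq_nonneg (A - B)]
  exact (le_abs_self _).trans (abs_le_of_sq_le_sq h1 (by linarith))

theorem ray_ineq (h : Ray w dw) {e ρ z z2 jv j2 Dv dDv : ℝ → ℝ} {W : ℝ} (hW : 0 ≤ W)
    (hdd : ∀ s, 0 < s → HasDerivAt dw (- (e s * w s / 2)) s)
    (cz : ContinuousOn z (Ici 0)) (cz2 : ContinuousOn z2 (Ici 0)) (cρ : ContinuousOn ρ (Ici 0)) (cD : ContinuousOn Dv (Ici 0))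
    (hD : ∀ s, 0 < s → HasDerivAt Dv (dDv s) s)
    (hτ : ∀ s, 0 < s → HasDerivAt (fun t => z t * w t ^ 2) (w s * dDv s - dw s * Dv s + w s ^ 2 * jv s) s)
    (e0 : ∀ s, 0 < s → 0 ≤ e s) (ρ0 : ∀ s, 0 < s → 0 ≤ ρ s) (z0 : ∀ s, 0 < s → 0 ≤ z2 s)
    (hz : ∀ s, 0 < s → z s ^ 2 ≤ z2 s * W) (hj : ∀ s, 0 < s → jv s ^ 2 ≤ j2 s * W)
    (hjj : ∀ s, 0 < s → j2 s ≤ w s ^ 2 * (e s * ρ s)) {S : ℝ} (hS : 0 ≤ S) :
    4 * YY w S * z S - 4 * YY w S * Dv S / w S + 4 * (∫ t in (0 : ℝ)..S, qq w t ^ 2 * Dv t / w t) - 2 * QQ w dw S * W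
      ≤ ∫ t in (0 : ℝ)..S, (2 * z2 t + ρ t * w t ^ 2) := by
  have hwne : ∀ t ∈ Ici (0 : ℝ), w t ≠ 0 := fun t ht => (h.pos t ht).ne'
  have c1 : ContinuousOn (fun t => 2 * z2 t + ρ t * w t ^ 2) (Ici 0) :=
    (continuousOn_const.mul cz2).add (cρ.mul (h.cont.pow 2))
  have c2 : ContinuousOn (fun t => qq w t ^ 2 * Dv t / w t) (Ici 0) :=
    (((q_cont h).pow 2).mul cD).div h.cont hwne
  have c3 := g6_int_cont c1
  have c4 := g6_int_cont c2
  have d3 := fun (s : ℝ) (hs : 0 < s) => g6_int_der c1 hs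
  have d4 := fun (s : ℝ) (hs : 0 < s) => g6_int_der c2 hs
  set I1 : ℝ → ℝ := fun u => ∫ t in (0 : ℝ)..u, (2 * z2 t + ρ t * w t ^ 2) with hI1
  set I2 : ℝ → ℝ := fun u => ∫ t in (0 : ℝ)..u, (qq w t ^ 2 * Dv t / w t) with hI2
  have hI10 : I1 0 = 0 := by simp [hI1]
  have hI20 : I2 0 = 0 := by simp [hI2]
  have hzd : ∀ s, 0 < s → HasDerivAt z (((w s * dDv s - dw s * Dv s + w s ^ 2 * jv s) * w s ^ 2
      - z s * w s ^ 2 * (2 * w s * dw s)) / (w s ^ 2) ^ 2) s := by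
    intro s hs
    have hw := h.pos s hs.le
    have a1 := hτ s hs
    have a2 : HasDerivAt (fun t => w t ^ 2) (2 * w s * dw s) s := by
      have := (h.der s hs).pow 2
      simp only [Nat.cast_ofNat, Nat.add_one_sub_one, pow_one] at this
      exact this
    have a3 := a1.div a2 (by positivity)
    refine a3.congr_of_eventuallyEq ?_
    filter_upwards [Ioi_mem_nhds hs] with t ht
    have ht0 : w t ≠ 0 := (h.pos t (le_of_lt ht)).ne'
    simp only [Pi.div_apply]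
    field_simp
  have key : 0 ≤ I1 S - 4 * (YY w S * z S) + 4 * (YY w S * Dv S / w S) - 4 * I2 S + 2 * W * QQ w dw S
      - 8 * W * (dw S / w S * YY w S ^ 2) := by
    refine nonneg_of_der (F := fun S => I1 S - 4 * (YY w S * z S) + 4 * (YY w S * Dv S / w S) - 4 * I2 S
      + 2 * W * QQ w dw S - 8 * W * (dw S / w S * YY w S ^ 2))
      (F' := fun s => (2 * z2 s + ρ s * w s ^ 2)
        - 4 * (qq w s ^ 2 * z s + YY w s * (((w s * dDv s - dw s * Dv s + w s ^ 2 * jv s) * w s ^ 2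
      - z s * w s ^ 2 * (2 * w s * dw s)) / (w s ^ 2) ^ 2))
        + 4 * (((qq w s ^ 2 * Dv s + YY w s * dDv s) * w s - YY w s * Dv s * dw s) / w s ^ 2)
        - 4 * (qq w s ^ 2 * Dv s / w s)
        + 2 * W * (qq w s ^ 4 + 4 * (dw s / w s) * YY w s * qq w s ^ 2)
        - 8 * W * (((-(e s * w s / 2)) * w s - dw s * dw s) / w s ^ 2 * YY w s ^ 2
          + dw s / w s * (2 * YY w s * qq w s ^ 2))) ?_ ?_ ?_ ?_ hS
    · have e1 := (Y_cont h).mul cz
      have e2 := ((Y_cont h).mul cD).div h.cont hwne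
      have e3 := (h.dcont.div h.cont hwne).mul ((Y_cont h).pow 2)
      exact ((((c3.sub (continuousOn_const.mul e1)).add (continuousOn_const.mul e2)).sub
        (continuousOn_const.mul c4)).add (continuousOn_const.mul (Q_cont h))).sub (continuousOn_const.mul e3)
    · intro s hs
      have hw := h.pos s hs.le
      have f1 := (Y_der h hs).mul (hzd s hs)
      have f2 := ((Y_der h hs).mul (hD s hs)).div (h.der s hs) hw.ne'
      have f3a := (hdd s hs).div (h.der s hs) hw.ne'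
      have f3b : HasDerivAt (fun t => YY w t ^ 2) (2 * YY w s * qq w s ^ 2) s := by
        have := (Y_der h hs).pow 2
        simp only [Nat.cast_ofNat, Nat.add_one_sub_one, pow_one] at this
        exact this
      have f3 := f3a.mul f3b
      exact ((((((d3 s hs).sub (f1.const_mul 4)).add (f2.const_mul 4)).sub
        ((d4 s hs).const_mul 4)).add ((Q_der h hs).const_mul (2 * W))).sub (f3.const_mul (8 * W)))
    · intro s hs
      have hw := h.pos s hs.le
      set p := dw s / w s with hp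
      set Y := YY w s with hY
      set q := qq w s with hq
      have e1 : ((w s * dDv s - dw s * Dv s + w s ^ 2 * jv s) * w s ^ 2
          - z s * w s ^ 2 * (2 * w s * dw s)) / (w s ^ 2) ^ 2
          = dDv s / w s - dw s * Dv s / w s ^ 2 + jv s - 2 * z s * p := by
        rw [hp]; field_simp
      have e2 : ((q ^ 2 * Dv s + Y * dDv s) * w s - Y * Dv s * dw s) / w s ^ 2
          = q ^ 2 * Dv s / w s + Y * (dDv s / w s) - Y * (dw s * Dv s / w s ^ 2) := by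
        field_simp
      have e3 : ((-(e s * w s / 2)) * w s - dw s * dw s) / w s ^ 2 = - e s / 2 - p ^ 2 := by
        rw [hp]; field_simp
      simp only [e1, e2, e3]
      have g1 : 2 * ((q ^ 2 - 2 * p * Y) * z s) ≤ z2 s + (q ^ 2 - 2 * p * Y) ^ 2 * W := by
        apply g6_amgm (z0 s hs) (mul_nonneg (sq_nonneg _) hW)
        have := mul_le_mul_of_nonneg_left (hz s hs) (sq_nonneg (q ^ 2 - 2 * p * Y))
        nlinarith
      have g2 : 2 * (2 * Y * jv s) ≤ ρ s * w s ^ 2 + 4 * e s * Y ^ 2 * W := by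
        apply g6_amgm (mul_nonneg (ρ0 s hs) (sq_nonneg _))
          (mul_nonneg (mul_nonneg (mul_nonneg (by norm_num) (e0 s hs)) (sq_nonneg _)) hW)
        have k1 := mul_le_mul_of_nonneg_left (hj s hs) (sq_nonneg (2 * Y))
        have k2 := mul_le_mul_of_nonneg_left (mul_le_mul_of_nonneg_right (hjj s hs) hW) (sq_nonneg (2 * Y))
        nlinarith
      nlinarith
    · simp [hI10, hI20, Y_zero, Q_zero]
  have hlast : 0 ≤ 8 * W * (dw S / w S * YY w S ^ 2) := by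
    have h1 := h.one S hS
    have h2 := h.pos S hS
    have h3 : 0 ≤ dw S / w S := div_nonneg (by linarith) h2.le
    exact mul_nonneg (mul_nonneg (by norm_num) hW) (mul_nonneg h3 (sq_nonneg _))
  have e1 : 4 * YY w S * Dv S / w S = 4 * (YY w S * Dv S / w S) := by ring
  rw [e1]
  show 4 * YY w S * z S - 4 * (YY w S * Dv S / w S) + 4 * I2 S - 2 * QQ w dw S * W ≤ I1 S
  linarith

end NullPen
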