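import Pool.Agent.Lib.H74P.Data

set_option autoImplicit false

/-!
Chunk L0. Calculus on the sphere. `SFun_comp`: let `g0 = log f` (`NShell.SFun_log`); `φ ∘ exp` is smooth on `ℝ`, so `g = φ ∘ exp ∘ g0` is the restriction of a smooth function. Its rotation
derivative: `NShell.stdL_of` with the extension `φ (exp (lft g0))` and the chain rule; `stdL i g0 = stdL i f / f` (`NShell.std_logd` with `g0 + g0`, as in H17P/PER).
`gr_tan`: `Σ_k n_k (rotv i n)_k = 0`. `gr_sq`: `|gr f|^2 = gam f f`, because `Σ_k rotv_i,k rotv_j,k = δ_ij - n_i n_j` and `Σ n_i L_i f = 0` (`std_rad`).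
`gr_pd`: for smooth `F`, `Σ_k gr_k pd k F = Σ_i L_i f · fderiv F (rotv i n)` and `fderiv F n (rotv i n) = (stdL i (SFun.of F)).1 n`.
-/

open MeasureTheory Filter Topology Set
open scoped ContDiff

namespace NullPen

open NShell

private theorem L0_rotv (i k : Fin 3) (n : E3) : rotv i n k =
    n (i + 1) * (if k = i + 2 then 1 else 0) - n (i + 2) * (if k = i + 1 then 1 else 0) := by
  unfold rotv
  simp

private theorem L0_sq (n : S2) : (n : E3) 0 ^ 2 + (n : E3) 1 ^ 2 + (n : E3) 2 ^ 2 = 1 := by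
  have h : ‖(n : E3)‖ = 1 := by simp
  have h2 := EuclideanSpace.norm_sq_eq (n : E3)
  rw [h, Fin.sum_univ_three] at h2
  simp only [Real.norm_eq_abs, sq_abs] at h2
  linarith

private theorem L0_rad (f : SFun) (n : S2) : (n : E3) 0 * (stdSA.L 0 f).1 n + (n : E3) 1 * (stdSA.L 1 f).1 n
    + (n : E3) 2 * (stdSA.L 2 f).1 n = 0 := by
  have h := std_rad f
  have h2 := congrArg (fun g : SFun => g.1 n) h
  exact h2

private theorem L0_pd {F : E3 → ℝ} (hF : ContDiff ℝ ∞ F) (k : Fin 3) (x : E3) :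
    pd k F x = fderiv ℝ F x (EuclideanSpace.single k 1) := by
  have h : DifferentiableAt ℝ F x := (hF.differentiable (by simp)) x
  exact h.lineDeriv_eq_fderiv

theorem SFun_comp (f : SFun) (hf : ∀ n, 0 < f.1 n) {φ φ' : ℝ → ℝ} (hφ : ContDiffOn ℝ ∞ φ (Ioi 0))
    (hd : ∀ x, 0 < x → HasDerivAt φ (φ' x) x) :
    ∃ g : SFun, (∀ n, g.1 n = φ (f.1 n)) ∧ ∀ i n, (stdSA.L i g).1 n = φ' (f.1 n) * (stdSA.L i f).1 n := by
  obtain ⟨g0, hg0⟩ := SFun_log f hf
  have he : ContDiff ℝ ∞ (fun x : E3 => Real.exp (lft g0 x)) := (lft_smooth g0).exp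
  have hs : ContDiff ℝ ∞ (fun x : E3 => φ (Real.exp (lft g0 x))) :=
    hφ.comp_contDiff he (fun x => Real.exp_pos _)
  have hval : ∀ n : S2, Real.exp (lft g0 n) = f.1 n := by
    intro n
    rw [lft_eq, hg0, Real.exp_log (hf n)]
  refine ⟨SFun.of _ hs, fun n => ?_, fun i n => ?_⟩
  · change φ (Real.exp (lft g0 n)) = _
    rw [hval]
  · change (stdL i (SFun.of _ hs)).1 n = φ' (f.1 n) * (stdL i f).1 n
    rw [stdL_of i (SFun.of _ hs) _ hs (fun _ => rfl) n,
      stdL_of i f (fun x => Real.exp (lft g0 x)) he (fun m => (hval m).symm) n]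
    have hE : HasFDerivAt (fun x : E3 => Real.exp (lft g0 x))
        (fderiv ℝ (fun x : E3 => Real.exp (lft g0 x)) n) (n : E3) :=
      ((he.differentiable (by simp)) _).hasFDerivAt
    have hc := (hd _ (Real.exp_pos (lft g0 n))).comp_hasFDerivAt (n : E3) hE
    have hc2 : fderiv ℝ (fun x : E3 => φ (Real.exp (lft g0 x))) n = _ := hc.fderiv
    rw [hc2, hval]
    rfl

theorem gr_cont (f : SFun) (k : Fin 3) : Continuous fun n : S2 => gr f n k := by
  unfold gr
  refine continuous_finsetSum _ fun i _ => ?_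
  refine (SFun_cont (stdSA.L i f)).mul ?_
  have h1 : Continuous fun y : E3 => rotv i y k :=
    (EuclideanSpace.proj k : E3 →L[ℝ] ℝ).continuous.comp (contDiff_rotv i).continuous
  exact h1.comp continuous_subtype_val

theorem gr_tan (f : SFun) (n : S2) : ∑ k, (n : E3) k * gr f n k = 0 := by
  unfold gr
  simp only [L0_rotv, Fin.sum_univ_three]
  simp only [show (0 : Fin 3) + 1 = 1 from rfl, show (0 : Fin 3) + 2 = 2 from rfl,
    show (1 : Fin 3) + 1 = 2 from rfl, show (1 : Fin 3) + 2 = 0 from rfl,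
    show (2 : Fin 3) + 1 = 0 from rfl, show (2 : Fin 3) + 2 = 1 from rfl]
  simp
  ring

theorem gr_sq (f : SFun) (n : S2) : ∑ k, gr f n k ^ 2 = XX f n := by
  have hr := L0_rad f n
  have hs := L0_sq n
  have hX : XX f n = (stdSA.L 0 f).1 n * (stdSA.L 0 f).1 n + (stdSA.L 1 f).1 n * (stdSA.L 1 f).1 n
      + (stdSA.L 2 f).1 n * (stdSA.L 2 f).1 n := by
    unfold XX SA.gam
    rw [Fin.sum_univ_three]
    rfl
  rw [hX]
  unfold gr
  simp only [L0_rotv, Fin.sum_univ_three]
  generalize (stdSA.L 0 f).1 n = a at *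
  generalize (stdSA.L 1 f).1 n = b at *
  generalize (stdSA.L 2 f).1 n = c at *
  simp only [show (0 : Fin 3) + 1 = 1 from rfl, show (0 : Fin 3) + 2 = 2 from rfl,
    show (1 : Fin 3) + 1 = 2 from rfl, show (1 : Fin 3) + 2 = 0 from rfl,
    show (2 : Fin 3) + 1 = 0 from rfl, show (2 : Fin 3) + 2 = 1 from rfl]
  simp
  linear_combination (a * a + b * b + c * c) * hs - ((n : E3) 0 * a + (n : E3) 1 * b + (n : E3) 2 * c) * hr

theorem gr_pd (f : SFun) {F : E3 → ℝ} (hF : ContDiff ℝ ∞ F) (n : S2) :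
    ∑ k, gr f n k * pd k F n = (stdSA.gam (SFun.of F hF) f).1 n := by
  have hX : (stdSA.gam (SFun.of F hF) f).1 n = ∑ i, (stdSA.L i (SFun.of F hF)).1 n * (stdSA.L i f).1 n := by
    unfold SA.gam
    rw [Fin.sum_univ_three, Fin.sum_univ_three]
    rfl
  have hL : ∀ i, (stdSA.L i (SFun.of F hF)).1 n = ∑ k, rotv i (n : E3) k * pd k F n := by
    intro i
    change (stdL i (SFun.of F hF)).1 n = _
    rw [stdL_of i (SFun.of F hF) F hF (fun _ => rfl) n]
    have h1 : rotv i (n : E3) = ∑ k, rotv i (n : E3) k • EuclideanSpace.single k (1 : ℝ) := by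
      ext j
      simp [Pi.single_apply]
    conv_lhs => rw [h1]
    rw [map_sum]
    refine Finset.sum_congr rfl fun k _ => ?_
    rw [map_smul, L0_pd hF, smul_eq_mul]
  rw [hX]
  simp only [hL]
  unfold gr
  simp only [Finset.sum_mul]
  rw [Finset.sum_comm]
  refine Finset.sum_congr rfl fun i _ => Finset.sum_congr rfl fun k _ => ?_
  ring

end NullPen
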