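import Pool.Agent.Lib.H74P.L0B
import Pool.Agent.Lib.H74P.C2
import Pool.Agent.Lib.H74P.G3

set_option autoImplicit false

/-!
Chunk L1. The linear term. `lin_s`: for fixed `s >= 0`, `ka_s = φ(lam_s)`, `φ(x) = (1/2) log x + 2 s x^(-1/2) - s^2/(2 x)`, `φ'(x) = (1/(2x)) (1 - s x^(-1/2))^2`
(`SFun_comp`, `om = sqrt lam`), so `gam (ka_s) f = q^2/(2 lam) gam (lam_s) f = q^2 Dv(gr f)/om` (`gr_pd`); Green (`green'`).
`lin`: integrate over `s` (`fub` twice, `cont` lemmas), `ka_int`: `∫_0^S ka = (H + S - ph)/2`, and `∫ S la f = 0`.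
-/

open MeasureTheory Filter Topology Set
open scoped ContDiff

namespace NullPen

/-- the function `φ` -/
noncomputable def l1_phi (s x : ℝ) : ℝ := 1 / 2 * Real.log x + 2 * s / Real.sqrt x - s ^ 2 / (2 * x)

theorem l1_phi_smooth (s : ℝ) : ContDiffOn ℝ ∞ (l1_phi s) (Ioi 0) := by
  intro x hx
  have hx0 : x ≠ 0 := (mem_Ioi.mp hx).ne'
  have h1 : ContDiffAt ℝ ∞ (fun x : ℝ => Real.log x) x := Real.contDiffAt_log.mpr hx0
  have h2 : ContDiffAt ℝ ∞ (fun x : ℝ => Real.sqrt x) x := Real.contDiffAt_sqrt hx0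
  have h3 : Real.sqrt x ≠ 0 := (Real.sqrt_pos.mpr hx).ne'
  exact (((contDiffAt_const.mul h1).add (contDiffAt_const.div h2 h3)).sub
    (contDiffAt_const.div (contDiffAt_const.mul contDiffAt_id) (mul_ne_zero two_ne_zero hx0))).contDiffWithinAt

theorem l1_phi_der (s x : ℝ) (hx : 0 < x) :
    HasDerivAt (l1_phi s) (1 / (2 * x) * (1 - s / Real.sqrt x) ^ 2) x := by
  have h3 : 0 < Real.sqrt x := Real.sqrt_pos.mpr hx
  have h4 : Real.sqrt x ^ 2 = x := Real.sq_sqrt hx.le
  have h1 := (((Real.hasDerivAt_log hx.ne').const_mul (1 / 2)).add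
    (((hasDerivAt_const x (2 * s)).div (Real.hasDerivAt_sqrt hx.ne')) h3.ne')).sub
    ((hasDerivAt_const x (s ^ 2)).div ((hasDerivAt_id x).const_mul 2) (mul_ne_zero two_ne_zero hx.ne'))
  refine h1.congr_deriv ?_
  simp only [id]
  generalize Real.sqrt x = r at *
  subst h4
  field_simp
  ring

namespace MatterData
variable {D : MatterData}

theorem lin_s (hD : D.Admissible) (f : NShell.SFun) {s : ℝ} (hs : 0 ≤ s) :
    ∫ n : S2, qq (D.om n) s ^ 2 * D.Dv n (gr f n) s / D.om n s ∂sm = - ∫ n : S2, ka (D.om n) s * la f n ∂sm := by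
  have hsm : ContDiff ℝ ∞ (D.lam s) := (lam_smooth hD.null).comp (contDiff_const.prodMk contDiff_id)
  obtain ⟨g, hg1, hg2⟩ := SFun_comp (NShell.SFun.of (D.lam s) hsm) (fun n => lam_pos hD.null n hs)
    (l1_phi_smooth s) (l1_phi_der s)
  have h1 := green' g f
  have e1 : ∀ n : S2, (NShell.stdSA.gam g f).1 n = qq (D.om n) s ^ 2 * D.Dv n (gr f n) s / D.om n s := by
    intro n
    have h2 : (NShell.stdSA.gam g f).1 n = ∑ i, (NShell.stdSA.L i g).1 n * (NShell.stdSA.L i f).1 n := by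
      unfold NShell.SA.gam
      simp only [AddSubmonoidClass.coe_finsetSum, Finset.sum_apply]
      rfl
    have h3 : (NShell.stdSA.gam (NShell.SFun.of (D.lam s) hsm) f).1 n =
        ∑ i, (NShell.stdSA.L i (NShell.SFun.of (D.lam s) hsm)).1 n * (NShell.stdSA.L i f).1 n := by
      unfold NShell.SA.gam
      simp only [AddSubmonoidClass.coe_finsetSum, Finset.sum_apply]
      rfl
    have h4 : (NShell.stdSA.gam g f).1 n = 1 / (2 * D.lam s n) * (1 - s / Real.sqrt (D.lam s n)) ^ 2 *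
        (NShell.stdSA.gam (NShell.SFun.of (D.lam s) hsm) f).1 n := by
      rw [h2, h3, Finset.mul_sum]
      refine Finset.sum_congr rfl fun i _ => ?_
      rw [hg2 i n]
      change 1 / (2 * D.lam s n) * (1 - s / Real.sqrt (D.lam s n)) ^ 2 * _ * _ = _
      ring
    rw [h4, ← gr_pd f hsm n]
    have hom := om_pos hD.null n hs
    have hsq := om_sq hD.null n hs
    unfold Dv qq
    change 1 / (2 * D.lam s n) * (1 - s / D.om n s) ^ 2 * _ = _
    rw [← hsq]
    generalize (∑ k, gr f n k * pd k (D.lam s) n) = A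
    field_simp
  have e2 : ∀ n : S2, g.1 n = ka (D.om n) s := by
    intro n
    rw [hg1 n]
    have hom := om_pos hD.null n hs
    have hsq := om_sq hD.null n hs
    have hl := lam_pos hD.null n hs
    change l1_phi s (D.lam s n) = _
    unfold l1_phi ka
    have h5 : Real.log (D.om n s) = 1 / 2 * Real.log (D.lam s n) := by
      have h6 : Real.log (Real.sqrt (D.lam s n)) = Real.log (D.lam s n) / 2 := Real.log_sqrt hl.le
      have h7 : Real.log (D.om n s) = Real.log (D.lam s n) / 2 := h6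
      rw [h7]
      ring
    rw [h5, hsq]
    rfl
  simp only [e1, e2] at h1
  exact h1

theorem lin (hD : D.Admissible) (f : NShell.SFun) {S : ℝ} (hS : 0 ≤ S) :
    ∫ n : S2, (∫ t in (0 : ℝ)..S, qq (D.om n) t ^ 2 * D.Dv n (gr f n) t / D.om n t) ∂sm =
      (∫ n : S2, ph (D.om n) S * la f n ∂sm) / 2 - (∫ n : S2, HH (D.om n) (D.dom n) S * la f n ∂sm) / 2 := by
  have hF : ContinuousOn (fun p : ℝ × S2 => qq (D.om p.2) p.1 ^ 2 * D.Dv p.2 (gr f p.2) p.1 / D.om p.2 p.1)
      (Ici 0 ×ˢ univ) :=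
    ContinuousOn.div (((c_q hD).pow 2).mul (c_Dv hD.null (gr_cont f))) (c_om hD.null) (c2_ne hD.null)
  have hla : Continuous (fun p : ℝ × S2 => la f p.2) := (la_cont f).comp continuous_snd
  have hG : ContinuousOn (fun p : ℝ × S2 => ka (D.om p.2) p.1 * la f p.2) (Ici 0 ×ˢ univ) :=
    (c_ka hD).mul hla.continuousOn
  have h1 := fub (F := fun t n => qq (D.om n) t ^ 2 * D.Dv n (gr f n) t / D.om n t) hF hS
  have h2 := fub (F := fun t n => ka (D.om n) t * la f n) hG hS
  rw [← h1]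
  have h3 : ∫ t in (0 : ℝ)..S, (∫ n : S2, qq (D.om n) t ^ 2 * D.Dv n (gr f n) t / D.om n t ∂sm) =
      ∫ t in (0 : ℝ)..S, - (∫ n : S2, ka (D.om n) t * la f n ∂sm) := by
    refine intervalIntegral.integral_congr fun t ht => ?_
    rw [uIcc_of_le hS] at ht
    exact lin_s hD f ht.1
  rw [h3, intervalIntegral.integral_neg, h2]
  have h4 : ∀ n : S2, ∫ t in (0 : ℝ)..S, ka (D.om n) t * la f n =
      HH (D.om n) (D.dom n) S * la f n * (1 / 2) + la f n * (S / 2) - ph (D.om n) S * la f n * (1 / 2) := by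
    intro n
    rw [intervalIntegral.integral_mul_const, ka_int (om_ray hD n) hS]
    ring
  have i1 : Integrable (fun n : S2 => HH (D.om n) (D.dom n) S * la f n) sm :=
    integrable_sm ((cont_at (F := fun s n => HH (D.om n) (D.dom n) s) (c_H hD) hS).mul (la_cont f))
  have i2 : Integrable (fun n : S2 => ph (D.om n) S * la f n) sm :=
    integrable_sm ((cont_at (F := fun s n => ph (D.om n) s) (c_ph hD) hS).mul (la_cont f))
  have i3 : Integrable (fun n : S2 => la f n) sm := integrable_sm (la_cont f)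
  have h5 : ∫ n : S2, (∫ t in (0 : ℝ)..S, ka (D.om n) t * la f n) ∂sm =
      (∫ n : S2, HH (D.om n) (D.dom n) S * la f n ∂sm) * (1 / 2) + (∫ n : S2, la f n ∂sm) * (S / 2) -
      (∫ n : S2, ph (D.om n) S * la f n ∂sm) * (1 / 2) := by
    simp only [h4]
    rw [integral_sub (f := fun n : S2 => HH (D.om n) (D.dom n) S * la f n * (1 / 2) + la f n * (S / 2))
      ((i1.mul_const _).add (i3.mul_const _)) (i2.mul_const _),
      integral_add (i1.mul_const _) (i3.mul_const _), integral_mul_const, integral_mul_const, integral_mul_const]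
  rw [h5, la_zero]
  ring

end MatterData
end NullPen
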