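import Pool.Agent.Lib.H74P.EN

set_option autoImplicit false

/-!
Chunk SM. `T(s) = ∫ Σ ζ_i^2 >= 0` is continuous on `[0,∞)` (`cont_sph`, `fub`) and by `energy` (`om - S >= 0`: `lt_w`; `ρ >= 0`) `2 ∫_0^S T <= sqrt (16 pi area S) - Th S → 16 pi E`
(`BondiEnergy`, `Th`), so the increasing function `∫_0^S T` is bounded; if `T >= ε` on `[max S0 1, ∞)` it would tend to infinity.
-/

open MeasureTheory Filter Topology Set
open scoped ContDiff

namespace NullPen
namespace MatterData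
variable {D : MatterData}

theorem SM_K (hD : D.Admissible) {s : ℝ} (hs : 0 ≤ s) :
    2 * ∫ n : S2, (∑ i, D.ζ s n i ^ 2) ∂sm ≤
      ∫ n : S2, (2 * (∑ i, D.ζ s n i ^ 2) + D.ρ s n * D.om n s ^ 2) ∂sm := by
  have hc : Continuous (fun n : S2 => (s, (n : E3))) :=
    continuous_const.prodMk continuous_subtype_val
  have i1 : Integrable (fun n : S2 => 2 * (∑ i, D.ζ s n i ^ 2)) sm := by
    refine integrable_sm (continuous_const.mul (continuous_finsetSum _ fun i _ => ?_))
    exact ((hD.null.smooth_ζ i).continuous.comp hc).pow 2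
  have i2 : Integrable (fun n : S2 => D.ρ s n * D.om n s ^ 2) sm := by
    refine integrable_sm ((hD.null.cont_ρ.comp hc).mul (Continuous.pow ?_ 2))
    exact cont_at (F := fun s n => D.om n s) (c_om hD.null) hs
  rw [integral_add i1 i2, integral_const_mul]
  have h2 : 0 ≤ ∫ n : S2, D.ρ s n * D.om n s ^ 2 ∂sm :=
    integral_nonneg fun n => mul_nonneg (hD.null.ρ_nonneg s hs n) (sq_nonneg _)
  linarith

theorem small (hD : D.Admissible) {E : ℝ} (hE : D.BondiEnergy E) {ε : ℝ} (hε : 0 < ε) (S0 : ℝ) :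
    ∃ S, S0 ≤ S ∧ 1 ≤ S ∧ ∫ n : S2, (∑ i, D.ζ S n i ^ 2) ∂sm < ε := by
  by_contra hcon
  push Not at hcon
  obtain ⟨a, ha⟩ : ∃ a, a = max S0 1 := ⟨_, rfl⟩
  have ha1 : 1 ≤ a := ha ▸ le_max_right _ _
  have haS : S0 ≤ a := ha ▸ le_max_left _ _
  have hK := cont_sph (F := fun s n => 2 * (∑ i, D.ζ s n i ^ 2) + D.ρ s n * D.om n s ^ 2)
    (EN_cont hD)
  have hint : ∀ x y : ℝ, 0 ≤ x → x ≤ y → IntervalIntegrable (fun s =>
      ∫ n : S2, (2 * (∑ i, D.ζ s n i ^ 2) + D.ρ s n * D.om n s ^ 2) ∂sm) volume x y := by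
    intro x y hx hxy
    refine ContinuousOn.intervalIntegrable ?_
    rw [uIcc_of_le hxy]
    exact hK.mono fun t ht => hx.trans ht.1
  have hT : ∀ s, 0 ≤ s → 0 ≤ ∫ n : S2, (∑ i, D.ζ s n i ^ 2) ∂sm := fun s _ =>
    integral_nonneg fun n => Finset.sum_nonneg fun i _ => sq_nonneg _
  have hlow : ∀ S, a ≤ S → 2 * ε * (S - a) ≤ Real.sqrt (16 * Real.pi * D.area S) - Th D S := by
    intro S hS
    have hS0 : 0 ≤ S := by linarith
    have h1 := energy hD hS0
    have h2 : 0 ≤ ∫ n : S2, (D.om n S - S) ∂sm :=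
      integral_nonneg fun n => (sub_pos.2 (lt_w (om_ray hD n) hS0)).le
    have h3 := intervalIntegral.integral_add_adjacent_intervals (hint 0 a le_rfl (by linarith))
      (hint a S (by linarith) hS)
    have h4 : 0 ≤ ∫ s in (0 : ℝ)..a,
        (∫ n : S2, (2 * (∑ i, D.ζ s n i ^ 2) + D.ρ s n * D.om n s ^ 2) ∂sm) := by
      refine intervalIntegral.integral_nonneg (by linarith) fun s hs => ?_
      have := hT s hs.1
      exact (by positivity : (0 : ℝ) ≤ 2 * ∫ n : S2, (∑ i, D.ζ s n i ^ 2) ∂sm).trans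
        (SM_K hD hs.1)
    have h5 : ∫ _ in a..S, (2 * ε) ≤ ∫ s in a..S,
        (∫ n : S2, (2 * (∑ i, D.ζ s n i ^ 2) + D.ρ s n * D.om n s ^ 2) ∂sm) := by
      refine intervalIntegral.integral_mono_on hS intervalIntegrable_const
        (hint a S (by linarith) hS) fun s hs => ?_
      have hs0 : 0 ≤ s := by linarith [hs.1]
      have h6 := hcon s (haS.trans hs.1) (ha1.trans hs.1)
      exact (mul_le_mul_of_nonneg_left h6 (by norm_num)).trans (SM_K hD hs0)
    rw [intervalIntegral.integral_const, smul_eq_mul] at h5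
    linarith
  have hlim : Tendsto (fun S : ℝ => (Real.sqrt (16 * Real.pi * D.area S) - Th D S) /
      (16 * Real.pi)) atTop (𝓝 E) := hE
  have hpi := Real.pi_pos
  have hev := hlim.eventually (gt_mem_nhds (lt_add_one E))
  obtain ⟨S1, hS1⟩ := eventually_atTop.1 hev
  obtain ⟨S, hS⟩ : ∃ S, S = max (max S1 a) (a + (|E| + 1) * (16 * Real.pi) / (2 * ε)) := ⟨_, rfl⟩
  have hSa : a ≤ S := hS ▸ (le_max_right _ _).trans (le_max_left _ _)
  have hSS : S1 ≤ S := hS ▸ (le_max_left _ _).trans (le_max_left _ _)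
  have h1 := hlow S hSa
  have h2 := hS1 S hSS
  rw [div_lt_iff₀ (by positivity)] at h2
  have h3 : a + (|E| + 1) * (16 * Real.pi) / (2 * ε) ≤ S := hS ▸ le_max_right _ _
  have h4 : (|E| + 1) * (16 * Real.pi) ≤ 2 * ε * (S - a) := by
    have h5 : (|E| + 1) * (16 * Real.pi) / (2 * ε) ≤ S - a := by linarith
    rw [div_le_iff₀ (by positivity)] at h5
    linarith
  have h5 : (E + 1) * (16 * Real.pi) ≤ (|E| + 1) * (16 * Real.pi) :=
    mul_le_mul_of_nonneg_right (by linarith [le_abs_self E]) (by positivity)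
  linarith

end MatterData
end NullPen
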