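import Pool.Agent.Lib.H74P.TS
import Pool.Agent.Lib.H74P.SM
import Pool.Agent.Lib.H74P.A4
import Pool.Agent.Lib.H74P.G5

set_option autoImplicit false

/-!
Chunk LIM. The limit `S → ∞`. `C` = the constant of `bounds`; take the constant `C^3`. `test_S` for `S = S_k → ∞` with `T(S_k) = ∫ Σ ζ_i^2 → 0` (`small`). The three boundary terms tend to zero: `|∫ ph la f| = |∫ (ph + 2 S log S) la f| <= (C^3/S^2) ∫ |la f|` (`ph_bound`, `la_zero`);
`|YY| <= C` (`Y_bound`) and `|Σ ζ_i gr_i| <= |ζ| |gr|`, Cauchy-Schwarz: `<= C sqrt (T(S)) sqrt (∫ XX)`; `|YY Dv/om| <= C C |gr|/S` (`bounds`, `lt_w`). And for `S >= S1`, `rr f >= 0`, `ee >= 0`: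
`H_S rr - (H_S - om 0) ee >= H_S1 rr - (H_S1 - om 0) ee - (C^3/S1^2) ee` (`H_mono`, `H_bound`). Divide by `2`: `16 pi E / 2 = 8 pi E`.
-/

open MeasureTheory Filter Topology Set
open scoped ContDiff

namespace NullPen
namespace MatterData
variable {D : MatterData}

theorem lim_cz (hD : D.Admissible) (S : ℝ) (i : Fin 3) : Continuous fun n : S2 => D.ζ S n i :=
  (hD.null.smooth_ζ i).continuous.comp (continuous_const.prodMk continuous_subtype_val)

/-- The first boundary term. -/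
theorem lim_P (hD : D.Admissible) {C : ℝ} (hC : ∀ s, 1 ≤ s → ∀ n : S2, D.om n s - s ≤ C) (f : NShell.SFun)
    {S : ℝ} (hS : 1 ≤ S) : |∫ n : S2, ph (D.om n) S * la f n ∂sm| ≤ C ^ 3 / S ^ 2 * ∫ n : S2, |la f n| ∂sm := by
  have hS0 : 0 < S := by linarith
  have cph : Continuous fun n : S2 => ph (D.om n) S :=
    cont_at (F := fun s n => ph (D.om n) s) (c_ph hD) hS0.le
  have h1 : ∫ n : S2, ph (D.om n) S * la f n ∂sm =
      ∫ n : S2, (ph (D.om n) S + 2 * S * Real.log S) * la f n ∂sm := by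
    have h2 : ∀ n : S2, (ph (D.om n) S + 2 * S * Real.log S) * la f n =
        ph (D.om n) S * la f n + 2 * S * Real.log S * la f n := fun n => by ring
    simp only [h2]
    have i1 : Integrable (fun n : S2 => ph (D.om n) S * la f n) sm :=
      integrable_sm (cph.mul (la_cont f))
    have i2 : Integrable (fun n : S2 => 2 * S * Real.log S * la f n) sm :=
      integrable_sm (continuous_const.mul (la_cont f))
    rw [integral_add i1 i2, integral_const_mul, la_zero, mul_zero, add_zero]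
  rw [h1, ← integral_const_mul, ← Real.norm_eq_abs]
  refine norm_integral_le_of_norm_le (integrable_sm (continuous_const.mul (la_cont f).abs))
    (Eventually.of_forall fun n => ?_)
  rw [Real.norm_eq_abs, abs_mul]
  exact mul_le_mul_of_nonneg_right (ph_bound (om_ray hD n) hS0 (hC S hS n)) (abs_nonneg _)

/-- The second boundary term. -/
theorem lim_Z (hD : D.Admissible) {C : ℝ} (hC0 : 0 ≤ C) (hC : ∀ s, 1 ≤ s → ∀ n : S2, D.om n s - s ≤ C)
    (f : NShell.SFun) {S : ℝ} (hS : 1 ≤ S) {η : ℝ} (hη : 0 < η) :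
    |∫ n : S2, YY (D.om n) S * (∑ i, D.ζ S n i * gr f n i) ∂sm| ≤
      C / 2 * ((∫ n : S2, (∑ i, D.ζ S n i ^ 2) ∂sm) / η + η * ∫ n : S2, XX f n ∂sm) := by
  have hS0 : 0 < S := by linarith
  have c1 : Continuous fun n : S2 => ∑ i, D.ζ S n i ^ 2 :=
    continuous_finsetSum _ fun i _ => (lim_cz hD S i).pow 2
  have h1 : C / 2 * ((∫ n : S2, (∑ i, D.ζ S n i ^ 2) ∂sm) / η + η * ∫ n : S2, XX f n ∂sm) =
      ∫ n : S2, C / 2 * ((∑ i, D.ζ S n i ^ 2) / η + η * XX f n) ∂sm := by
    have i1 : Integrable (fun n : S2 => (∑ i, D.ζ S n i ^ 2) / η) sm :=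
      integrable_sm (c1.div_const _)
    have i2 : Integrable (fun n : S2 => η * XX f n) sm :=
      integrable_sm (continuous_const.mul (XX_cont f))
    rw [integral_const_mul, integral_add i1 i2, integral_div, integral_const_mul]
  rw [h1, ← Real.norm_eq_abs]
  refine norm_integral_le_of_norm_le
    (integrable_sm (continuous_const.mul ((c1.div_const _).add (continuous_const.mul (XX_cont f)))))
    (Eventually.of_forall fun n => ?_)
  rw [Real.norm_eq_abs, abs_mul, ← gr_sq]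
  have h2 := Y_nonneg (om_ray hD n) hS0.le
  have h3 := Y_bound (om_ray hD n) hS0 (hC S hS n)
  have h4 : |∑ i, D.ζ S n i * gr f n i| ≤ ((∑ i, D.ζ S n i ^ 2) / η + η * ∑ k, gr f n k ^ 2) / 2 := by
    refine (Finset.abs_sum_le_sum_abs _ _).trans ?_
    rw [Finset.sum_div, Finset.mul_sum, ← Finset.sum_add_distrib, Finset.sum_div]
    refine Finset.sum_le_sum fun i _ => ?_
    have h5 : ∀ a b : ℝ, |a * b| ≤ (a ^ 2 / η + η * b ^ 2) / 2 := by
      intro a b
      rw [abs_le]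
      have e1 : 0 ≤ (a + η * b) ^ 2 / η := by positivity
      have e2 : 0 ≤ (a - η * b) ^ 2 / η := by positivity
      have e3 : (a + η * b) ^ 2 / η = a ^ 2 / η + 2 * (a * b) + η * b ^ 2 := by
        field_simp
        ring
      have e4 : (a - η * b) ^ 2 / η = a ^ 2 / η - 2 * (a * b) + η * b ^ 2 := by
        field_simp
        ring
      constructor <;> linarith
    exact h5 _ _
  rw [abs_of_nonneg h2]
  calc YY (D.om n) S * |∑ i, D.ζ S n i * gr f n i|
      ≤ C * (((∑ i, D.ζ S n i ^ 2) / η + η * ∑ k, gr f n k ^ 2) / 2) :=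
        mul_le_mul h3 h4 (abs_nonneg _) hC0
    _ = _ := by ring

/-- The third boundary term. -/
theorem lim_Y (hD : D.Admissible) {C : ℝ} (hC0 : 0 ≤ C) (hC : ∀ s, 1 ≤ s → ∀ n : S2, D.om n s - s ≤ C ∧
    ∀ v : Fin 3 → ℝ, ∑ k, (n : E3) k * v k = 0 → |D.Dv n v s| ≤ C * Real.sqrt (∑ k, v k ^ 2))
    (f : NShell.SFun) {S : ℝ} (hS : 1 ≤ S) :
    |∫ n : S2, YY (D.om n) S * D.Dv n (gr f n) S / D.om n S ∂sm| ≤
      C ^ 2 / S * ∫ n : S2, (1 + XX f n) ∂sm := by
  have hS0 : 0 < S := by linarith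
  rw [← integral_const_mul, ← Real.norm_eq_abs]
  refine norm_integral_le_of_norm_le
    (integrable_sm (continuous_const.mul (continuous_const.add (XX_cont f))))
    (Eventually.of_forall fun n => ?_)
  have h2 := Y_nonneg (om_ray hD n) hS0.le
  have h3 := Y_bound (om_ray hD n) hS0 (hC S hS n).1
  have h4 := (hC S hS n).2 (gr f n) (gr_tan f n)
  rw [gr_sq] at h4
  have h5 := lt_w (om_ray hD n) hS0.le
  have h6 : Real.sqrt (XX f n) ≤ 1 + XX f n := by
    have hX := XX_nonneg f n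
    rw [Real.sqrt_le_left (by linarith)]
    nlinarith
  rw [Real.norm_eq_abs, abs_div, abs_mul, abs_of_nonneg h2, abs_of_pos (hS0.trans h5)]
  have hom : 0 < D.om n S := hS0.trans h5
  have h7 : YY (D.om n) S * |D.Dv n (gr f n) S| ≤ C * (C * (1 + XX f n)) :=
    mul_le_mul h3 (h4.trans (mul_le_mul_of_nonneg_left h6 hC0)) (abs_nonneg _) hC0
  have hX := XX_nonneg f n
  calc YY (D.om n) S * |D.Dv n (gr f n) S| / D.om n S ≤ C * (C * (1 + XX f n)) / S := by
        apply div_le_div₀ (by positivity) h7 hS0 h5.le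
    _ = C ^ 2 / S * (1 + XX f n) := by ring

theorem lim (hD : D.Admissible) : ∃ C : ℝ, 0 ≤ C ∧ ∀ E, D.BondiEnergy E → ∀ S1, 1 ≤ S1 → ∀ f : NShell.SFun, (∀ n, 0 ≤ rr f n) →
    (∫ n : S2, (HH (D.om n) (D.dom n) S1 * rr f n - (HH (D.om n) (D.dom n) S1 - D.om n 0) * ee (XX f n)) ∂sm)
      - C / S1 ^ 2 * (∫ n : S2, ee (XX f n) ∂sm) ≤ 8 * Real.pi * E := by
  obtain ⟨C, hC0, hC⟩ := bounds hD
  refine ⟨C ^ 3, by positivity, fun E hE S1 hS1 f hf => ?_⟩
  have hπ := Real.pi_pos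
  have hC1 : ∀ s, 1 ≤ s → ∀ n : S2, D.om n s - s ≤ C := fun s hs n => (hC s hs n).1
  have cH : ∀ S, 0 ≤ S → Continuous fun n : S2 => HH (D.om n) (D.dom n) S := fun S hS =>
    cont_at (F := fun s n => HH (D.om n) (D.dom n) s) (c_H hD) hS
  have c0 : Continuous fun n : S2 => D.om n 0 :=
    cont_at (F := fun s n => D.om n s) (c_om hD.null) le_rfl
  have cE : Continuous fun n => ee (XX f n) := ee_cont.comp (XX_cont f)
  have cA : ∀ S, 0 ≤ S → Continuous fun n : S2 =>
      HH (D.om n) (D.dom n) S * rr f n - (HH (D.om n) (D.dom n) S - D.om n 0) * ee (XX f n) :=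
    fun S hS => ((cH S hS).mul (rr_cont f)).sub (((cH S hS).sub c0).mul cE)
  have h1 : ∀ S, S1 ≤ S →
      (∫ n : S2, (HH (D.om n) (D.dom n) S1 * rr f n - (HH (D.om n) (D.dom n) S1 - D.om n 0) * ee (XX f n)) ∂sm)
      - C ^ 3 / S1 ^ 2 * (∫ n : S2, ee (XX f n) ∂sm) ≤
      ∫ n : S2, (HH (D.om n) (D.dom n) S * rr f n - (HH (D.om n) (D.dom n) S - D.om n 0) * ee (XX f n)) ∂sm := by
    intro S hS
    have i1 := integrable_sm (cA S1 (by linarith))
    have i2 : Integrable (fun n : S2 => C ^ 3 / S1 ^ 2 * ee (XX f n)) sm :=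
      integrable_sm (continuous_const.mul cE)
    rw [← integral_const_mul, ← integral_sub i1 i2]
    refine integral_mono (integrable_sm ((cA S1 (by linarith)).sub (continuous_const.mul cE)))
      (integrable_sm (cA S (by linarith))) fun n => ?_
    have e1 := H_mono (om_ray hD n) (by linarith : (0 : ℝ) ≤ S1) hS
    have e2 := H_bound (om_ray hD n) (fun t ht => hC1 t ht n) hS1 hS
    have e3 := mul_le_mul_of_nonneg_right e1 (hf n)
    have e4 := mul_le_mul_of_nonneg_right e2 (ee_nonneg (XX f n))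
    simp only
    linarith
  set A1 := (∫ n : S2, (HH (D.om n) (D.dom n) S1 * rr f n - (HH (D.om n) (D.dom n) S1 - D.om n 0) * ee (XX f n)) ∂sm)
      - C ^ 3 / S1 ^ 2 * (∫ n : S2, ee (XX f n) ∂sm) with hA1
  set L := ∫ n : S2, |la f n| ∂sm with hL
  set X1 := ∫ n : S2, (1 + XX f n) ∂sm with hX1
  set X0 := ∫ n : S2, XX f n ∂sm with hX0
  have hX0' : 0 ≤ X0 := integral_nonneg fun n => XX_nonneg f n
  -- the limit of the right side
  have ht : Tendsto (fun S : ℝ => 16 * Real.pi * ((Real.sqrt (16 * Real.pi * D.area S) - Th D S) / (16 * Real.pi))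
      + 2 * (C ^ 3 / S ^ 2 * L) + 4 * (C ^ 2 / S * X1)) atTop
      (𝓝 (16 * Real.pi * E + 2 * (0 * L) + 4 * (0 * X1))) := by
    refine ((Tendsto.const_mul _ hE).add (Tendsto.const_mul _ (Tendsto.mul_const _ ?_))).add
      (Tendsto.const_mul _ (Tendsto.mul_const _ ?_))
    · exact tendsto_const_nhds.div_atTop (tendsto_pow_atTop two_ne_zero)
    · exact tendsto_const_nhds.div_atTop tendsto_id
  refine le_of_forall_pos_le_add fun ε hε => ?_
  have ht2 := ht.eventually_lt_const (u := 16 * Real.pi * E + ε) (by linarith)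
  obtain ⟨S0, hS0⟩ := eventually_atTop.1 ht2
  set η := ε / (2 * C * (1 + X0) + 1) with hη
  have hden : 0 < 2 * C * (1 + X0) + 1 := by positivity
  have hηpos : 0 < η := by positivity
  obtain ⟨S, hS2, hS3, hS4⟩ := small hD hE (ε := η ^ 2) (by positivity) (max S0 S1)
  have hSS1 : S1 ≤ S := (le_max_right _ _).trans hS2
  have k0 := h1 S hSS1
  have k1 := test_S hD f (by linarith : (0 : ℝ) ≤ S)
  have k2 := lim_P hD hC1 f hS3
  have k3 := lim_Z hD hC0 hC1 f hS3 hηpos
  have k4 := lim_Y hD hC0 hC f hS3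
  have k5 := hS0 S ((le_max_left _ _).trans hS2)
  have k6 : 16 * Real.pi * ((Real.sqrt (16 * Real.pi * D.area S) - Th D S) / (16 * Real.pi)) =
      Real.sqrt (16 * Real.pi * D.area S) - Th D S := by
    field_simp
  rw [k6] at k5
  have k7 : (∫ n : S2, (∑ i, D.ζ S n i ^ 2) ∂sm) / η ≤ η := by
    rw [div_le_iff₀ hηpos, ← sq]
    exact hS4.le
  have k8 : C / 2 * ((∫ n : S2, (∑ i, D.ζ S n i ^ 2) ∂sm) / η + η * X0) ≤ C / 2 * (η + η * X0) :=
    mul_le_mul_of_nonneg_left (by linarith) (by positivity)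
  have k9 : 4 * (C / 2 * (η + η * X0)) ≤ ε := by
    have e1 : η * (2 * C * (1 + X0) + 1) = ε := by
      rw [hη]
      field_simp
    nlinarith
  have k2' := (abs_le.1 k2).1
  have k3' := (abs_le.1 k3).1
  have k4' := (abs_le.1 k4).2
  linarith

end MatterData
end NullPen
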