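import Pool.Agent.Lib.H74P.A2

set_option autoImplicit false

/-!
Chunk T0. The momentum density of a shear-free hypersurface. `Σ gi gi chi - exL gi = - (lam'/(2 lam^2)) P`, so `mom = - (lam'/(4 lam^2)) Σ P_ij lie_ij`.
`Σ_ij P_ij Σ_k V_k pd k g_ij = 2 Σ_k V_k pd k lam`: `V` is tangential at `n` and `g_ij = lam proj_ij` on the sphere, so the tangential derivatives agree
(two smooth functions which agree on the sphere: `NShell.fderiv_rot_congr` with `V = Σ_i <V, r_i> r_i`, `r_i = rotv i n`; or differentiate along a curve on the sphere), and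
`Σ P_ij V(proj_ij) = 0` (`V(proj_ij) = - V_i n_j - n_i V_j`). `Σ_ij P_ij Σ_k (g_kj pd i V_k + g_ik pd j V_k) = 2 lam Σ_ik P_ik pd i V_k`. `pd` is `fderiv` on basis vectors for
smooth functions: `pd_fderiv` (statement in H17P/M2; prove it again as `pdf` here).
-/

open MeasureTheory Filter Topology Set
open scoped ContDiff

namespace NullPen

theorem pdf {f : E3 → ℝ} {x : E3} (hf : DifferentiableAt ℝ f x) (k : Fin 3) :
    pd k f x = fderiv ℝ f x (EuclideanSpace.single k 1) := by
  unfold pd
  have h1 : HasDerivAt (fun t : ℝ => x + t • EuclideanSpace.single k (1 : ℝ)) (EuclideanSpace.single k (1 : ℝ)) 0 := by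
    have h := ((hasDerivAt_id (0 : ℝ)).smul_const (EuclideanSpace.single k (1 : ℝ) : E3)).const_add x
    simpa using h
  have h2 : HasFDerivAt f (fderiv ℝ f x) (x + (0 : ℝ) • EuclideanSpace.single k (1 : ℝ)) := by
    simpa using hf.hasFDerivAt
  exact (h2.comp_hasDerivAt (0 : ℝ) h1).deriv

theorem t0_unit (n : S2) : ∑ i, (n : E3) i ^ 2 = 1 := by
  have h1 : ‖(n : E3)‖ = 1 := by simp
  have h2 := EuclideanSpace.norm_sq_eq (n : E3)
  rw [h1, Fin.sum_univ_three] at h2
  simp only [Real.norm_eq_abs, sq_abs] at h2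
  rw [Fin.sum_univ_three]
  linarith

theorem t0_tan0 {f : E3 → ℝ} {n : S2} (hf : DifferentiableAt ℝ f n) (h : ∀ m : S2, f m = 0)
    {V : Fin 3 → ℝ} (hV : ∑ i, (n : E3) i * V i = 0) : ∑ k, V k * pd k f n = 0 := by
  have hu : ∑ i, (n : E3) i ^ 2 = 1 := t0_unit n
  have h1 : ∀ i, fderiv ℝ f n (NShell.rotv i n) = 0 := by
    intro i
    have h2 := NShell.fderiv_rot_congr (F := f) (G := fun _ => 0) (n := n) (fun m => h m) hf
      (differentiableAt_const _) i
    rw [h2]
    simp
  have h3 : ∀ i : Fin 3, (n : E3) (i + 1) * pd (i + 2) f n - (n : E3) (i + 2) * pd (i + 1) f n = 0 := by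
    intro i
    rw [← h1 i, pdf hf, pdf hf]
    unfold NShell.rotv
    rw [map_sub, map_smul, map_smul, smul_eq_mul, smul_eq_mul]
  have c0 := h3 0
  have c1 := h3 1
  have c2 := h3 2
  have e1 : (1 : Fin 3) + 1 = 2 := rfl
  have e2 : (1 : Fin 3) + 2 = 0 := rfl
  have e3 : (2 : Fin 3) + 1 = 0 := rfl
  have e4 : (2 : Fin 3) + 2 = 1 := rfl
  rw [zero_add, zero_add] at c0
  rw [e1, e2] at c1
  rw [e3, e4] at c2
  simp only [Fin.sum_univ_three] at hu hV ⊢
  generalize (n : E3) 0 = a at *
  generalize (n : E3) 1 = b at *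
  generalize (n : E3) 2 = c at *
  generalize pd 0 f n = x at *
  generalize pd 1 f n = y at *
  generalize pd 2 f n = z at *
  linear_combination (-(V 0 * x + V 1 * y + V 2 * z)) * hu + (a * x + b * y + c * z) * hV +
    (V 1 * a - V 0 * b) * c2 + (V 2 * b - V 1 * c) * c0 + (V 0 * c - V 2 * a) * c1

theorem t0_sub {f g : E3 → ℝ} {x : E3} (hf : DifferentiableAt ℝ f x) (hg : DifferentiableAt ℝ g x) (k : Fin 3) :
    pd k (fun y => f y - g y) x = pd k f x - pd k g x := by
  rw [pdf hf, pdf hg, pdf (hf.fun_sub hg), fderiv_fun_sub hf hg]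
  rfl

theorem t0_mul {f g : E3 → ℝ} {x : E3} (hf : DifferentiableAt ℝ f x) (hg : DifferentiableAt ℝ g x) (k : Fin 3) :
    pd k (fun y => f y * g y) x = f x * pd k g x + g x * pd k f x := by
  rw [pdf hf, pdf hg, pdf (hf.fun_mul hg), fderiv_fun_mul hf hg]
  rfl

theorem t0_diff {F : E3 → ℝ} (hF : ContDiff ℝ ∞ F) (x : E3) : DifferentiableAt ℝ F x :=
  hF.differentiable (by simp) x

/-- Tangential derivatives only depend on the values on the sphere. -/
theorem pd_congr {F G : E3 → ℝ} (hF : ContDiff ℝ ∞ F) (hG : ContDiff ℝ ∞ G) (h : ∀ n : S2, F n = G n) (n : S2)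
    {v : Fin 3 → ℝ} (hv : ∑ k, (n : E3) k * v k = 0) : ∑ k, v k * pd k F n = ∑ k, v k * pd k G n := by
  have hf := t0_diff hF n
  have hg := t0_diff hG n
  have h1 := t0_tan0 (f := fun y => F y - G y) (hf.fun_sub hg) (fun m => by rw [h m, sub_self]) hv
  rw [← sub_eq_zero, ← Finset.sum_sub_distrib, ← h1]
  refine Finset.sum_congr rfl fun k _ => ?_
  rw [t0_sub hf hg]
  ring

theorem t0_coord (i : Fin 3) : ContDiff ℝ ∞ (fun y : E3 => y i) := (EuclideanSpace.proj i : E3 →L[ℝ] ℝ).contDiff

theorem t0_pdcoord (i k : Fin 3) (x : E3) : pd k (fun y : E3 => y i) x = if i = k then 1 else 0 := by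
  rw [pdf ((t0_coord i).differentiable (by simp) x)]
  have h : fderiv ℝ (fun y : E3 => y i) x = (EuclideanSpace.proj i : E3 →L[ℝ] ℝ) :=
    (EuclideanSpace.proj i : E3 →L[ℝ] ℝ).fderiv
  rw [h]
  simp

theorem t0_proj (i j : Fin 3) : ContDiff ℝ ∞ (fun y : E3 => proj y i j) :=
  (contDiff_const (c := if i = j then (1 : ℝ) else 0)).sub ((t0_coord i).mul (t0_coord j))

theorem t0_pdproj (i j k : Fin 3) (x : E3) : pd k (fun y : E3 => proj y i j) x =
    -(x i * (if j = k then 1 else 0) + x j * (if i = k then 1 else 0)) := by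
  unfold proj
  have h1 := t0_sub (f := fun _ : E3 => if i = j then (1 : ℝ) else 0) (g := fun y : E3 => y i * y j) (x := x)
    (differentiableAt_const _) (t0_diff ((t0_coord i).mul (t0_coord j)) x) k
  rw [h1, t0_mul (t0_diff (t0_coord i) x) (t0_diff (t0_coord j) x), t0_pdcoord, t0_pdcoord]
  have h2 : pd k (fun _ : E3 => if i = j then (1 : ℝ) else 0) x = 0 := by
    simp [pd]
  rw [h2]
  ring

theorem t0_PP (n : S2) (i j : Fin 3) : ∑ k, proj n i k * proj n k j = proj n i j := by
  have hu := t0_unit n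
  simp only [Fin.sum_univ_three, proj] at hu ⊢
  fin_cases i <;> fin_cases j <;> simp <;>
    [linear_combination ((n : E3) 0 * (n : E3) 0) * hu; linear_combination ((n : E3) 0 * (n : E3) 1) * hu;
      linear_combination ((n : E3) 0 * (n : E3) 2) * hu; linear_combination ((n : E3) 1 * (n : E3) 0) * hu;
      linear_combination ((n : E3) 1 * (n : E3) 1) * hu; linear_combination ((n : E3) 1 * (n : E3) 2) * hu;
      linear_combination ((n : E3) 2 * (n : E3) 0) * hu; linear_combination ((n : E3) 2 * (n : E3) 1) * hu;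
      linear_combination ((n : E3) 2 * (n : E3) 2) * hu]

theorem t0_symm (n : E3) (i j : Fin 3) : proj n i j = proj n j i := by
  unfold proj
  by_cases hij : i = j
  · rw [hij]
  · have hji : ¬ j = i := fun h => hij h.symm
    simp only [hij, hji, if_false]
    ring

theorem t0_Pn (n : S2) (i : Fin 3) : ∑ j, proj n i j * (n : E3) j = 0 := by
  have hu := t0_unit n
  simp only [Fin.sum_univ_three, proj] at hu ⊢
  fin_cases i <;> simp <;>
    [linear_combination (-(n : E3) 0) * hu; linear_combination (-(n : E3) 1) * hu; linear_combination (-(n : E3) 2) * hu]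

theorem t0_tr (n : S2) : ∑ i, proj n i i = 2 := by
  have hu := t0_unit n
  simp only [Fin.sum_univ_three, proj, if_true] at hu ⊢
  linear_combination (-1 : ℝ) * hu

/-- `P v = v` for tangential `v`. -/
theorem t0_Pv (n : S2) {v : Fin 3 → ℝ} (hv : ∑ k, (n : E3) k * v k = 0) (i : Fin 3) :
    ∑ j, proj n i j * v j = v i := by
  simp only [Fin.sum_univ_three, proj] at hv ⊢
  fin_cases i <;> simp <;>
    [linear_combination (-(n : E3) 0) * hv; linear_combination (-(n : E3) 1) * hv; linear_combination (-(n : E3) 2) * hv]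

namespace MatterData
variable {D : MatterData}

theorem t0_lam (hD : D.IsNull) (s : ℝ) : ContDiff ℝ ∞ (D.lam s) :=
  (lam_smooth hD).comp (contDiff_const.prodMk contDiff_id)

theorem t0_lam' (hD : D.IsNull) (s : ℝ) : ContDiff ℝ ∞ (D.lam' s) :=
  (lam'_smooth hD).comp (contDiff_const.prodMk contDiff_id)

theorem t0_g (hD : D.IsNull) (s : ℝ) (i j : Fin 3) : ContDiff ℝ ∞ (fun y : E3 => D.g s y i j) :=
  (hD.smooth_g i j).comp (contDiff_const.prodMk contDiff_id)

theorem mom_eq (hD : D.Admissible) {V : E3 → Fin 3 → ℝ} (hV : ∀ i, ContDiff ℝ ∞ (fun y => V y i))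
    (hVt : ∀ n : S2, ∑ i, (n : E3) i * V n i = 0) {s : ℝ} (hs : 0 < s) (n : S2) :
    D.mom s V n * D.dA s n = - (D.lam' s n / (2 * D.lam s n)) *
      ((∑ k, V n k * pd k (D.lam s) n) + D.lam s n * ∑ i, ∑ j, proj n i j * pd i (fun y => V y j) n) := by
  have hl : 0 < D.lam s n := lam_pos hD.null n hs.le
  have hPP := t0_PP n
  have hPn := t0_Pn n
  have hsy := t0_symm (n : E3)
  have htr : ∑ i, ∑ j, proj n i j * proj n i j = 2 := by
    rw [← t0_tr n]
    refine Finset.sum_congr rfl fun i _ => ?_
    rw [← hPP i i]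
    refine Finset.sum_congr rfl fun j _ => ?_
    rw [hsy j i]
  -- the first factor
  have h1 : ∀ i j, ((∑ k, ∑ l, D.gi s n i k * D.gi s n j l * D.chi s n k l) - D.exL s n * D.gi s n i j) =
      - (D.lam' s n / (2 * D.lam s n ^ 2)) * proj n i j := by
    intro i j
    have h2 : ∑ k, ∑ l, D.gi s n i k * D.gi s n j l * D.chi s n k l =
        ((D.lam s n)⁻¹ * (D.lam s n)⁻¹ * (D.lam' s n / 2)) * ∑ k, proj n i k * ∑ l, proj n k l * proj n l j := by
      rw [Finset.mul_sum]
      refine Finset.sum_congr rfl fun k _ => ?_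
      rw [Finset.mul_sum, Finset.mul_sum]
      refine Finset.sum_congr rfl fun l _ => ?_
      rw [gi_eq hD n hs.le, gi_eq hD n hs.le, chi_eq hD n hs, hsy j l]
      ring
    rw [h2]
    simp only [hPP]
    rw [gi_eq hD n hs.le, exL_eq hD n hs]
    field_simp
    ring
  -- the derivative of the metric in the direction `V`
  have h3 : ∀ i j, ∑ k, V n k * pd k (fun y => D.g s y i j) n =
      proj n i j * (∑ k, V n k * pd k (D.lam s) n) - D.lam s n * (V n i * (n : E3) j + (n : E3) i * V n j) := by
    intro i j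
    rw [pd_congr (t0_g hD.null s i j) ((t0_lam hD.null s).mul (t0_proj i j))
      (fun m => g_eq hD m hs.le i j) n (hVt n)]
    have h4 : ∀ k, pd k (fun y => D.lam s y * proj y i j) n = D.lam s n *
        (-((n : E3) i * (if j = k then 1 else 0) + (n : E3) j * (if i = k then 1 else 0))) +
        proj n i j * pd k (D.lam s) n := by
      intro k
      rw [t0_mul (t0_diff (t0_lam hD.null s) n) (t0_diff (t0_proj i j) n), t0_pdproj]
    simp only [h4]
    rw [Finset.mul_sum]
    have h5 : V n i * (n : E3) j + (n : E3) i * V n j =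
        ∑ k, V n k * ((n : E3) i * (if j = k then 1 else 0) + (n : E3) j * (if i = k then 1 else 0)) := by
      simp only [mul_add, Finset.sum_add_distrib, mul_ite, mul_one, mul_zero, Finset.sum_ite_eq,
        Finset.mem_univ, if_true]
      ring
    rw [h5, Finset.mul_sum, ← Finset.sum_sub_distrib]
    refine Finset.sum_congr rfl fun k _ => ?_
    ring
  -- the contraction
  have h6 : ∑ i, ∑ j, proj n i j * D.lie s V n i j = 2 * ((∑ k, V n k * pd k (D.lam s) n) +
      D.lam s n * ∑ i, ∑ j, proj n i j * pd i (fun y => V y j) n) := by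
    set X := ∑ k, V n k * pd k (D.lam s) n with hX
    have h7 : ∀ i j, D.lie s V n i j = (proj n i j * X - D.lam s n * (V n i * (n : E3) j + (n : E3) i * V n j)) +
        D.lam s n * (∑ k, proj n k j * pd i (fun y => V y k) n) +
        D.lam s n * (∑ k, proj n i k * pd j (fun y => V y k) n) := by
      intro i j
      rw [← h3 i j]
      unfold NullData.lie
      rw [Finset.sum_add_distrib, Finset.sum_add_distrib, Finset.mul_sum, Finset.mul_sum]
      congr 1
      · congr 1
        refine Finset.sum_congr rfl fun k _ => ?_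
        rw [g_eq hD n hs.le]
        ring
      · refine Finset.sum_congr rfl fun k _ => ?_
        rw [g_eq hD n hs.le]
        ring
    simp only [h7]
    generalize hW : (fun i j : Fin 3 => pd i (fun y => V y j) n) = W
    have hW' : ∀ i j : Fin 3, pd i (fun y => V y j) n = W i j := by
      intro i j
      rw [← hW]
    simp only [hW']
    have p1 : ∀ i k, ∑ j, proj n i j * proj n k j = proj n i k := by
      intro i k
      rw [← hPP i k]
      refine Finset.sum_congr rfl fun j _ => ?_
      rw [hsy k j]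
    have e1 : ∑ i, ∑ j, proj n i j * (D.lam s n * ∑ k, proj n k j * W i k) =
        D.lam s n * ∑ i, ∑ k, (∑ j, proj n i j * proj n k j) * W i k := by
      simp only [Fin.sum_univ_three]
      ring
    have e2 : ∑ i, ∑ j, proj n i j * (D.lam s n * ∑ k, proj n i k * W j k) =
        D.lam s n * ∑ j, ∑ k, (∑ i, proj n i j * proj n i k) * W j k := by
      simp only [Fin.sum_univ_three]
      ring
    have p2 : ∀ j k, ∑ i, proj n i j * proj n i k = proj n j k := by
      intro j k
      rw [← hPP j k]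
      refine Finset.sum_congr rfl fun i _ => ?_
      rw [hsy i j]
    have e3 : ∑ i, ∑ j, proj n i j * (proj n i j * X - D.lam s n * (V n i * (n : E3) j + (n : E3) i * V n j)) =
        (∑ i, ∑ j, proj n i j * proj n i j) * X - D.lam s n * ((∑ i, V n i * ∑ j, proj n i j * (n : E3) j) +
          ∑ j, V n j * ∑ i, proj n i j * (n : E3) i) := by
      simp only [Fin.sum_univ_three]
      ring
    have p3 : ∀ j, ∑ i, proj n i j * (n : E3) i = 0 := by
      intro j
      rw [← hPn j]
      refine Finset.sum_congr rfl fun i _ => ?_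
      rw [hsy i j]
    have e4 : ∑ i, ∑ j, proj n i j * ((proj n i j * X - D.lam s n * (V n i * (n : E3) j + (n : E3) i * V n j)) +
        D.lam s n * (∑ k, proj n k j * W i k) + D.lam s n * (∑ k, proj n i k * W j k)) =
        ∑ i, ∑ j, proj n i j * (proj n i j * X - D.lam s n * (V n i * (n : E3) j + (n : E3) i * V n j)) +
        ∑ i, ∑ j, proj n i j * (D.lam s n * ∑ k, proj n k j * W i k) +
        ∑ i, ∑ j, proj n i j * (D.lam s n * ∑ k, proj n i k * W j k) := by
      simp only [← Finset.sum_add_distrib, mul_add]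
    rw [e4, e3, e1, e2, htr]
    simp only [p1, p2, p3, hPn, mul_zero, Finset.sum_const_zero]
    ring
  have h8 : D.mom s V n = - (D.lam' s n / (2 * D.lam s n ^ 2)) * (∑ i, ∑ j, proj n i j * D.lie s V n i j) / 2 := by
    unfold NullData.mom
    simp only [h1]
    congr 1
    rw [Finset.mul_sum]
    refine Finset.sum_congr rfl fun i _ => ?_
    rw [Finset.mul_sum]
    refine Finset.sum_congr rfl fun j _ => ?_
    ring
  rw [h8, h6, dA_eq hD n hs.le]
  field_simp

end MatterData
end NullPen
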