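import Pool.Agent.Lib.H74P.A3
import Pool.Agent.Lib.H74P.T1B
import Pool.Agent.Lib.H74P.G6

set_option autoImplicit false

/-!
Chunk T2. `ray_ineq` for the data: `w = om n`, `dw = dom n`, `z = Σ ζ_i v_i`, `z2 = Σ ζ_i^2`, `jv = Σ j_i v_i`, `j2 = Σ j_i^2`, `Dv`, `dDv`, `W = Σ v_i^2`.
`dv_der`: quotient rule, `lam_pd`, `om_der`, and `∂_s (2 om) = 2 dom`. `hτ`: `tor_pt` and `om dDv - dom Dv = (1/2) Σ v_k pd k lam' - (lam'/(2 lam)) Σ v_k pd k lam`
(`dom = lam'/(2 om)`, `om^2 = lam`; the function `z w^2` is equal to `z lam` for all `t` near `s > 0`). `hz`, `hj`: Cauchy-Schwarz. `hjj`: `dec_eq`.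
-/

open MeasureTheory Filter Topology Set
open scoped ContDiff

namespace NullPen
namespace MatterData
variable {D : MatterData}

theorem dv_der (hD : D.IsNull) (n : S2) (v : Fin 3 → ℝ) {s : ℝ} (hs : 0 ≤ s) :
    HasDerivAt (D.Dv n v) (D.dDv n v s) s := by
  have h0 := (om_pos hD n hs).ne'
  have h1 : HasDerivAt (fun t => ∑ k, v k * pd k (D.lam t) n) (∑ k, v k * pd k (D.lam' s) n) s :=
    HasDerivAt.fun_sum fun k _ => (lam_pd hD k s n).const_mul (v k)
  have h2 := (om_der hD n hs).const_mul 2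
  have h3 := h1.div h2 (mul_ne_zero two_ne_zero h0)
  refine h3.congr_deriv ?_
  unfold dDv Dv
  field_simp

theorem ray_data (hD : D.Admissible) (n : S2) {v : Fin 3 → ℝ} (hv : ∑ k, (n : E3) k * v k = 0) {S : ℝ} (hS : 0 ≤ S) :
    4 * YY (D.om n) S * (∑ i, D.ζ S n i * v i) - 4 * YY (D.om n) S * D.Dv n v S / D.om n S
      + 4 * (∫ t in (0 : ℝ)..S, qq (D.om n) t ^ 2 * D.Dv n v t / D.om n t) - 2 * QQ (D.om n) (D.dom n) S * (∑ i, v i ^ 2)
      ≤ ∫ t in (0 : ℝ)..S, (2 * (∑ i, D.ζ t n i ^ 2) + D.ρ t n * D.om n t ^ 2) := by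
  have cζ : ∀ i, Continuous (fun t : ℝ => D.ζ t n i) := fun i =>
    (hD.null.smooth_ζ i).continuous.comp (continuous_id.prodMk continuous_const)
  have cρ : Continuous (fun t : ℝ => D.ρ t n) :=
    hD.null.cont_ρ.comp (continuous_id.prodMk continuous_const)
  refine ray_ineq (om_ray hD n) (e := fun s => D.e s n) (ρ := fun s => D.ρ s n)
    (z := fun s => ∑ i, D.ζ s n i * v i) (z2 := fun s => ∑ i, D.ζ s n i ^ 2)
    (jv := fun s => ∑ i, D.j s n i * v i) (j2 := fun s => ∑ i, D.j s n i ^ 2)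
    (Dv := D.Dv n v) (dDv := D.dDv n v) (W := ∑ i, v i ^ 2)
    (Finset.sum_nonneg fun i _ => sq_nonneg _) (fun s hs => dom_der hD n hs)
    ?_ ?_ cρ.continuousOn ?_ (fun s hs => dv_der hD.null n v hs.le) ?_
    (fun s hs => hD.null.e_nonneg s hs.le n) (fun s hs => hD.null.ρ_nonneg s hs.le n)
    (fun s _ => Finset.sum_nonneg fun i _ => sq_nonneg _)
    (fun s _ => Finset.sum_mul_sq_le_sq_mul_sq _ _ _)
    (fun s _ => Finset.sum_mul_sq_le_sq_mul_sq _ _ _) ?_ hS
  · exact (continuous_finsetSum _ fun i _ => (cζ i).mul continuous_const).continuousOn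
  · exact (continuous_finsetSum _ fun i _ => (cζ i).pow 2).continuousOn
  · exact fun s hs => (dv_der hD.null n v hs).continuousAt.continuousWithinAt
  · intro s hs
    have h0 := (om_pos hD.null n hs.le).ne'
    have h1 := tor_pt hD n hv hs
    have h2 : (fun t => (∑ i, D.ζ t n i * v i) * D.om n t ^ 2) =ᶠ[𝓝 s]
        fun t => (∑ i, D.ζ t n i * v i) * D.lam t n := by
      filter_upwards [lt_mem_nhds hs] with t ht
      rw [om_sq hD.null n (le_of_lt ht)]
    refine (h1.congr_of_eventuallyEq h2).congr_deriv ?_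
    rw [← om_sq hD.null n hs.le]
    unfold dDv Dv dom
    field_simp
    ring
  · intro s hs
    rw [om_sq hD.null n hs.le]
    exact dec_eq hD n hs.le

end MatterData
end NullPen
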