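import Pool.Agent.Lib.H74P.L1
import Pool.Agent.Lib.H74P.T2
import Pool.Agent.Lib.H74P.EN
import Pool.Agent.Lib.H74P.G4

set_option autoImplicit false

/-!
Chunk TS. The energy inequality with the test function `f`: integrate `ray_data` with `v = gr f n` over the sphere (`gr_tan`, `gr_sq`), Fubini (`fub`), `energy`, `lin`. Then
`om - S - H la f - Q XX >= H rr - (H - om 0) ee` (`pt_ineq` with `r = rr f`, `X = XX f`, `1 - X - r = la f` by `rr_eq`), integrated.
-/

open MeasureTheory Filter Topology Set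
open scoped ContDiff

namespace NullPen
namespace MatterData
variable {D : MatterData}

theorem TS_c {F : ℝ → S2 → ℝ} (hF : ContinuousOn (fun p : ℝ × S2 => F p.1 p.2) (Ici 0 ×ˢ univ)) {S : ℝ} (hS : 0 ≤ S) :
    Continuous fun n : S2 => ∫ t in (0 : ℝ)..S, F t n :=
  cont_at (F := fun s n => ∫ t in (0 : ℝ)..s, F t n) (cont_int hF) hS

theorem TS_int4 {A B C E F : S2 → ℝ} (iA : Integrable A sm) (iB : Integrable B sm)
    (iC : Integrable C sm) (iE : Integrable E sm) (iF : Integrable F sm)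
    (h : ∀ n, 4 * A n - 4 * B n + 4 * C n - 2 * E n ≤ F n) :
    4 * (∫ n : S2, A n ∂sm) - 4 * (∫ n : S2, B n ∂sm) + 4 * (∫ n : S2, C n ∂sm)
      - 2 * (∫ n : S2, E n ∂sm) ≤ ∫ n : S2, F n ∂sm := by
  have e : ∫ n : S2, (4 * A n - 4 * B n + 4 * C n - 2 * E n) ∂sm =
      4 * (∫ n : S2, A n ∂sm) - 4 * (∫ n : S2, B n ∂sm) + 4 * (∫ n : S2, C n ∂sm)
      - 2 * (∫ n : S2, E n ∂sm) := by
    have i1 : Integrable (fun n => 4 * A n) sm := iA.const_mul 4
    have i2 : Integrable (fun n => 4 * B n) sm := iB.const_mul 4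
    have i3 : Integrable (fun n => 4 * C n) sm := iC.const_mul 4
    have i4 : Integrable (fun n => 2 * E n) sm := iE.const_mul 2
    have i5 : Integrable (fun n => 4 * A n - 4 * B n) sm := i1.sub i2
    have i6 : Integrable (fun n => 4 * A n - 4 * B n + 4 * C n) sm := i5.add i3
    rw [integral_sub i6 i4, integral_add i5 i3, integral_sub i1 i2, integral_const_mul,
      integral_const_mul, integral_const_mul, integral_const_mul]
  rw [← e]
  exact integral_mono ((((iA.const_mul 4).sub (iB.const_mul 4)).add (iC.const_mul 4)).sub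
    (iE.const_mul 2)) iF h

theorem TS_int3 {A B C E : S2 → ℝ} (iA : Integrable A sm) (iB : Integrable B sm)
    (iC : Integrable C sm) (iE : Integrable E sm) (h : ∀ n, E n ≤ A n - B n - C n) :
    ∫ n : S2, E n ∂sm ≤ ∫ n : S2, A n ∂sm - ∫ n : S2, B n ∂sm - ∫ n : S2, C n ∂sm := by
  have i5 : Integrable (fun n => A n - B n) sm := iA.sub iB
  have e : ∫ n : S2, (A n - B n - C n) ∂sm =
      ∫ n : S2, A n ∂sm - ∫ n : S2, B n ∂sm - ∫ n : S2, C n ∂sm := by
    rw [integral_sub i5 iC, integral_sub iA iB]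
  rw [← e]
  exact integral_mono iE (i5.sub iC) h

theorem TS_zcont (hD : D.Admissible) (f : NShell.SFun) (S : ℝ) :
    Continuous fun n : S2 => ∑ i, D.ζ S n i * gr f n i := by
  have hc : Continuous (fun n : S2 => (S, (n : E3))) :=
    continuous_const.prodMk continuous_subtype_val
  exact continuous_finsetSum _ fun i _ =>
    ((hD.null.smooth_ζ i).continuous.comp hc).mul (gr_cont f i)

theorem TS_ray (hD : D.Admissible) (f : NShell.SFun) {S : ℝ} (hS : 0 ≤ S) :
    4 * (∫ n : S2, YY (D.om n) S * (∑ i, D.ζ S n i * gr f n i) ∂sm)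
      - 4 * (∫ n : S2, YY (D.om n) S * D.Dv n (gr f n) S / D.om n S ∂sm)
      + 4 * (∫ n : S2, (∫ t in (0 : ℝ)..S, qq (D.om n) t ^ 2 * D.Dv n (gr f n) t / D.om n t) ∂sm)
      - 2 * (∫ n : S2, QQ (D.om n) (D.dom n) S * XX f n ∂sm)
    ≤ ∫ s in (0 : ℝ)..S, (∫ n : S2, (2 * (∑ i, D.ζ s n i ^ 2) + D.ρ s n * D.om n s ^ 2) ∂sm) := by
  have hYc : Continuous fun n : S2 => YY (D.om n) S :=
    cont_at (F := fun s n => YY (D.om n) s) (c_Y hD) hS
  have hQc : Continuous fun n : S2 => QQ (D.om n) (D.dom n) S :=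
    cont_at (F := fun s n => QQ (D.om n) (D.dom n) s) (c_Q hD) hS
  have homc : Continuous fun n : S2 => D.om n S :=
    cont_at (F := fun s n => D.om n s) (c_om hD.null) hS
  have hDvc : Continuous fun n : S2 => D.Dv n (gr f n) S :=
    cont_at (F := fun s n => D.Dv n (gr f n) s) (c_Dv hD.null (gr_cont f)) hS
  have hF : ContinuousOn (fun p : ℝ × S2 => qq (D.om p.2) p.1 ^ 2 * D.Dv p.2 (gr f p.2) p.1 / D.om p.2 p.1)
      (Ici 0 ×ˢ univ) :=
    ContinuousOn.div (((c_q hD).pow 2).mul (c_Dv hD.null (gr_cont f))) (c_om hD.null) (c2_ne hD.null)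
  have hIc : Continuous fun n : S2 =>
      ∫ t in (0 : ℝ)..S, qq (D.om n) t ^ 2 * D.Dv n (gr f n) t / D.om n t :=
    cont_at (F := fun s n => ∫ t in (0 : ℝ)..s, qq (D.om n) t ^ 2 * D.Dv n (gr f n) t / D.om n t)
      (cont_int (F := fun t n => qq (D.om n) t ^ 2 * D.Dv n (gr f n) t / D.om n t) hF) hS
  have hEc : Continuous fun n : S2 =>
      ∫ t in (0 : ℝ)..S, (2 * (∑ i, D.ζ t n i ^ 2) + D.ρ t n * D.om n t ^ 2) :=
    TS_c (F := fun t n => 2 * (∑ i, D.ζ t n i ^ 2) + D.ρ t n * D.om n t ^ 2) (EN_cont hD) hS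
  have i1 : Integrable (fun n : S2 => YY (D.om n) S * (∑ i, D.ζ S n i * gr f n i)) sm :=
    integrable_sm (hYc.mul (TS_zcont hD f S))
  have i2 : Integrable (fun n : S2 => YY (D.om n) S * D.Dv n (gr f n) S / D.om n S) sm :=
    integrable_sm ((hYc.mul hDvc).div homc fun n => (om_pos hD.null n hS).ne')
  have i3 : Integrable (fun n : S2 =>
      ∫ t in (0 : ℝ)..S, qq (D.om n) t ^ 2 * D.Dv n (gr f n) t / D.om n t) sm := integrable_sm hIc
  have i4 : Integrable (fun n : S2 => QQ (D.om n) (D.dom n) S * XX f n) sm :=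
    integrable_sm (hQc.mul (XX_cont f))
  have i5 := integrable_sm hEc
  rw [fub (F := fun s n => 2 * (∑ i, D.ζ s n i ^ 2) + D.ρ s n * D.om n s ^ 2) (EN_cont hD) hS]
  have key : ∀ n : S2, 4 * (YY (D.om n) S * (∑ i, D.ζ S n i * gr f n i))
      - 4 * (YY (D.om n) S * D.Dv n (gr f n) S / D.om n S)
      + 4 * (∫ t in (0 : ℝ)..S, qq (D.om n) t ^ 2 * D.Dv n (gr f n) t / D.om n t)
      - 2 * (QQ (D.om n) (D.dom n) S * XX f n)
      ≤ ∫ t in (0 : ℝ)..S, (2 * (∑ i, D.ζ t n i ^ 2) + D.ρ t n * D.om n t ^ 2) := by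
    intro n
    have h := ray_data hD n (v := gr f n) (gr_tan f n) hS
    rw [gr_sq] at h
    have e2 : 4 * YY (D.om n) S * D.Dv n (gr f n) S / D.om n S =
        4 * (YY (D.om n) S * D.Dv n (gr f n) S / D.om n S) := by ring
    rw [e2, mul_assoc 4 (YY (D.om n) S), mul_assoc 2 (QQ (D.om n) (D.dom n) S)] at h
    exact h
  exact TS_int4 i1 i2 i3 i4 i5 key

theorem TS_pt (hD : D.Admissible) (f : NShell.SFun) {S : ℝ} (hS : 0 ≤ S) :
    ∫ n : S2, (HH (D.om n) (D.dom n) S * rr f n - (HH (D.om n) (D.dom n) S - D.om n 0) * ee (XX f n)) ∂sm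
      ≤ ∫ n : S2, (D.om n S - S) ∂sm - ∫ n : S2, HH (D.om n) (D.dom n) S * la f n ∂sm
        - ∫ n : S2, QQ (D.om n) (D.dom n) S * XX f n ∂sm := by
  have hHc : Continuous fun n : S2 => HH (D.om n) (D.dom n) S :=
    cont_at (F := fun s n => HH (D.om n) (D.dom n) s) (c_H hD) hS
  have hQc : Continuous fun n : S2 => QQ (D.om n) (D.dom n) S :=
    cont_at (F := fun s n => QQ (D.om n) (D.dom n) s) (c_Q hD) hS
  have homc : Continuous fun n : S2 => D.om n S :=
    cont_at (F := fun s n => D.om n s) (c_om hD.null) hS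
  have hom0 : Continuous fun n : S2 => D.om n 0 :=
    cont_at (F := fun s n => D.om n s) (c_om hD.null) le_rfl
  have i1 : Integrable (fun n : S2 => HH (D.om n) (D.dom n) S * rr f n -
      (HH (D.om n) (D.dom n) S - D.om n 0) * ee (XX f n)) sm :=
    integrable_sm ((hHc.mul (rr_cont f)).sub ((hHc.sub hom0).mul (ee_cont.comp (XX_cont f))))
  have i2 : Integrable (fun n : S2 => D.om n S - S) sm := integrable_sm (homc.sub continuous_const)
  have i3 : Integrable (fun n : S2 => HH (D.om n) (D.dom n) S * la f n) sm :=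
    integrable_sm (hHc.mul (la_cont f))
  have i4 : Integrable (fun n : S2 => QQ (D.om n) (D.dom n) S * XX f n) sm :=
    integrable_sm (hQc.mul (XX_cont f))
  refine TS_int3 i2 i3 i4 i1 fun n => ?_
  have h := pt_ineq (om_ray hD n) hS (XX_nonneg f n) (rr f n)
  have e : 1 - XX f n - rr f n = la f n := by
    rw [rr_eq]
    ring
  rw [e] at h
  exact h

theorem test_S (hD : D.Admissible) (f : NShell.SFun) {S : ℝ} (hS : 0 ≤ S) :
    2 * (∫ n : S2, (HH (D.om n) (D.dom n) S * rr f n - (HH (D.om n) (D.dom n) S - D.om n 0) * ee (XX f n)) ∂sm)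
      + 2 * (∫ n : S2, ph (D.om n) S * la f n ∂sm)
      + 4 * (∫ n : S2, YY (D.om n) S * (∑ i, D.ζ S n i * gr f n i) ∂sm)
      - 4 * (∫ n : S2, YY (D.om n) S * D.Dv n (gr f n) S / D.om n S ∂sm)
    ≤ Real.sqrt (16 * Real.pi * D.area S) - Th D S := by
  have h1 := energy hD hS
  have h2 := TS_ray hD f hS
  have h3 := TS_pt hD f hS
  have h4 := lin hD f hS
  rw [h4] at h2
  linarith

end MatterData
end NullPen
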